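import Pool.Agent.MP_b84581_al.h50.Spec

/-! Transitivity on shorter tuples; one group of transvections gives all of them. -/

set_option autoImplicit false

namespace Pool.Agent.MP_b84581_al.L

theorem down : DownS := by
  intro F V H _ _ _ _ _ ρ j hj h a b ha hb
  obtain ⟨u, hu⟩ := exists_linearIndependent_snoc_of_lt_finrank ha hj
  obtain ⟨w, hw⟩ := exists_linearIndependent_snoc_of_lt_finrank hb hj
  obtain ⟨g, hg⟩ := h _ _ hu hw
  exact ⟨g, fun i => by simpa using hg i.castSucc⟩

namespace AllAux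

variable {F V : Type} [Field F] [AddCommGroup V] [Module F V]

theorem pair {v y : V} (hv : v ≠ 0) (hy : y ∉ Submodule.span F {v}) :
    LinearIndependent F ![v, y] :=
  (LinearIndependent.pair_iff' hv).2 fun a h => hy (Submodule.mem_span_singleton.2 ⟨a, h⟩)

end AllAux

theorem allS : AllS := by
  intro F V H _ _ _ _ _ ρ h2 φ₀ v₀ hφ hv₀ h0 hH φ v hφv
  by_cases hv : v = 0
  · exact fun c => ⟨1, fun y => by simp [hv]⟩
  let Φ : Submodule F (Module.Dual F V) :=
    { carrier := {ψ | ψ v = 0 ∧ Has ρ ψ v}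
      zero_mem' := ⟨rfl, fun c => ⟨1, fun y => by simp⟩⟩
      add_mem' := by
        rintro ψ ψ' ⟨a1, a2⟩ ⟨b1, b2⟩
        refine ⟨by simp [a1, b1], fun c => ?_⟩
        obtain ⟨g, hg⟩ := a2 c
        obtain ⟨g', hg'⟩ := b2 c
        refine ⟨g * g', fun y => ?_⟩
        rw [map_mul, Module.End.mul_apply, hg', hg, map_add, map_smul, a1, smul_zero, add_zero,
          LinearMap.add_apply, mul_add, add_smul]
        abel
      smul_mem' := by
        rintro t ψ ⟨a1, a2⟩
        refine ⟨by simp [a1], fun c => ?_⟩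
        obtain ⟨g, hg⟩ := a2 (c * t)
        exact ⟨g, fun y => by rw [hg, LinearMap.smul_apply, smul_eq_mul, mul_assoc]⟩ }
  obtain ⟨w, hw⟩ : ∃ w, φ₀ w ≠ 0 := by
    by_contra c
    exact hφ (LinearMap.ext fun w => by_contra fun h => c ⟨w, h⟩)
  have hw' : w ∉ Submodule.span F {v₀} := fun c => by
    obtain ⟨a, rfl⟩ := Submodule.mem_span_singleton.1 c
    exact hw (by rw [map_smul, h0, smul_zero])
  have key : Φ.dualCoannihilator ≤ Submodule.span F {v} := by
    intro y hy
    by_contra c
    obtain ⟨g, hg⟩ := h2 _ _ (AllAux.pair hv₀ hw') (AllAux.pair hv c)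
    have g0 : ρ g v₀ = v := hg 0
    have g1 : ρ g w = y := hg 1
    have inv : ∀ x, ρ g⁻¹ (ρ g x) = x := fun x => by
      rw [← Module.End.mul_apply, ← map_mul, inv_mul_cancel, map_one, Module.End.one_apply]
    have inv' : ∀ x, ρ g (ρ g⁻¹ x) = x := fun x => by
      rw [← Module.End.mul_apply, ← map_mul, mul_inv_cancel, map_one, Module.End.one_apply]
    have hm : φ₀.comp (ρ g⁻¹) ∈ Φ := by
      refine ⟨by rw [LinearMap.comp_apply, ← g0, inv, h0], fun t => ?_⟩
      obtain ⟨k, hk⟩ := hH t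
      refine ⟨g * k * g⁻¹, fun x => ?_⟩
      rw [map_mul, map_mul, Module.End.mul_apply, Module.End.mul_apply, hk, map_add, map_smul,
        inv', g0, LinearMap.comp_apply]
    have := (Submodule.mem_dualCoannihilator y).1 hy _ hm
    rw [LinearMap.comp_apply, ← g1, inv] at this
    exact hw this
  have hm : φ ∈ Φ := by
    rw [← Subspace.dualCoannihilator_dualAnnihilator_eq (W := Φ)]
    refine (Submodule.mem_dualAnnihilator φ).2 fun y hy => ?_
    obtain ⟨a, rfl⟩ := Submodule.mem_span_singleton.1 (key hy)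
    rw [map_smul, hφv, smul_zero]
  exact hm.2

end Pool.Agent.MP_b84581_al.L
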