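import Pool.Agent.MP_b84581_al.h50.SpecC

/-! A perfect group of isometries in dimension ten. -/

set_option autoImplicit false

namespace Pool.Agent.MP_b84581_al.C

open Module

section
variable {F : Type} [Field F] (P : Par F)

/-- the hyperbolic form -/
def al_f : Form P ((Fin 5 → F) × (Fin 5 → F)) :=
  LinearMap.mk₂'ₛₗ P.σ (RingHom.id F) (fun x y => ∑ i, P.σ (x.1 i) * y.2 i)
    (fun a b y => by
      simp only [Prod.fst_add, Pi.add_apply, map_add, add_mul, Finset.sum_add_distrib])
    (fun c a y => by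
      simp only [Prod.smul_fst, Pi.smul_apply, smul_eq_mul, map_mul, Finset.mul_sum, mul_assoc])
    (fun a y z => by
      simp only [Prod.snd_add, Pi.add_apply, mul_add, Finset.sum_add_distrib])
    (fun c a y => by
      simp only [Prod.smul_snd, Pi.smul_apply, smul_eq_mul, RingHom.id_apply, Finset.mul_sum]
      exact Finset.sum_congr rfl (fun i _ => by ring))

theorem al_f_apply (x y : (Fin 5 → F) × (Fin 5 → F)) :
    al_f P x y = ∑ i, P.σ (x.1 i) * y.2 i := rfl

theorem al_sum_single (u : Fin 5 → F) (i : Fin 5) :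
    ∑ k, u k * (Pi.single i (1 : F) : Fin 5 → F) k = u i := by
  rw [Finset.sum_eq_single i]
  · simp
  · intro k _ hk
    simp [Pi.single_eq_of_ne hk]
  · simp

theorem al_nd : ND (al_f P) := by
  intro x hx
  have he : P.ε ≠ 0 := fun h => by
    have := P.eps
    rw [h, mul_zero] at this
    exact zero_ne_one this
  ext i
  · have h := hx (0, Pi.single i 1)
    rw [herm_apply, al_f_apply, al_f_apply] at h
    simp only [Pi.zero_apply, map_zero, zero_mul, Finset.sum_const_zero, mul_zero, add_zero] at h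
    rw [al_sum_single (fun k => P.σ (x.1 k)) i] at h
    exact (map_eq_zero P.σ).1 h
  · have h := hx (Pi.single i 1, 0)
    rw [herm_apply, al_f_apply, al_f_apply] at h
    simp only [Pi.zero_apply, mul_zero, Finset.sum_const_zero, zero_add] at h
    have h1 : ∑ k, P.σ ((Pi.single i (1 : F) : Fin 5 → F) k) * x.2 k = x.2 i := by
      rw [Finset.sum_eq_single i]
      · simp
      · intro k _ hk
        simp [Pi.single_eq_of_ne hk]
      · simp
    rw [h1] at h
    exact (map_eq_zero P.σ).1 ((mul_eq_zero.1 h).resolve_left he)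

/-- permutation of the coordinates -/
def al_e (F : Type) [Field F] (s : Equiv.Perm (Fin 5)) :
    ((Fin 5 → F) × (Fin 5 → F)) ≃ₗ[F] ((Fin 5 → F) × (Fin 5 → F)) where
  toFun x := (fun i => x.1 (s⁻¹ i), fun i => x.2 (s⁻¹ i))
  invFun x := (fun i => x.1 (s i), fun i => x.2 (s i))
  map_add' _ _ := rfl
  map_smul' _ _ := rfl
  left_inv x := by ext i <;> simp
  right_inv x := by ext i <;> simp

theorem al_pres (s : Equiv.Perm (Fin 5)) (x y : (Fin 5 → F) × (Fin 5 → F)) :
    al_f P (al_e F s x) (al_e F s y) = al_f P x y := by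
  rw [al_f_apply, al_f_apply]
  exact Equiv.sum_comp (s⁻¹ : Equiv.Perm (Fin 5)) (fun i => P.σ (x.1 i) * y.2 i)

theorem al_mem (s : Equiv.Perm (Fin 5)) : al_e F s ∈ isom (al_f P) := by
  refine ⟨fun x y => ?_, fun x => ?_⟩
  · rw [herm_apply, herm_apply]
    simp only [LinearEquiv.coe_coe]
    rw [al_pres, al_pres]
  · simp only [LinearEquiv.coe_coe]
    rw [al_pres, sub_self]
    exact zero_mem _

/-- the permutation representation -/
def al_j : Equiv.Perm (Fin 5) →* isom (al_f P) where
  toFun s := ⟨al_e F s, al_mem P s⟩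
  map_one' := rfl
  map_mul' _ _ := rfl

theorem al_inj : Function.Injective (al_j P) := by
  rw [injective_iff_map_eq_one]
  intro s hs
  ext i
  have h : al_e F s = 1 := congrArg Subtype.val hs
  have h1 : (al_e F s (Pi.single i 1, 0)).1 (s i) = (Pi.single i (1 : F) : Fin 5 → F) (s i) := by
    rw [h]; rfl
  have h2 : (al_e F s (Pi.single i 1, 0)).1 (s i) = 1 := by
    show (Pi.single i (1 : F) : Fin 5 → F) (s⁻¹ (s i)) = 1
    simp
  rw [h2] at h1
  by_contra hc
  have h3 : s i ≠ i := fun e => hc (by rw [e]; rfl)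
  rw [Pi.single_eq_of_ne h3] at h1
  exact one_ne_zero h1

end

theorem altS : AltS := by
  intro F _ P
  refine ⟨al_f P, (alternatingGroup (Fin 5)).map (al_j P), al_nd P, ?_, ?_⟩
  · rw [Ne, Subgroup.map_eq_bot_iff_of_injective _ (al_inj P)]
    intro h
    have h1 : Equiv.swap (0 : Fin 5) 1 * Equiv.swap 1 2 ∈ alternatingGroup (Fin 5) := by
      rw [Equiv.Perm.mem_alternatingGroup]
      decide
    rw [h, Subgroup.mem_bot] at h1
    revert h1
    decide
  · rw [← Subgroup.map_commutator, commutator_alternatingGroup_eq_self (by simp)]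

end Pool.Agent.MP_b84581_al.C
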