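import Mathlib

/-! The finite classical groups. -/

set_option autoImplicit false

namespace Pool.Agent.MP_b84581_al.Cl

section
variable {F V : Type} [Field F] [AddCommGroup V] [Module F V]

/-- `Γ` is the group of all isometries of a nondegenerate alternating form -/
def IsSymplectic (Γ : Subgroup (V ≃ₗ[F] V)) : Prop :=
  ∃ B : LinearMap.BilinForm F V, B.IsAlt ∧ B.Nondegenerate ∧
    ∀ g, g ∈ Γ ↔ ∀ x y, B (g x) (g y) = B x y

/-- `Γ` is the group of all isometries of a quadratic form with nondegenerate polar form -/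
def IsOrthogonal (Γ : Subgroup (V ≃ₗ[F] V)) : Prop :=
  ∃ Q : QuadraticForm F V, (QuadraticMap.polarBilin Q).Nondegenerate ∧
    ∀ g, g ∈ Γ ↔ ∀ x, Q (g x) = Q x

/-- `Γ` is the group of all isometries of a nondegenerate hermitian form -/
def IsUnitary (Γ : Subgroup (V ≃ₗ[F] V)) : Prop :=
  ∃ (σ : F →+* F) (B : V →ₛₗ[σ] V →ₗ[F] F), σ ≠ RingHom.id F ∧ (∀ a, σ (σ a) = a) ∧
    (∀ x y, B y x = σ (B x y)) ∧ B.Nondegenerate ∧ ∀ g, g ∈ Γ ↔ ∀ x y, B (g x) (g y) = B x y

end

/-- `S` is the derived group of `Γ` modulo its centre -/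
def IsProjDerived (S Γ : Type) [Group S] [Group Γ] : Prop :=
  Nonempty (S ≃* commutator Γ ⧸ Subgroup.center (commutator Γ))

/-- `S` is a classical group of dimension `n` over a field with `q` elements -/
def IsClassical (S : Type) [Group S] (n q : ℕ) : Prop :=
  ∃ (F : Type) (_ : Field F) (_ : Finite F) (Γ : Subgroup ((Fin n → F) ≃ₗ[F] (Fin n → F))),
    Nat.card F = q ∧ (Γ = ⊤ ∨ IsSymplectic Γ ∨ IsOrthogonal Γ ∨ IsUnitary Γ) ∧ IsProjDerived S Γ

end Pool.Agent.MP_b84581_al.Cl
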