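import Pool.Agent.MP_b84581_al.h50.SpecC

/-! Every nondegenerate space embeds in every nondegenerate space of dimension larger by four. -/

set_option autoImplicit false

namespace Pool.Agent.MP_b84581_al.C

open Module

section
variable {F U V : Type} [Field F] [AddCommGroup U] [Module F U] [AddCommGroup V] [Module F V]
  {P : Par F}

theorem em_inj {fU : Form P U} {f : Form P V} {g : U →ₗ[F] V} (hU : ND fU) (hg : Iso fU f g) :
    Function.Injective g := by
  rw [injective_iff_map_eq_zero]
  intro x hx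
  refine hU x fun y => ?_
  rw [← hg.1, hx, map_zero, LinearMap.zero_apply]

theorem em_nd {fU : Form P U} {f : Form P V} {g : U →ₗ[F] V} (hU : ND fU) (hg : Iso fU f g) :
    ND (res f (LinearMap.range g)) := by
  rintro ⟨_, x, rfl⟩ h
  have hx : x = 0 := hU x fun y => by
    rw [← hg.1]
    exact h ⟨g y, y, rfl⟩
  subst hx
  exact Subtype.ext (map_zero g)

theorem em_swap {f : Form P V} {x y : V} (h : herm f x y = 0) : herm f y x = 0 := by
  rw [herm_swap, h, map_zero, mul_zero]

theorem em_small [Nontrivial U] [FiniteDimensional F U] {f : Form P U} (hU : ND f) :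
    ∃ Y : Submodule F U, ND (res f Y) ∧ 1 ≤ finrank F Y ∧ finrank F Y ≤ 2 := by
  classical
  by_cases h : ∃ z, herm f z z ≠ 0
  · obtain ⟨z, hz⟩ := h
    have z0 : z ≠ 0 := fun e => hz (by rw [e, map_zero])
    refine ⟨Submodule.span F {z}, ?_, by rw [finrank_span_singleton z0],
      by rw [finrank_span_singleton z0]; norm_num⟩
    rintro ⟨w, hw⟩ h
    obtain ⟨a, rfl⟩ := Submodule.mem_span_singleton.1 hw
    have h1 : herm f (a • z) z = 0 := h ⟨z, Submodule.mem_span_singleton_self z⟩
    rw [LinearMap.map_smulₛₗ, LinearMap.smul_apply, smul_eq_mul, mul_eq_zero, map_eq_zero] at h1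
    exact Subtype.ext (by simp [h1.resolve_right hz])
  · push Not at h
    obtain ⟨x, hx⟩ := exists_ne (0 : U)
    obtain ⟨y, hy⟩ : ∃ y, herm f x y ≠ 0 := by
      by_contra hc
      push Not at hc
      exact hx (hU x hc)
    have mx : x ∈ Submodule.span F ({x, y} : Set U) := Submodule.subset_span (by simp)
    have my : y ∈ Submodule.span F ({x, y} : Set U) := Submodule.subset_span (by simp)
    refine ⟨Submodule.span F {x, y}, ?_, Submodule.one_le_finrank_iff.2 fun e => hx ?_,
      (finrank_span_le_card _).trans ?_⟩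
    · rintro ⟨w, hw⟩ h'
      obtain ⟨a, b, rfl⟩ := Submodule.mem_span_pair.1 hw
      have h1 : herm f (a • x + b • y) x = 0 := h' ⟨x, mx⟩
      have h2 : herm f (a • x + b • y) y = 0 := h' ⟨y, my⟩
      simp only [map_add, LinearMap.map_smulₛₗ, LinearMap.add_apply, LinearMap.smul_apply,
        smul_eq_mul, h, mul_zero, zero_add, add_zero, mul_eq_zero, map_eq_zero] at h1 h2
      have ha : a = 0 := h2.resolve_right hy
      have hb : b = 0 := h1.resolve_right fun e => hy (em_swap e)
      exact Subtype.ext (by simp [ha, hb])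
    · rw [e] at mx
      exact mx
    · rw [Set.toFinset_insert, Set.toFinset_singleton]
      exact Finset.card_le_two

theorem em_q {f : Form P V} {a b : V} (h : herm f a b = 0) :
    f (a + b) (a + b) - f a a - f b b ∈ P.Λ := by
  have e : f (a + b) (a + b) - f a a - f b b = f b a - P.ε * P.σ (f b a) := by
    rw [herm_apply] at h
    simp only [map_add, LinearMap.add_apply]
    linear_combination h
  rw [e]
  exact P.lo _

theorem em_glue {fU : Form P U} {f : Form P V} {Y : Submodule F U} (hc : IsCompl Y (perp fU Y))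
    {g₁ : Y →ₗ[F] V} (h₁ : Iso (res fU Y) f g₁)
    {g₂ : perp fU Y →ₗ[F] perp f (LinearMap.range g₁)}
    (h₂ : Iso (res fU (perp fU Y)) (res f (perp f (LinearMap.range g₁))) g₂) :
    Iso fU f (LinearMap.ofIsCompl hc g₁ ((perp f (LinearMap.range g₁)).subtype ∘ₗ g₂)) := by
  have c1 : ∀ (a : Y) (b : perp fU Y), herm fU a b = 0 := fun a b => b.2 a a.2
  have c2 : ∀ (a : Y) (b : perp fU Y), herm f (g₁ a) (g₂ b) = 0 := fun a b =>
    (g₂ b).2 _ ⟨a, rfl⟩
  have e : ∀ (a : Y) (b : perp fU Y), LinearMap.ofIsCompl hc g₁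
      ((perp f (LinearMap.range g₁)).subtype ∘ₗ g₂) ((a : U) + b) = g₁ a + (g₂ b : V) :=
    fun a b => by
      rw [map_add, LinearMap.ofIsCompl_apply_left, LinearMap.ofIsCompl_apply_right]
      rfl
  refine ⟨fun x y => ?_, fun x => ?_⟩
  · obtain ⟨a, b, rfl, -⟩ := Submodule.existsUnique_add_of_isCompl hc x
    obtain ⟨a', b', rfl, -⟩ := Submodule.existsUnique_add_of_isCompl hc y
    have k1 : herm f (g₁ a) (g₁ a') = herm fU a a' := h₁.1 a a'
    have k2 : herm f (g₂ b) (g₂ b') = herm fU b b' := h₂.1 b b'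
    rw [e, e]
    simp only [map_add, LinearMap.add_apply, k1, k2, c1, c2, em_swap (c1 a' b), em_swap (c2 a' b)]
  · obtain ⟨a, b, rfl, -⟩ := Submodule.existsUnique_add_of_isCompl hc x
    have k1 : f (g₁ a) (g₁ a) - fU a a ∈ P.Λ := h₁.2 a
    have k2 : f (g₂ b) (g₂ b) - fU b b ∈ P.Λ := h₂.2 b
    rw [e]
    convert add_mem (sub_mem (em_q (c2 a b)) (em_q (c1 a b))) (add_mem k1 k2) using 1
    ring

end

theorem em_main (hP : PerpS) (hH : HypS) (F : Type) [Field F] [Finite F] (P : Par F) (hu : Uni P)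
    (n : ℕ) : ∀ (U V : Type) [AddCommGroup U] [Module F U] [FiniteDimensional F U]
    [AddCommGroup V] [Module F V] [FiniteDimensional F V] (fU : Form P U) (f : Form P V),
    finrank F U < n → ND fU → ND f → finrank F U + 4 ≤ finrank F V →
    ∃ g : U →ₗ[F] V, Iso fU f g := by
  induction n with
  | zero => exact fun U V _ _ _ _ _ _ fU f h => absurd h (Nat.not_lt_zero _)
  | succ n ih =>
    intro U V _ _ _ _ _ _ fU f hn hU hV hd
    rcases subsingleton_or_nontrivial U with hs | hs
    · refine ⟨0, fun x y => ?_, fun x => ?_⟩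
      · simp [Subsingleton.elim y 0]
      · simp [Subsingleton.elim x 0]
    obtain ⟨Y, hY, y1, y2⟩ := em_small hU
    obtain ⟨c1, n1, -⟩ := hP F U P fU Y hU hY
    have d1 := Submodule.finrank_add_eq_of_isCompl c1
    obtain ⟨g₁, h₁⟩ := hH F Y V P (res fU Y) f hu hV y2 (by omega)
    obtain ⟨c2, n2, -⟩ := hP F V P f _ hV (em_nd hY h₁)
    have d2 := Submodule.finrank_add_eq_of_isCompl c2
    rw [LinearMap.finrank_range_of_inj (em_inj hY h₁)] at d2
    obtain ⟨g₂, h₂⟩ := ih _ _ _ _ (by omega) n1 n2 (by omega)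
    exact ⟨_, em_glue c1 h₁ h₂⟩

theorem emb : EmbR := fun hP hH F U V _ _ _ _ _ _ _ _ P fU f hu hU hV hd =>
  em_main hP hH F P hu _ U V fU f (Nat.lt_succ_self _) hU hV hd

end Pool.Agent.MP_b84581_al.C
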