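import Pool.Agent.MP_b84581_al.h50.SpecC

/-! Isometries extend by the identity on the orthogonal complement. -/

set_option autoImplicit false

namespace Pool.Agent.MP_b84581_al.C

theorem ex_add {F V : Type} [Field F] [AddCommGroup V] [Module F V] {P : Par F} (f : Form P V)
    {a b : V} (h : herm f a b = 0) : f (a + b) (a + b) - f a a - f b b ∈ P.Λ := by
  have e : f (a + b) (a + b) - f a a - f b b = f b a - P.ε * P.σ (f b a) := by
    rw [herm_apply] at h
    simp only [map_add, LinearMap.add_apply]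
    linear_combination h
  rw [e]; exact P.lo _

theorem ext : ExtR := by
  intro H F U V _ _ _ _ _ _ _ _ P fU f g hU hf hg
  have inj : Function.Injective g := (injective_iff_map_eq_zero g).2 fun x hx =>
    hU x fun y => by rw [← hg.1, hx]; simp
  have nd : ND (res f (LinearMap.range g)) := by
    rintro ⟨_, x, rfl⟩ h
    have : x = 0 := hU x fun y => by rw [← hg.1]; exact h ⟨g y, y, rfl⟩
    exact Subtype.ext (by simp [this])
  have hc := (H F V P f _ hf nd).1
  obtain ⟨J, J1, J2⟩ : ∃ J : (U ≃ₗ[F] U) → V →ₗ[F] V, (∀ a u, J a (g u) = g (a u)) ∧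
      ∀ a, ∀ z ∈ perp f (LinearMap.range g), J a z = z := by
    let e := LinearEquiv.ofInjective g inj
    refine ⟨fun a => LinearMap.ofIsCompl hc (g ∘ₗ a.toLinearMap ∘ₗ e.symm.toLinearMap)
      (perp f (LinearMap.range g)).subtype, fun a u => ?_, fun a z hz =>
      LinearMap.ofIsCompl_apply_right hc (⟨z, hz⟩ : perp f (LinearMap.range g))⟩
    exact (LinearMap.ofIsCompl_apply_left hc (e u)).trans
      (congrArg (fun t => g (a t)) (e.symm_apply_apply u))
  have dec : ∀ v, ∃ u, ∃ z ∈ perp f (LinearMap.range g), v = g u + z := fun v => by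
    obtain ⟨⟨_, u, rfl⟩, z, h, -⟩ := Submodule.existsUnique_add_of_isCompl hc v
    exact ⟨u, z, z.2, h.symm⟩
  have mul : ∀ a b v, J (a * b) v = J a (J b v) := fun a b v => by
    obtain ⟨u, z, hz, rfl⟩ := dec v
    simp only [map_add, J1, J2 _ z hz, LinearEquiv.mul_apply]
  have one : ∀ v, J 1 v = v := fun v => by
    obtain ⟨u, z, hz, rfl⟩ := dec v
    rw [map_add, J1, J2 _ z hz]; rfl
  have o1 : ∀ u, ∀ z ∈ perp f (LinearMap.range g), herm f (g u) z = 0 := fun u z hz =>
    hz _ ⟨u, rfl⟩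
  have o2 : ∀ u, ∀ z ∈ perp f (LinearMap.range g), herm f z (g u) = 0 := fun u z hz => by
    rw [herm_swap, o1 u z hz, map_zero, mul_zero]
  have iso : ∀ a : isom fU, Iso f f (J a.1) := fun a => by
    refine ⟨fun x y => ?_, fun x => ?_⟩
    · obtain ⟨u, z, hz, rfl⟩ := dec x
      obtain ⟨u', z', hz', rfl⟩ := dec y
      simp only [map_add, LinearMap.add_apply, J1, J2 _ z hz, J2 _ z' hz', o1 _ z' hz', o2 _ z hz,
        hg.1]
      exact congrArg (fun t => t + 0 + (0 + herm f z z')) (a.2.1 u u')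
    · obtain ⟨u, z, hz, rfl⟩ := dec x
      rw [show J a.1 (g u + z) = g (a.1 u) + z by rw [map_add, J1, J2 _ z hz]]
      have := sub_mem (add_mem (add_mem (sub_mem (ex_add f (o1 (a.1 u) z hz))
        (ex_add f (o1 u z hz))) (hg.2 (a.1 u))) (a.2.2 u)) (hg.2 u)
      convert this using 1
      simp only [LinearEquiv.coe_coe]
      ring
  obtain ⟨K, hK⟩ : ∃ K : (U ≃ₗ[F] U) → V ≃ₗ[F] V, ∀ a, (K a).toLinearMap = J a :=
    ⟨fun a => { J a with
        invFun := J a⁻¹
        left_inv := fun v => (mul a⁻¹ a v).symm.trans (by rw [inv_mul_cancel, one])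
        right_inv := fun v => (mul a a⁻¹ v).symm.trans (by rw [mul_inv_cancel, one]) },
      fun _ => rfl⟩
  have hK' : ∀ a v, K a v = J a v := fun a v => by rw [← hK]; rfl
  let j : isom fU →* isom f := MonoidHom.mk' (fun a => ⟨K a.1, by
      change Iso f f _
      rw [hK]; exact iso a⟩) fun a b => Subtype.ext (LinearEquiv.ext fun v => by
    change K (a.1 * b.1) v = K a.1 (K b.1 v)
    rw [hK', hK', hK', mul])
  have hj : ∀ a v, (j a).1 v = J a.1 v := fun a v => hK' a.1 v
  refine ⟨inj, nd, j, (injective_iff_map_eq_one j).2 fun a ha => Subtype.ext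
    (LinearEquiv.ext fun u => inj ?_), fun a u => by rw [hj, J1], fun a z hz => by
      rw [hj, J2 _ z hz]⟩
  rw [← J1, ← hj, ha]
  rfl

end Pool.Agent.MP_b84581_al.C
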