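import Pool.Agent.MP_b84581_al.h50.SpecC

/-! Small spaces embed into two hyperbolic planes. -/

set_option autoImplicit false

namespace Pool.Agent.MP_b84581_al.C

open Module

section
variable {F V : Type} [Field F] [AddCommGroup V] [Module F V] {P : Par F}

theorem hy_self {f : Form P V} {a : V} (h : f a a ∈ P.Λ) : herm f a a = 0 := P.hi _ h

theorem hy_smul {f : Form P V} {a : V} (h : f a a ∈ P.Λ) (c : F) : f (c • a) (c • a) ∈ P.Λ := by
  have := P.cl _ h c
  convert this using 1
  simp only [LinearMap.map_smulₛₗ, LinearMap.smul_apply, smul_eq_mul, RingHom.id_apply]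
  ring

theorem hy_add (f : Form P V) (a b : V) :
    f (a + b) (a + b) - f a a - f b b - herm f a b ∈ P.Λ := by
  have := P.lo (f b a)
  rw [herm_apply]
  simp only [map_add, LinearMap.add_apply]
  convert this using 1
  ring

theorem hy_swap0 {f : Form P V} {a b : V} (h : herm f a b = 0) : herm f b a = 0 := by
  rw [herm_swap, h, map_zero, mul_zero]

theorem hy_comb {f : Form P V} {a b : V} (ha : f a a ∈ P.Λ) (hb : f b b ∈ P.Λ)
    (h : herm f a b = 0) (c d : F) : f (c • a + d • b) (c • a + d • b) ∈ P.Λ := by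
  have h1 := hy_add f (c • a) (d • b)
  have h2 : herm f (c • a) (d • b) = 0 := by simp [h]
  rw [h2, sub_zero] at h1
  simpa using add_mem (add_mem h1 (hy_smul hb d)) (hy_smul ha c)

theorem hy_pair [FiniteDimensional F V] (hU : Uni P) {f : Form P V} (hf : ND f)
    (h : 3 ≤ finrank F V) : ∃ a b, f a a ∈ P.Λ ∧ f b b ∈ P.Λ ∧ herm f a b = 1 := by
  obtain ⟨e, e0, he⟩ := hU V f h
  obtain ⟨y0, hy0⟩ : ∃ y, herm f e y ≠ 0 := by
    by_contra hn
    push Not at hn
    exact e0 (hf e hn)
  obtain ⟨y, hy⟩ : ∃ y, herm f e y = 1 :=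
    ⟨(herm f e y0)⁻¹ • y0, by rw [map_smul, smul_eq_mul, inv_mul_cancel₀ hy0]⟩
  refine ⟨e, (-P.σ (f y y)) • e + y, he, ?_, by simp [hy, hy_self he]⟩
  have h1 := hy_add f ((-P.σ (f y y)) • e) y
  have h2 : herm f ((-P.σ (f y y)) • e) y = -f y y := by simp [hy, P.inv]
  rw [h2] at h1
  have h3 := add_mem h1 (hy_smul he (-P.σ (f y y)))
  convert h3 using 1
  ring

theorem hy_nd {f : Form P V} {a b : V} (ha : f a a ∈ P.Λ) (hb : f b b ∈ P.Λ)
    (h : herm f a b = 1) : ND (res f (Submodule.span F {a, b})) := by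
  rintro ⟨x, hx⟩ h0
  obtain ⟨c, d, rfl⟩ := Submodule.mem_span_pair.1 hx
  have h' : herm f b a = P.ε := by rw [herm_swap, h, map_one, mul_one]
  have h1 : herm f (c • a + d • b) a = 0 := h0 ⟨a, Submodule.subset_span (by simp)⟩
  have h2 : herm f (c • a + d • b) b = 0 := h0 ⟨b, Submodule.subset_span (by simp)⟩
  have e0 : P.ε ≠ 0 := left_ne_zero_of_mul_eq_one P.eps
  simp [h, h', hy_self ha, hy_self hb, e0] at h1 h2
  subst h1 h2
  exact Subtype.ext (by simp)

end

theorem hyp : HypR := by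
  intro hP F Y V _ _ _ _ _ _ _ _ P fY f hU hf hY hV
  obtain ⟨a, b, ha, hb, hab⟩ := hy_pair hU hf (by omega)
  obtain ⟨hc, hn, -⟩ := hP F V P f _ hf (hy_nd ha hb hab)
  have h2 : finrank F (Submodule.span F {a, b}) ≤ 2 := by
    classical
    exact (finrank_span_le_card ({a, b} : Set V)).trans (by
      rw [Set.toFinset_insert, Set.toFinset_singleton]; exact Finset.card_le_two)
  have h3 := Submodule.finrank_add_eq_of_isCompl hc
  obtain ⟨⟨a', ma⟩, ⟨b', mb⟩, ha', hb', hab'⟩ := hy_pair hU hn (by omega)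
  replace ha' : f a' a' ∈ P.Λ := ha'
  replace hb' : f b' b' ∈ P.Λ := hb'
  replace hab' : herm f a' b' = 1 := hab'
  have p1 : herm f a a' = 0 := ma a (Submodule.subset_span (by simp))
  have p2 : herm f b a' = 0 := ma b (Submodule.subset_span (by simp))
  have p3 : herm f a b' = 0 := mb a (Submodule.subset_span (by simp))
  have p4 : herm f b b' = 0 := mb b (Submodule.subset_span (by simp))
  obtain ⟨ι, hι⟩ := (finrank_le_iff_exists_linearMap (R := F) (M := Y) (M' := F × F)).1
    (by simpa using hY)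
  obtain ⟨π, hπ⟩ := ι.exists_leftInverse_of_injective (LinearMap.ker_eq_bot.2 hι)
  have hy : ∀ y, y = (ι y).1 • π (1, 0) + (ι y).2 • π (0, 1) := fun y => by
    rw [← map_smul, ← map_smul, ← map_add]
    refine (LinearMap.congr_fun hπ y).symm.trans (congrArg π ?_)
    simp
  let α : Y →ₗ[F] V := ((LinearMap.fst F F F).comp ι).smulRight a +
    ((LinearMap.snd F F F).comp ι).smulRight a'
  let β : Y →ₗ[F] V := (fY (π (1, 0))).smulRight b + (fY (π (0, 1))).smulRight b'
  have hα : ∀ y, α y = (ι y).1 • a + (ι y).2 • a' := fun _ => rfl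
  have hβ : ∀ y, β y = fY (π (1, 0)) y • b + fY (π (0, 1)) y • b' := fun _ => rfl
  have q1 : ∀ x y, herm f (α x) (α y) = 0 := fun x y => by
    simp [hα, hy_self ha, hy_self ha', p1, hy_swap0 p1]
  have q2 : ∀ x y, herm f (β x) (β y) = 0 := fun x y => by
    simp [hβ, hy_self hb, hy_self hb', p4, hy_swap0 p4]
  have q3 : ∀ x y, herm f (α x) (β y) = fY x y := fun x y => by
    conv_rhs => rw [hy x]
    simp [hα, hβ, hab, hab', p3, hy_swap0 p2, mul_comm]
  refine ⟨α + β, fun x y => ?_, fun x => ?_⟩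
  · simp only [LinearMap.add_apply, map_add]
    rw [q1, q2, q3, herm_swap f (α y), q3, herm_apply]
    ring
  · have h4 := hy_add f (α x) (β x)
    rw [q3] at h4
    have h5 := add_mem (add_mem h4 (hα x ▸ hy_comb ha ha' p1 _ _)) (hβ x ▸ hy_comb hb hb' p4 _ _)
    convert h5 using 1
    rw [LinearMap.add_apply]
    ring

end Pool.Agent.MP_b84581_al.C
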