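import Pool.Agent.MP_b84581_al.h50.SpecC

/-! Involutions of finite fields, and singular vectors of unitary forms. -/

set_option autoImplicit false

namespace Pool.Agent.MP_b84581_al.C

open Module

theorem invS : InvS := by
  intro F _ _ σ p _ _ hne hinv
  letI : Algebra (ZMod p) F := ZMod.algebra F p
  let g : F →ₐ[ZMod p] F := { σ with
    commutes' := fun c => DFunLike.congr_fun
      (RingHom.ext_zmod (σ.comp (algebraMap (ZMod p) F)) (algebraMap (ZMod p) F)) c }
  have hgσ : ∀ a, g a = σ a := fun _ => rfl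
  obtain ⟨⟨i, hi⟩, hg⟩ := (FiniteField.bijective_frobeniusAlgHom_pow (ZMod p) F).2 g
  simp only at hg
  have hpow : ∀ a, σ a = a ^ p ^ i := by
    intro a
    have := DFunLike.congr_fun hg a
    rw [AlgHom.coe_pow, FiniteField.coe_frobeniusAlgHom, pow_iterate, ZMod.card] at this
    exact this.symm
  have h2 : FiniteField.frobeniusAlgHom (ZMod p) F ^ (i * 2) = 1 := by
    rw [pow_mul, hg]
    ext a
    rw [pow_two, AlgHom.mul_apply, hgσ, hgσ, hinv, AlgHom.one_apply]
  have hd := orderOf_dvd_of_pow_eq_one h2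
  rw [FiniteField.orderOf_frobeniusAlgHom] at hd
  have hi0 : i ≠ 0 := by
    rintro rfl
    apply hne
    ext a
    simp [hpow]
  have hn : finrank (ZMod p) F = i * 2 := by
    obtain ⟨c, hc⟩ := hd
    have hc1 : c = 1 := by
      rcases c with _ | _ | c
      · omega
      · rfl
      · exfalso
        nlinarith [Nat.zero_le (finrank (ZMod p) F * c)]
    rw [hc, hc1, mul_one]
  refine ⟨i, ?_, hpow⟩
  rw [Module.natCard_eq_pow_finrank (K := ZMod p), Nat.card_zmod, hn, pow_mul]

/-- the norm to the fixed field is onto -/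
theorem iv_norm (F : Type) [Field F] [Finite F] (σ : F →+* F) (h : ∀ a, σ (σ a) = a)
    (hne : σ ≠ RingHom.id F) (t : F) (ht : t ≠ 0) (hσ : σ t = t) : ∃ c, σ c * c = t := by
  obtain ⟨p, hp⟩ := CharP.exists F
  haveI : Fact p.Prime := ⟨CharP.char_is_prime F p⟩
  obtain ⟨e, hc, hs⟩ := invS F σ p hne h
  obtain ⟨q, hq⟩ : ∃ q, p ^ e = q + 1 :=
    ⟨p ^ e - 1, (Nat.sub_add_cancel (Nat.one_le_pow _ _ (Fact.out : p.Prime).pos)).symm⟩
  rw [hq] at hc hs
  have hq0 : 0 < q := by
    rcases q with _ | q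
    · exfalso
      apply hne
      ext a
      simp [hs]
    · omega
  obtain ⟨γ, hγ⟩ := IsCyclic.exists_generator (α := Fˣ)
  have ho : orderOf γ = q * (q + 2) := by
    rw [orderOf_eq_card_of_forall_mem_zpowers hγ, Nat.card_units, hc]
    have : (q + 1) ^ 2 = q * (q + 2) + 1 := by ring
    omega
  obtain ⟨k, hk⟩ : ∃ k : ℕ, γ ^ k = Units.mk0 t ht :=
    (mem_powers_iff_mem_zpowers.2 (hγ (Units.mk0 t ht)))
  have hk' : (γ : F) ^ k = t := by
    rw [← Units.val_pow_eq_pow_val, hk, Units.val_mk0]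
  have h1 : t ^ q = 1 := by
    have := hs t
    rw [hσ, pow_succ] at this
    exact mul_right_cancel₀ ht (by rw [← this, one_mul])
  have h2 : γ ^ (q * k) = 1 := by
    ext
    rw [Units.val_pow_eq_pow_val, mul_comm, pow_mul, hk', h1, Units.val_one]
  have h3 := orderOf_dvd_of_pow_eq_one h2
  rw [ho] at h3
  obtain ⟨j, hj⟩ := Nat.dvd_of_mul_dvd_mul_left hq0 h3
  refine ⟨(γ : F) ^ j, ?_⟩
  rw [hs, ← pow_succ, ← pow_mul, ← hk', hj, mul_comm]

theorem uniU : UniU := by
  intro F _ _ σ h hne V _ _ _ f hV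
  have hmem : ∀ v : V, herm f v v = 0 → f v v ∈ (pU σ h).Λ := by
    intro v hv
    rw [herm_apply] at hv
    have hv' : f v v + σ (f v v) = 0 := by
      have h1 : (pU σ h).ε = 1 := rfl
      rw [h1, one_mul] at hv
      exact hv
    show (AddMonoidHom.id F + σ.toAddMonoidHom) (f v v) = 0
    simpa using hv'
  have hsw : ∀ x y : V, herm f y x = σ (herm f x y) := by
    intro x y
    rw [herm_swap]
    exact one_mul _
  haveI : Nontrivial V := Module.nontrivial_of_finrank_pos (R := F) (by omega)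
  obtain ⟨v1, hv1⟩ := exists_ne (0 : V)
  by_cases ha : herm f v1 v1 = 0
  · exact ⟨v1, hv1, hmem v1 ha⟩
  have hker : LinearMap.ker (herm f v1) ≠ ⊥ := by
    apply LinearMap.ker_ne_bot_of_finrank_lt
    rw [Module.finrank_self]
    omega
  obtain ⟨v2, hv2, hv20⟩ := Submodule.exists_mem_ne_zero_of_ne_bot hker
  rw [LinearMap.mem_ker] at hv2
  by_cases hb : herm f v2 v2 = 0
  · exact ⟨v2, hv20, hmem v2 hb⟩
  obtain ⟨c, hc⟩ := iv_norm F σ h hne (-herm f v2 v2 / herm f v1 v1)
    (div_ne_zero (neg_ne_zero.2 hb) ha)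
    (by rw [map_div₀, map_neg, ← hsw, ← hsw])
  have hc0 : c ≠ 0 := by
    rintro rfl
    rw [mul_zero] at hc
    exact div_ne_zero (neg_ne_zero.2 hb) ha hc.symm
  have hv21 : herm f v2 v1 = 0 := by rw [hsw, hv2, map_zero]
  refine ⟨c • v1 + v2, ?_, hmem _ ?_⟩
  · intro h0
    have := congrArg (herm f v1) h0
    rw [map_add, map_smul, hv2, add_zero, map_zero, smul_eq_mul] at this
    exact mul_ne_zero hc0 ha this
  · have hσ : (pU σ h).σ c = σ c := rfl
    simp only [map_add, LinearMap.add_apply, LinearMap.map_smulₛₗ, LinearMap.smul_apply,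
      smul_eq_mul, RingHom.id_apply, hv2, hv21, hσ]
    have : σ c * c * herm f v1 v1 = -herm f v2 v2 := by
      rw [hc]
      field_simp
    linear_combination this

end Pool.Agent.MP_b84581_al.C
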