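import Pool.Agent.MP_b84581_al.h50.Spec

/-! Three facts on the special linear group. -/

set_option autoImplicit false

namespace Pool.Agent.MP_b84581_al.L

open Matrix Matrix.SpecialLinearGroup
open scoped commutatorElement

theorem slTr : SlTrS := by
  intro F _ n j hj a b ha hb
  have : FiniteDimensional F (Submodule.span F (Set.range a)) :=
    FiniteDimensional.span_of_finite F (Set.finite_range _)
  obtain ⟨g, hg⟩ := Submodule.exists_linearEquiv_restrict_eq
    (ha.linearCombinationEquiv.symm ≪≫ₗ hb.linearCombinationEquiv)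
  have hga : ∀ i, g (a i) = b i := fun i => by
    have e1 : a i = ha.linearCombinationEquiv (Finsupp.single i 1) := by simp
    rw [e1, ← hg]
    simp
  have hlt : Submodule.span F (Set.range b) < ⊤ := by
    refine lt_top_iff_ne_top.2 fun h => ?_
    have h1 := finrank_span_eq_card hb
    rw [h, finrank_top] at h1
    simp at h1
    omega
  obtain ⟨w, -, hw⟩ := SetLike.exists_of_lt hlt
  obtain ⟨f, hf, hf0⟩ := Submodule.exists_dual_map_eq_bot_of_notMem hw inferInstance
  have hfb : ∀ i, f (b i) = 0 := fun i => by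
    have : f (b i) ∈ (Submodule.span F (Set.range b)).map f :=
      Submodule.mem_map_of_mem (Submodule.subset_span ⟨i, rfl⟩)
    rwa [hf0, Submodule.mem_bot] at this
  have hd : LinearMap.det (g : (Fin n → F) →ₗ[F] (Fin n → F)) ≠ 0 := g.isUnit_det'.ne_zero
  refine ⟨⟨LinearMap.toMatrix' (LinearMap.transvection f
    ((((LinearMap.det (g : (Fin n → F) →ₗ[F] (Fin n → F)))⁻¹ - 1) / f w) • w) ∘ₗ g), ?_⟩,
    fun i => ?_⟩
  · rw [LinearMap.det_toMatrix', LinearMap.det_comp, LinearMap.transvection.det, map_smul,
      smul_eq_mul]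
    field_simp
    ring
  · simp [LinearMap.toMatrix'_mulVec, hga, LinearMap.transvection.apply, hfb]

theorem diag_eq {F : Type} [Field F] {n : ℕ} {i j : Fin n} (h : i ≠ j) {a : F} (ha : a ≠ 0) :
    diag2n h a ha = transvection h a * transvection h.symm (-a⁻¹) * transvection h a *
      transvection h (-1) * transvection h.symm 1 * transvection h (-1) := by
  refine Subtype.ext ?_
  have e : (diag2n h a ha).1 = 1 + single i i (a - 1) + single j j (a⁻¹ - 1) := by
    rw [diag2n_coe]
    ext k l
    simp only [diagonal_apply, Matrix.add_apply, one_apply, single_apply]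
    grind
  rw [e]
  simp only [Matrix.SpecialLinearGroup.coe_mul, transvection_coe, mul_add, add_mul, mul_one, one_mul,
    single_mul_single_same, single_mul_single_of_ne, h, h.symm, ne_eq, not_false_eq_true,
    add_zero, mul_neg, neg_mul, mul_inv_cancel₀ ha, inv_mul_cancel₀ ha, neg_neg]
  ext k l
  simp only [Matrix.add_apply, single_apply]
  split_ifs <;> first | (exfalso; omega) | (field_simp; ring)

theorem slGen : SlGenS := by
  intro F _ n H h
  refine top_le_iff.1 fun A _ => ?_
  rcases subsingleton_or_nontrivial (Fin n) with hn | hn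
  · rw [Subsingleton.elim A 1]
    exact H.one_mem
  · refine diagonal_transvection_induction' (· ∈ H) A (fun i j hij c hc => ?_) h
      fun _ _ => H.mul_mem
    rw [diag_eq hij hc]
    exact H.mul_mem (H.mul_mem (H.mul_mem (H.mul_mem (H.mul_mem (h ..) (h ..)) (h ..)) (h ..))
      (h ..)) (h ..)

theorem comm_eq {F : Type} [Field F] {n : ℕ} {i j l : Fin n} (hij : i ≠ j) (hil : i ≠ l)
    (hlj : l ≠ j) (c : F) :
    transvection hij c = ⁅transvection hil c, transvection hlj (1 : F)⁆ := by
  rw [commutatorElement_def, transvection_inv, transvection_inv]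
  refine Subtype.ext ?_
  simp only [Matrix.SpecialLinearGroup.coe_mul, transvection_coe, mul_add, add_mul, mul_one, one_mul,
    single_mul_single_same, single_mul_single_of_ne, hij.symm, hil.symm, hlj.symm,
    ne_eq, not_false_eq_true, add_zero, mul_neg]
  ext p q
  simp only [Matrix.add_apply, single_apply]
  split_ifs <;> ring

theorem slPer : SlPerS := by
  intro F _ n hn H h
  refine slGen F n H fun i j hij c => ?_
  obtain ⟨l, hil, hlj⟩ : ∃ l : Fin n, i ≠ l ∧ l ≠ j := by
    obtain ⟨l, hl⟩ : ∃ l : Fin n, l ∉ ({i, j} : Finset (Fin n)) := by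
      by_contra hc
      push Not at hc
      have h1 := Finset.card_le_card (fun l _ => hc l : Finset.univ ⊆ ({i, j} : Finset (Fin n)))
      have h2 := Finset.card_le_two (a := i) (b := j)
      simp at h1
      omega
    simp only [Finset.mem_insert, Finset.mem_singleton, not_or] at hl
    exact ⟨l, Ne.symm hl.1, hl.2⟩
  have key : ∀ g : SpecialLinearGroup (Fin n) F, ∃ x ∈ H,
      ∃ z ∈ Subgroup.center (SpecialLinearGroup (Fin n) F), x * z = g := fun g => by
    have hg : g ∈ ((H ⊔ Subgroup.center _ : Subgroup _) : Set _) := by rw [h]; trivial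
    rwa [Subgroup.mul_normal] at hg
  obtain ⟨x, hx, z, hz, e1⟩ := key (transvection hil c)
  obtain ⟨y, hy, w, hw, e2⟩ := key (transvection hlj 1)
  have hz' := Subgroup.mem_center_iff.1 hz
  have hw' := Subgroup.mem_center_iff.1 hw
  have e : ⁅x * z, y * w⁆ = ⁅x, y⁆ := by
    simp only [commutatorElement_def, _root_.mul_inv_rev]
    calc x * z * (y * w) * (z⁻¹ * x⁻¹) * (w⁻¹ * y⁻¹)
        = x * (z * (y * w)) * z⁻¹ * x⁻¹ * w⁻¹ * y⁻¹ := by group
      _ = x * y * (w * x⁻¹) * w⁻¹ * y⁻¹ := by rw [← hz' (y * w)]; group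
      _ = _ := by rw [← hw' x⁻¹]; group
  rw [comm_eq hij hil hlj, ← e1, ← e2, e, commutatorElement_def]
  exact H.mul_mem (H.mul_mem (H.mul_mem hx hy) (H.inv_mem hx)) (H.inv_mem hy)

end Pool.Agent.MP_b84581_al.L
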