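import Pool.Agent.MP_b84581_al.h50.SpecC
import Pool.Agent.MP_b84581_al.h50.Sl

/-! The derived group of the general linear group is transitive on short independent tuples. -/

set_option autoImplicit false

namespace Pool.Agent.MP_b84581_al.C

open Matrix

theorem li_perf (F : Type) [Field F] {n : ℕ} (hn : 3 ≤ n) :
    commutator (SpecialLinearGroup (Fin n) F) = ⊤ := by
  refine L.slGen F n _ fun i j hij c => ?_
  obtain ⟨l, hl⟩ : ∃ l : Fin n, l ∉ ({i, j} : Finset (Fin n)) := by
    by_contra hc
    push Not at hc
    have h1 := Finset.card_le_card (fun l _ => hc l : Finset.univ ⊆ ({i, j} : Finset (Fin n)))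
    have h2 := Finset.card_le_two (a := i) (b := j)
    simp at h1
    omega
  simp only [Finset.mem_insert, Finset.mem_singleton, not_or] at hl
  rw [L.comm_eq hij (Ne.symm hl.1) hl.2]
  exact Subgroup.commutator_mem_commutator trivial trivial

theorem linS : LinS := by
  intro F _ n j hn hj a b ha hb
  obtain ⟨s, hs⟩ := L.slTr F n j hj a b ha hb
  let φ : SpecialLinearGroup (Fin n) F →* (⊤ : Subgroup ((Fin n → F) ≃ₗ[F] (Fin n → F))) :=
    SpecialLinearGroup.toLin'.codRestrict ⊤ fun _ => trivial
  have h : (commutator (SpecialLinearGroup (Fin n) F)).map φ ≤ commutator _ := by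
    rw [commutator, Subgroup.map_commutator]
    exact Subgroup.commutator_mono le_top le_top
  exact ⟨φ s, h (Subgroup.mem_map_of_mem φ (by rw [li_perf F hn]; trivial)), hs⟩

end Pool.Agent.MP_b84581_al.C
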