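import Pool.Agent.MP_b84581_al.h50.Spec

/-! Primitive prime divisors for exponents at least seven. -/

set_option autoImplicit false

namespace Pool.Agent.MP_b84581_al.L

open Polynomial Finset

namespace Zs

lemma grow {q r : ℕ} (hq : 2 ≤ q) (hr : 4 ≤ r) : r * (q + 1) + 1 < q ^ r := by
  induction r, hr using Nat.le_induction with
  | base =>
    have h := Nat.pow_le_pow_left hq 3
    rw [pow_succ]
    nlinarith
  | succ r hr ih =>
    have h := Nat.mul_le_mul_left (q ^ r) hq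
    have h' := Nat.mul_le_mul_right (q + 1) hr
    rw [pow_succ, add_mul]
    omega

lemma shape {q m r d : ℕ} (hr : r.Prime) (hq : 1 ≤ q)
    (hP : (r : ℤ) ∣ (cyclotomic m ℤ).eval (q : ℤ)) (h0 : 0 < d) (hd : d < m)
    (h : r ∣ q ^ d - 1) : ∃ a n, m = r ^ (a + 1) * n ∧ n ∣ r - 1 ∧ (q : ZMod r) ^ n = 1 := by
  have := Fact.mk hr
  obtain ⟨a, n, hn, rfl⟩ := Nat.exists_eq_pow_mul_and_not_dvd (n := m) (by omega) r hr.ne_one
  have : NeZero (n : ZMod r) := ⟨fun e => hn ((ZMod.natCast_eq_zero_iff _ _).1 e)⟩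
  have h1 : IsPrimitiveRoot (q : ZMod r) n := by
    rw [← isRoot_cyclotomic_prime_pow_mul_iff_of_charP (p := r) (k := a), IsRoot.def]
    have h2 := cyclotomic.eval_apply (q : ℤ) (r ^ a * n) (Int.castRingHom (ZMod r))
    rw [eq_intCast, eq_intCast, (ZMod.intCast_zmod_eq_zero_iff_dvd _ _).2 hP] at h2
    simpa using h2
  have h3 : (q : ZMod r) ^ d = 1 := by
    have h4 := (ZMod.natCast_eq_zero_iff _ _).2 h
    rwa [Nat.cast_sub (Nat.one_le_pow _ _ hq), Nat.cast_pow, Nat.cast_one, sub_eq_zero] at h4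
  have h5 := Nat.le_of_dvd h0 (h1.dvd_of_pow_eq_one _ h3)
  have h6 : (q : ZMod r) ≠ 0 := fun e => by simp [e, h0.ne'] at h3
  rcases a with _ | a
  · rw [pow_zero, one_mul] at hd
    omega
  · exact ⟨a, n, rfl, h1.dvd_of_pow_eq_one _ (ZMod.pow_card_sub_one_eq_one h6), h1.pow_eq_one⟩

lemma nosq {q r n : ℕ} (hr : r.Prime) (hq : 2 ≤ q) (hn : 0 < n) (h1 : (q : ZMod r) ^ n = 1)
    (h2 : r = 2 → 2 ∣ n) : ¬ (r : ℤ) ^ 2 ∣ (cyclotomic (n * r) ℤ).eval (q : ℤ) := by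
  intro h
  have h3 := eval_dvd (x := (q : ℤ)) (X_pow_sub_one_mul_cyclotomic_dvd_X_pow_sub_one_of_dvd ℤ
    (Nat.mem_properDivisors.2 ⟨dvd_mul_right n r, lt_mul_of_one_lt_right hn hr.one_lt⟩))
  simp only [eval_mul, eval_sub, eval_pow, eval_X, eval_one] at h3
  have h4 : (q : ℤ) ^ n - 1 ≠ 0 :=
    (sub_pos.2 (one_lt_pow₀ (by exact_mod_cast hq) hn.ne')).ne'
  rw [pow_mul, ← mul_geom_sum _ r, mul_dvd_mul_iff_left h4] at h3
  have h5 := h.trans h3
  rcases hr.eq_two_or_odd' with rfl | ho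
  · obtain ⟨k, rfl⟩ := h2 rfl
    rw [sum_range_succ, sum_range_one, pow_zero, pow_one, mul_comm, pow_mul] at h5
    have h6 := (ZMod.intCast_zmod_eq_zero_iff_dvd _ 4).2 (by simpa using h5)
    push_cast at h6
    exact (by decide : ∀ z : ZMod 4, 1 + z ^ 2 ≠ 0) _ h6
  · obtain ⟨b, hb⟩ := (ZMod.intCast_zmod_eq_zero_iff_dvd ((q : ℤ) ^ n - 1) r).1 (by
      push_cast
      rw [h1, sub_self])
    have h6 := odd_sq_dvd_geom_sum₂_sub (1 : ℤ) b ho
    simp only [one_pow, mul_one] at h6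
    rw [← hb, add_sub_cancel] at h6
    have h7 := Int.le_of_dvd (by exact_mod_cast hr.pos)
      ((dvd_sub h5 h6).trans (sub_sub_cancel _ _).dvd)
    have h8 : (1 : ℤ) < r := by exact_mod_cast hr.one_lt
    nlinarith

lemma big {q r n : ℕ} (hr : r.Prime) (hq : 2 ≤ q) (hn : 0 < n) (h : ¬ r ∣ n → 4 ≤ r) :
    ((cyclotomic (n * r) ℤ).eval (q : ℤ)).natAbs ≠ r := by
  intro e
  have h0 : r < q ^ r := Nat.lt_pow_self hq
  by_cases hd : r ∣ n
  · have h1 := sub_one_lt_natAbs_cyclotomic_eval (n := n) (q := q ^ r)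
      (hr.one_lt.trans_le (Nat.le_of_dvd hn hd)) (hr.one_lt.trans h0).ne'
    rw [← cyclotomic_expand_eq_cyclotomic hr hd, expand_eval] at e
    rw [Nat.cast_pow, e] at h1
    omega
  · have q1 : (1 : ℝ) < q := by exact_mod_cast hq
    have h1 := congrArg (eval (q : ℝ)) (cyclotomic_expand_eq_cyclotomic_mul hr hd ℝ)
    have h2 := sub_one_pow_totient_le_cyclotomic_eval (one_lt_pow₀ q1 hr.ne_zero) n
    have h3 := cyclotomic_eval_le_add_one_pow_totient q1 n
    have h4 := cyclotomic.eval_apply (q : ℤ) (n * r) (Int.castRingHom ℝ)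
    have h5 : (cyclotomic (n * r) ℝ).eval (q : ℝ) ≤ r := by
      rw [eq_intCast, eq_intCast, Int.cast_natCast] at h4
      rw [h4]
      exact_mod_cast Int.le_natAbs.trans_eq (congrArg Nat.cast e)
    have h6 : (r : ℝ) * (q + 1) < q ^ r - 1 := by
      rw [lt_sub_iff_add_lt]
      exact_mod_cast grow hq (h hd)
    have r1 : (1 : ℝ) ≤ r := by exact_mod_cast hr.one_lt.le
    have h7 := pow_lt_pow_left₀ h6 (by positivity) (Nat.totient_pos.2 hn).ne'
    have h8 := mul_le_mul h5 h3 (cyclotomic_nonneg n q1.le) (by positivity)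
    have h9 := mul_le_mul_of_nonneg_right (le_self_pow₀ r1 (Nat.totient_pos.2 hn).ne')
      (show (0 : ℝ) ≤ (q + 1) ^ n.totient by positivity)
    rw [expand_eval, eval_mul] at h1
    rw [mul_pow] at h7
    linarith

end Zs

open Zs in
theorem zs : ZsS := by
  intro q m hq hm
  by_contra hn
  push Not at hn
  set P := (cyclotomic m ℤ).eval (q : ℤ) with hP
  have key : ∀ r : ℕ, r.Prime → r ∣ P.natAbs →
      ∃ a n, m = r ^ (a + 1) * n ∧ n ∣ r - 1 ∧ (q : ZMod r) ^ n = 1 := fun r hr h => by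
    have h1 := Int.natCast_dvd.2 h
    have h2 := h1.trans (eval_dvd (x := (q : ℤ)) (cyclotomic.dvd_X_pow_sub_one m ℤ))
    obtain ⟨d, d0, dm, hd⟩ := hn r hr (by
      rw [← Int.natCast_dvd_natCast, Nat.cast_sub (Nat.one_le_pow _ _ (by omega))]
      simpa using h2)
    exact shape hr (by omega) h1 d0 dm hd
  have lt : ∀ r r' : ℕ, r.Prime → r'.Prime → r ∣ P.natAbs → r' ∣ P.natAbs → r' ≤ r :=
    fun r r' hr hr' h h' => by
      obtain ⟨a, n, e, hn, -⟩ := key r hr h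
      obtain ⟨a', n', e', -⟩ := key r' hr' h'
      have h1 : r' ∣ r ^ (a + 1) * n := e ▸ e' ▸ (dvd_pow_self r' a'.succ_ne_zero).mul_right n'
      rcases (hr'.dvd_mul).1 h1 with h2 | h2
      · exact Nat.le_of_dvd hr.pos (hr'.dvd_of_dvd_pow h2)
      · exact (Nat.le_of_dvd (Nat.sub_pos_of_lt hr.one_lt) (h2.trans hn)).trans (Nat.sub_le _ _)
  have h1 := sub_one_lt_natAbs_cyclotomic_eval (n := m) (q := q) (by omega) (by omega)
  obtain ⟨r, hr, N, hN⟩ := Nat.exists_prime_and_dvd (n := P.natAbs) (by omega)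
  obtain ⟨a, n, e, hn1, hn2⟩ := key r hr ⟨N, hN⟩
  have h2 := Nat.le_of_dvd (Nat.sub_pos_of_lt hr.one_lt) hn1
  have e' : m = r ^ a * n * r := by rw [e]; ring
  have h3 : 0 < r ^ a * n := Nat.pos_of_ne_zero fun h => by rw [h] at e'; omega
  have h4 : ¬ r ∣ r ^ a * n → 4 ≤ r := fun h => by
    rcases a with _ | a
    · by_contra h5
      rw [pow_zero, one_mul] at e'
      have := Nat.mul_le_mul (show n ≤ 2 by omega) (show r ≤ 3 by omega)
      omega
    · exact absurd ((dvd_pow_self r a.succ_ne_zero).mul_right n) h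
  refine big hr hq h3 h4 (e' ▸ ?_)
  by_contra h5
  obtain ⟨r', hr', k, rfl⟩ := Nat.exists_prime_and_dvd (n := N) fun h => h5 (by rw [hN, h, mul_one])
  have h6 : r' ∣ P.natAbs := hN ▸ (dvd_mul_right r' k).mul_left r
  obtain rfl := le_antisymm (lt r r' hr hr' ⟨_, hN⟩ h6) (lt r' r hr' hr h6 ⟨_, hN⟩)
  refine nosq hr hq h3 (by rw [mul_comm, pow_mul, hn2, one_pow]) (fun h => ?_) (e' ▸ ?_)
  · by_contra h7
    have := h4 (h ▸ h7)
    omega
  · rw [← Nat.cast_pow, Int.natCast_dvd, ← hP, hN]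
    exact ⟨k, by ring⟩

end Pool.Agent.MP_b84581_al.L
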