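import Pool.Agent.MP_b84581_al.h50.SpecC
import Pool.Agent.MP_b84581_al.h50.Zs

/-! Trace forms with an isometry of primitive prime order. -/

set_option autoImplicit false

namespace Pool.Agent.MP_b84581_al.C

open Module Algebra
open scoped commutatorElement

section
variable {F E : Type} [Field F] [Field E] [Algebra F E]

theorem md_ex {τ : E →+* E} (h : ∃ z, τ z ≠ z) (u : E) : ∃ β, β + u * τ β ≠ 0 := by
  by_contra hn
  push Not at hn
  obtain ⟨z, hz⟩ := h
  have h1 := hn 1
  rw [map_one] at h1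
  exact hz (by linear_combination τ z * h1 - hn z)

/-- the trace form -/
noncomputable def md_form (P : Par F) (τ : E →+* E)
    (ha : ∀ a, τ (algebraMap F E a) = algebraMap F E (P.σ a)) (β : E) : Form P E :=
  LinearMap.mk₂'ₛₗ P.σ (RingHom.id F) (fun x y => trace F E (β * τ x * y))
    (fun a b y => by rw [← map_add, map_add τ]; congr 1; ring)
    (fun c a y => by
      rw [← map_smul, Algebra.smul_def, Algebra.smul_def, map_mul τ, ha]; congr 1; ring)
    (fun a y z => by rw [← map_add, mul_add])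
    (fun c a y => by rw [RingHom.id_apply, ← map_smul, mul_smul_comm])

theorem md_core [FiniteDimensional F E] [Algebra.IsSeparable F E] (P : Par F) (τ : E →+* E)
    (φ : E ≃ₐ[F] E) (q r : ℕ) (ζ : Eˣ) (hq : 0 < q) (tt : ∀ z, τ (τ z) = z) (ne : ∃ z, τ z ≠ z)
    (ha : ∀ a, τ (algebraMap F E a) = algebraMap F E (P.σ a))
    (ht : ∀ z, trace F E (τ z) = P.σ (trace F E z)) (hφ : ∀ z, φ z = z ^ q)
    (nm : ∀ b : E, b ≠ 0 → τ b = b → ∃ c, c * τ c = b) (ho : orderOf ζ = r) (hr : r.Prime)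
    (hz : (ζ : E) * τ ζ = 1) (hc : ¬ r ∣ q - 1) :
    ∃ (f : Form P E) (x : isom f), ND f ∧ x ≠ 1 ∧ x ^ r = 1 ∧ x ∈ commutator (isom f) := by
  set ε := algebraMap F E P.ε with hε
  have e2 : ε * ε = 1 := by rw [hε, ← map_mul, P.eps, map_one]
  have eτ : τ ε = ε := by rw [hε, ha, P.seps]
  have eφ : φ ε = ε := φ.commutes _
  have em : ∀ z, P.ε * trace F E z = trace F E (ε * z) := fun z => by
    rw [← smul_eq_mul, ← map_smul, Algebra.smul_def]
  have φτ : ∀ z, τ (φ z) = φ (τ z) := fun z => by rw [hφ, hφ, map_pow]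
  obtain ⟨β, hγ⟩ := md_ex ne ε
  obtain ⟨z, hw⟩ := md_ex ne 1
  rw [one_mul] at hw
  set γ := β + ε * τ β with hγ'
  have γτ : τ γ = ε * γ := by
    rw [hγ', map_add, map_mul, tt, eτ]
    linear_combination (-τ β) * e2
  have e0 : ε ≠ 0 := left_ne_zero_of_mul_eq_one e2
  obtain ⟨c, hcc⟩ := nm (φ γ / γ) (div_ne_zero (by simpa using hγ) hγ) (by
    rw [map_div₀, φτ, γτ, map_mul, eφ, mul_div_mul_left _ _ e0])
  have c0 : c ≠ 0 := left_ne_zero_of_mul (hcc ▸ div_ne_zero (by simpa using hγ) hγ)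
  have hcγ : γ * (c * τ c) = φ γ := by rw [hcc]; field_simp
  set f := md_form P τ ha β with hf
  have fa : ∀ x y, f x y = trace F E (β * τ x * y) := fun _ _ => rfl
  have hh : ∀ x y, herm f x y = trace F E (γ * τ x * y) := fun x y => by
    rw [herm_apply, fa, fa, ← ht, em, ← map_add, map_mul, map_mul, tt]
    congr 1
    ring
  let μ : Eˣ →* E ≃ₗ[F] E := DistribMulAction.toModuleAut F E
  have μa : ∀ u y, μ u y = u * y := fun _ _ => rfl
  have mx : μ ζ ∈ isom f := ⟨fun x y => by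
      rw [hh, hh, LinearEquiv.coe_coe, μa, μa, map_mul τ]
      congr 1
      linear_combination γ * τ x * y * hz, fun x => by
      rw [fa, fa, LinearEquiv.coe_coe, μa, map_mul τ,
        show β * (τ ζ * τ x) * (ζ * x) = β * τ x * x by linear_combination β * τ x * x * hz,
        sub_self]
      exact zero_mem _⟩
  let ψ : E ≃ₗ[F] E := μ (Units.mk0 c c0) * φ.toLinearEquiv
  have ψa : ∀ y, ψ y = c * φ y := fun _ => rfl
  have mψ : ψ ∈ isom f := ⟨fun x y => by
      rw [hh, hh, LinearEquiv.coe_coe, ψa, ψa, map_mul τ, φτ,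
        ← trace_eq_of_algEquiv φ (γ * τ x * y), map_mul φ, map_mul φ, ← hcγ]
      congr 1
      ring, fun x => by
      have d : τ (β * (c * τ c) - φ β) = -(ε * (β * (c * τ c) - φ β)) := by
        have := hcγ
        rw [hγ', map_add φ, map_mul φ, eφ] at this
        rw [map_sub, map_mul, map_mul, tt, φτ]
        linear_combination ε * this - (τ β * (c * τ c) - φ (τ β)) * e2
      have := P.lo (trace F E (z / (z + τ z) * (β * (c * τ c) - φ β) * φ (τ x * x)))
      rw [← ht, em, ← map_sub, map_mul τ, map_mul τ, d, φτ, map_mul τ, tt, map_div₀, map_add τ,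
        tt] at this
      rw [fa, fa, LinearEquiv.coe_coe, ψa, map_mul τ, φτ, ← trace_eq_of_algEquiv φ (β * τ x * x),
        ← map_sub]
      refine (congrArg (fun w => trace F E w ∈ P.Λ) ?_).mp this
      simp only [map_mul φ, add_comm (τ z) z]
      field_simp
      linear_combination τ z * (β * c * τ c - φ β) * φ (τ x) * φ x * e2⟩
  set x : isom f := ⟨μ ζ, mx⟩ with hx
  have xp : ∀ n : ℕ, (x ^ n).1 = μ (ζ ^ n) := fun n => by rw [map_pow]; rfl
  refine ⟨f, x, fun y hy => ?_, fun e => ?_, Subtype.ext ?_, ?_⟩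
  · have := (traceForm_nondegenerate F E).1 (γ * τ y) fun w => (hh y w).symm.trans (hy w)
    simpa [hγ] using this
  · have : (ζ : E) * 1 = 1 := congrArg (fun g : isom f => g.1 1) e
    rw [mul_one, Units.val_eq_one] at this
    rw [this, orderOf_one] at ho
    exact hr.one_lt.ne ho
  · rw [xp, ← ho, pow_orderOf_eq_one, map_one]
    rfl
  · have k : (⟨ψ, mψ⟩ : isom f) * x = x ^ (q - 1) * x * ⟨ψ, mψ⟩ := by
      rw [← pow_succ, Nat.sub_add_cancel hq]
      refine Subtype.ext (LinearEquiv.ext fun y => ?_)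
      change c * φ (ζ * y) = (x ^ q).1 (c * φ y)
      rw [xp, μa, map_mul, hφ ζ, Units.val_pow_eq_pow_val]
      ring
    have k2 : x ^ (q - 1) ∈ commutator (isom f) := by
      have : ⁅(⟨ψ, mψ⟩ : isom f), x⁆ = x ^ (q - 1) := by
        rw [commutatorElement_def, k]
        group
      exact this ▸ Subgroup.commutator_mem_commutator (Subgroup.mem_top _) (Subgroup.mem_top _)
    obtain ⟨n, hn⟩ := exists_pow_eq_self_of_coprime (x := ζ) (n := q - 1)
      (ho ▸ ((Nat.Prime.coprime_iff_not_dvd hr).2 hc).symm)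
    have : (x ^ (q - 1)) ^ n = x := Subtype.ext (by rw [← pow_mul, xp, pow_mul, hn])
    exact this ▸ pow_mem k2 n

theorem md_norm [Finite E] {Q : ℕ} (hQ : 2 ≤ Q) (hE : Nat.card E = Q ^ 2) (b : E) (h0 : b ≠ 0)
    (hb : b ^ Q = b) : ∃ c : E, c * c ^ Q = b := by
  obtain ⟨g, hg⟩ := IsCyclic.exists_monoid_generator (α := Eˣ)
  obtain ⟨k, hk⟩ := hg (Units.mk0 b h0)
  have ho : orderOf g = (Q + 1) * (Q - 1) := by
    rw [orderOf_eq_card_of_forall_mem_powers hg, Nat.card_units, hE, ← Nat.sq_sub_sq, one_pow]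
  have hk' : (g : E) ^ k = b := by simpa using congrArg Units.val hk
  have h1 : g ^ (k * (Q - 1)) = 1 := Units.ext (by
    rw [Units.val_pow_eq_pow_val, pow_mul, hk']
    refine mul_right_cancel₀ h0 ?_
    rw [← pow_succ, Nat.sub_add_cancel (by omega), hb, Units.val_one, one_mul])
  obtain ⟨l, rfl⟩ := Nat.dvd_of_mul_dvd_mul_right (by omega) (ho ▸ orderOf_dvd_of_pow_eq_one h1)
  exact ⟨(g : E) ^ l, by rw [← hk']; ring⟩

end

theorem modS : ModS := by
  intro F _ _ P p e s t m _ _ hF hσ hm ht h2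
  have : NeZero m := ⟨by omega⟩
  have c2 : 2 ≤ Nat.card F := Finite.one_lt_card
  have s0 : 0 < s := Nat.pos_of_ne_zero fun h => by rw [h, pow_zero] at hF; omega
  have q2 : 2 ≤ p ^ e := by
    by_contra h
    have := Nat.pow_le_pow_left (show p ^ e ≤ 1 by omega) s
    rw [one_pow] at this
    omega
  have Q2 : 2 ≤ (p ^ e) ^ t := q2.trans (Nat.le_self_pow (by omega) _)
  obtain ⟨r, hr, r1, r2⟩ := L.zs (p ^ e) (2 * t) q2 (by omega)
  have := Fact.mk hr
  let E := FiniteField.Extension F p m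
  have : CharP E p := charP_of_injective_algebraMap (algebraMap F E).injective p
  have qm : Nat.card F ^ m = (p ^ e) ^ (2 * t) := by rw [hF, ← pow_mul, hm]
  have cE : Nat.card E = ((p ^ e) ^ t) ^ 2 := by
    rw [FiniteField.natCard_extension, qm, pow_mul']
  let τ := iterateFrobenius E p (e * t)
  have τa : ∀ z, τ z = z ^ (p ^ e) ^ t := fun z => by rw [← pow_mul]; rfl
  have ha : ∀ a, τ (algebraMap F E a) = algebraMap F E (P.σ a) := fun a => by
    rw [τa, hσ, map_pow]
  obtain ⟨ζ, hζ⟩ := exists_prime_orderOf_dvd_card' (G := Eˣ) r (by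
    rw [Nat.card_units, cE, ← pow_mul']; exact r1)
  have r3 := r2 t (by omega) (by omega)
  have r4 : r ∣ (p ^ e) ^ t + 1 := by
    rw [pow_mul', ← one_pow 2, Nat.sq_sub_sq] at r1
    exact (hr.dvd_mul.1 r1).resolve_right r3
  have rd : ∀ d : ℕ, 0 < d → d < m → ¬ r ∣ Nat.card F ^ d - 1 := fun d d0 d1 => by
    rw [hF, ← pow_mul]
    exact r2 _ (Nat.mul_pos s0 d0) (hm ▸ Nat.mul_lt_mul_of_pos_left d1 s0)
  obtain ⟨f, x, a1, a2, a3, a4⟩ := md_core P τ (FiniteField.Extension.frob F p m) (Nat.card F) r ζ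
    (by omega) (fun z => by
      have := Fintype.ofFinite E
      rw [τa, τa, ← pow_mul, ← sq, ← cE, Nat.card_eq_fintype_card, FiniteField.pow_card])
    ⟨ζ, fun h => r3 (hζ ▸ orderOf_dvd_of_pow_eq_one (Units.ext (by
      refine mul_right_cancel₀ ζ.ne_zero ?_
      rw [Units.val_pow_eq_pow_val, ← pow_succ, Nat.sub_add_cancel (by omega), ← τa, h,
        Units.val_one, one_mul])))⟩ ha
    (fun z => (algebraMap F E).injective (by
      rw [← ha, FiniteField.algebraMap_trace_eq_sum_pow, FiniteField.algebraMap_trace_eq_sum_pow,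
        map_sum]
      simp only [map_pow]))
    (fun _ => FiniteField.Extension.frob_apply F p m)
    (fun b b0 hb => by simpa only [τa] using md_norm Q2 cE b b0 (τa b ▸ hb)) hζ hr (by
      rw [τa, ← pow_succ', ← Units.val_pow_eq_pow_val, orderOf_dvd_iff_pow_eq_one.1 (hζ ▸ r4),
        Units.val_one])
    (by simpa using rd 1 one_pos (by omega))
  refine ⟨E, inferInstance, inferInstance, inferInstance, f, r, x,
    FiniteField.finrank_extension F p m, a1, hr, fun h => ?_, rd, a2, a3, a4⟩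
  have h1 := (CharP.cast_eq_zero_iff F p r).1 h
  have h3 : p ∣ (p ^ e) ^ (2 * t) := dvd_pow (dvd_pow_self p fun h => by
    rw [h, pow_zero] at q2; omega) (by omega)
  have h4 := (Nat.dvd_sub_iff_right (Nat.one_le_pow _ _ (by omega)) h3).1 (h1.trans r1)
  exact (Fact.out : p.Prime).one_lt.ne' (Nat.dvd_one.1 h4)

end Pool.Agent.MP_b84581_al.C
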