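import Pool.Agent.MP_b84581_al.h50.SpecC

/-! Orthogonal complements of nondegenerate subspaces. -/

set_option autoImplicit false

namespace Pool.Agent.MP_b84581_al.C

open Module

section
variable {F V : Type} [Field F] [AddCommGroup V] [Module F V] {P : Par F}

theorem pp_symm {f : Form P V} {x y : V} (h : herm f x y = 0) : herm f y x = 0 := by
  rw [herm_swap, h, map_zero, mul_zero]

theorem pp_zero {f : Form P V} {A : Submodule F V} (hA : ND (res f A)) {a : V} (ha : a ∈ A)
    (h : ∀ u ∈ A, herm f a u = 0) : a = 0 :=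
  congrArg Subtype.val (hA ⟨a, ha⟩ fun y => h y y.2)

theorem pp_dec [Finite F] [FiniteDimensional F V] {f : Form P V} {A : Submodule F V}
    (hA : ND (res f A)) (v : V) : ∃ a ∈ A, ∃ z ∈ perp f A, v = a + z := by
  have : Finite A := Module.finite_of_finite F
  have : Finite (Dual F A) := Module.finite_of_finite F
  let φ : A → Dual F A := fun a => (herm f a).domRestrict A
  have hi : Function.Injective φ := fun a b h => Subtype.ext <| sub_eq_zero.1 <|
    pp_zero hA (sub_mem a.2 b.2) fun u hu => by
      rw [map_sub, LinearMap.sub_apply, sub_eq_zero]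
      exact LinearMap.congr_fun h ⟨u, hu⟩
  have hb := hi.bijective_of_nat_card_le (by
    rw [Module.natCard_eq_pow_finrank (K := F), Module.natCard_eq_pow_finrank (K := F) (V := A),
      Subspace.dual_finrank_eq])
  obtain ⟨a, ha⟩ := hb.2 ((herm f v).domRestrict A)
  refine ⟨a, a.2, v - a, fun u hu => pp_symm ?_, by abel⟩
  rw [map_sub, LinearMap.sub_apply, sub_eq_zero]
  exact (LinearMap.congr_fun ha ⟨u, hu⟩).symm

end

theorem perpS : PerpS := by
  intro F V _ _ _ _ _ P f A hf hA
  have key : ∀ z ∈ perp f A, (∀ u ∈ perp f A, herm f z u = 0) → z = 0 := by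
    intro z hz h
    refine hf z fun y => ?_
    obtain ⟨a, ha, w, hw, rfl⟩ := pp_dec hA y
    rw [map_add, pp_symm (hz a ha), h w hw, add_zero]
  refine ⟨⟨?_, ?_⟩, fun z h => Subtype.ext (key z z.2 fun u hu => h ⟨u, hu⟩), le_antisymm ?_ ?_⟩
  · exact Submodule.disjoint_def.2 fun a ha h => pp_zero hA ha fun u hu => pp_symm (h u hu)
  · refine codisjoint_iff_le_sup.2 fun v _ => ?_
    obtain ⟨a, ha, z, hz, rfl⟩ := pp_dec hA v
    exact Submodule.add_mem_sup ha hz
  · intro v hv
    obtain ⟨a, ha, z, hz, rfl⟩ := pp_dec hA v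
    have : z = 0 := key z hz fun u hu => pp_symm <| by
      have h := hv u hu
      rwa [map_add, pp_symm (hu a ha), zero_add] at h
    rwa [this, add_zero]
  · exact fun a ha u hu => pp_symm (hu a ha)

end Pool.Agent.MP_b84581_al.C
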