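import Pool.Agent.MP_b84581_al.h50.SpecC

/-! The usual forms as forms with a parameter. -/

set_option autoImplicit false

namespace Pool.Agent.MP_b84581_al.C

open Module

section
variable {F V : Type} [Field F] [AddCommGroup V] [Module F V]

theorem tr_mem {P : Par F} (f : Form P V) {H : V → V → F} (e : ∀ x y, herm f x y = H x y)
    (g : V ≃ₗ[F] V) : g ∈ isom f ↔
    (∀ x y, H (g x) (g y) = H x y) ∧ ∀ x, f (g x) (g x) - f x x ∈ P.Λ := by
  simp only [← e]
  exact Iff.rfl

theorem tr_alt [FiniteDimensional F V] (B : LinearMap.BilinForm F V) (hB : B.IsAlt) :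
    ∃ f : LinearMap.BilinForm F V, ∀ x y, f x y - f y x = B x y := by
  let b := Module.finBasis F V
  let f : LinearMap.BilinForm F V :=
    b.constr F fun i => b.constr F fun j => if i < j then B (b i) (b j) else 0
  have h : f - f.flip = B := by
    refine LinearMap.ext_basis b b fun i j => ?_
    change f (b i) (b j) - f (b j) (b i) = _
    simp only [f, Basis.constr_basis]
    rcases lt_trichotomy i j with h | h | h
    · rw [if_pos h, if_neg h.asymm, sub_zero]
    · rw [h, sub_self, hB.self_eq_zero]
    · rw [if_neg h.asymm, if_pos h, zero_sub, hB.neg_eq]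
  exact ⟨f, fun x y => LinearMap.congr_fun₂ h x y⟩

theorem tr_half (σ : F →+* F) (h : ∀ a, σ (σ a) = a) (hσ : σ ≠ RingHom.id F) :
    ∃ c, c + σ c = 1 := by
  have : ∃ a, a + σ a ≠ 0 := by
    by_contra hn
    push Not at hn
    refine hσ (RingHom.ext fun a => ?_)
    have h1 := hn 1
    rw [map_one] at h1
    change σ a = a
    linear_combination hn a - a * h1
  obtain ⟨a, ha⟩ := this
  refine ⟨a / (a + σ a), ?_⟩
  rw [map_div₀, map_add, h, add_comm (σ a) a, ← add_div, div_self ha]

end

theorem trS : TrS := by
  intro F V _ _ _ _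
  refine ⟨fun B hB hN => ?_, fun Q hN => ?_, fun σ h B hσ hB hN => ?_⟩
  · obtain ⟨f, hf⟩ := tr_alt B hB
    have e : ∀ x y, herm (P := pSp F) f x y = B x y := fun x y => by
      rw [← hf]
      change f x y + -1 * f y x = _
      ring
    refine ⟨f, fun x hx => hN.1 x fun y => (e x y).symm.trans (hx y),
      fun g => (tr_mem _ e g).trans ?_⟩
    exact ⟨fun H => H.1, fun H => ⟨H, fun _ => trivial⟩⟩
  · let f : LinearMap.BilinForm F V := Q.toBilin (Module.finBasis F V)
    have hf : LinearMap.BilinMap.toQuadraticMap f = Q := Q.toQuadraticMap_toBilin _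
    have e1 : ∀ x, f x x = Q x := fun x => by rw [← hf]; rfl
    have e : ∀ x y, herm (P := pO F) f x y = QuadraticMap.polar Q x y := fun x y => by
      rw [← hf, LinearMap.BilinMap.polar_toQuadraticMap]
      change f x y + 1 * f y x = _
      ring
    refine ⟨f, fun x hx => hN.1 x fun y => (e x y).symm.trans (hx y),
      fun g => (tr_mem _ e g).trans ?_⟩
    constructor
    · intro H x
      have h1 : f (g x) (g x) - f x x = 0 := H.2 x
      rwa [e1, e1, sub_eq_zero] at h1
    · refine fun H => ⟨fun x y => ?_, fun x => ?_⟩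
      · rw [QuadraticMap.polar, QuadraticMap.polar, ← map_add g, H, H, H]
      · change f (g x) (g x) - f x x = 0
        rw [e1, e1, H, sub_self]
  · obtain ⟨c, hc⟩ := tr_half σ h hσ
    have e : ∀ x y, herm (P := pU σ h) (c • B) x y = B x y := fun x y => by
      change c * B x y + 1 * σ (c * B y x) = _
      rw [map_mul, hB x y, h]
      linear_combination (B x y) * hc
    refine ⟨c • B, fun x hx => hN.1 x fun y => (e x y).symm.trans (hx y),
      fun g => (tr_mem _ e g).trans ?_⟩
    refine ⟨fun H => H.1, fun H => ⟨H, fun x => ?_⟩⟩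
    change c * B (g x) (g x) - c * B x x ∈ (pU σ h).Λ
    rw [H, sub_self]
    exact zero_mem _

end Pool.Agent.MP_b84581_al.C
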