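import Pool.Agent.MP_b84581_al.h50.SpecC

/-! Singular vectors in dimension three, symplectic and orthogonal case. -/

set_option autoImplicit false

namespace Pool.Agent.MP_b84581_al.C

open Module MvPolynomial

theorem un_quad {F : Type} [Field F] [Finite F] (a : Fin 3 → Fin 3 → F) :
    ∃ x : Fin 3 → F, x ≠ 0 ∧ ∑ i, ∑ j, a i j * x i * x j = 0 := by
  classical
  obtain ⟨p, hc⟩ := CharP.exists F
  have := Fintype.ofFinite F
  have hp : p.Prime := CharP.char_is_prime F p
  have hd : (∑ i, ∑ j, C (a i j) * X i * X j : MvPolynomial (Fin 3) F).totalDegree <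
      Fintype.card (Fin 3) := by
    refine lt_of_le_of_lt (totalDegree_finsetSum_le fun i _ =>
      totalDegree_finsetSum_le (d := 2) fun j _ => ?_) (by simp)
    refine (totalDegree_mul _ _).trans ?_
    have := totalDegree_mul (C (a i j) : MvPolynomial (Fin 3) F) (X i)
    rw [totalDegree_C, totalDegree_X] at this
    rw [totalDegree_X]
    omega
  have h := char_dvd_card_solutions p hd
  by_contra hn
  push Not at hn
  rw [Fintype.card_eq_one_iff.2 ⟨⟨0, by simp⟩, fun y => Subtype.ext (by
    by_contra h0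
    exact hn y.1 h0 (by simpa using y.2))⟩] at h
  exact hp.one_lt.ne' (Nat.dvd_one.1 h)

theorem uniS : UniS := by
  intro F _ _
  refine ⟨fun V _ _ _ f h => ?_, fun V _ _ _ f h => ?_⟩
  · have : Nontrivial V := Module.nontrivial_of_finrank_pos (R := F) (by omega)
    obtain ⟨v, hv⟩ := exists_ne (0 : V)
    exact ⟨v, hv, trivial⟩
  · obtain ⟨v, hv⟩ := exists_linearIndependent_of_le_finrank h
    obtain ⟨x, x0, hx⟩ := un_quad fun i j => f (v i) (v j)
    refine ⟨∑ i, x i • v i, fun e => x0 (funext (Fintype.linearIndependent_iff.1 hv x e)), ?_⟩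
    change _ ∈ (⊥ : AddSubgroup F)
    rw [AddSubgroup.mem_bot, ← hx, map_sum f, LinearMap.sum_apply]
    refine Finset.sum_congr rfl fun i _ => ?_
    rw [map_sum]
    refine Finset.sum_congr rfl fun j _ => ?_
    rw [LinearMap.map_smulₛₗ f, map_smul, LinearMap.smul_apply, smul_eq_mul, smul_eq_mul]
    change x j * (x i * _) = _
    ring

end Pool.Agent.MP_b84581_al.C
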