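import Pool.Agent.MP_b84581_al.h50.SpecA

/-! Row Comb: words with substitution operators vanish in small dimension. -/

set_option autoImplicit false

namespace Pool.Agent.MP_b84581_al.O

open Module

namespace Comb

theorem avoid {κ α : Type} [Fintype κ] [DecidableEq κ] [Fintype α] {c : ℕ} (w : Fin c → κ)
    (h : Fintype.card α + c ≤ Fintype.card κ) : ∃ b : α ↪ κ, ∀ s t, w t ≠ b s := by
  have h1 : (Finset.univ.image w).card ≤ c := Finset.card_image_le.trans (by simp)
  obtain ⟨b, hb⟩ := Function.Embedding.exists_of_card_le_finset (α := α)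
    (s := (Finset.univ.image w)ᶜ) (by rw [Finset.card_compl]; omega)
  exact ⟨b, fun s t e => by simpa [← e] using hb ⟨s, rfl⟩⟩

theorem key {K Q κ : Type} [Field K] [AddCommGroup Q] [Module K Q] [DecidableEq κ] {c : ℕ}
    (W : (Fin c → κ) → Q) (D : κ → κ → End K Q)
    (h0 : ∀ a b w, a ≠ b → (∀ t, w t ≠ a) → D a b (W w) = 0)
    (h1 : ∀ a b w t, a ≠ b → w t = a → (∀ s, s ≠ t → w s ≠ a) →
      D a b (W w) = W (Function.update w t b))
    (u v : Fin c → κ) (hv : ∀ s t, v t ≠ u s) (T : Finset (Fin c)) :
    ∃ Φ : End K Q, ∀ x : Fin c → κ, (∀ t r, x t = u r → t = r) →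
      Φ (W x) = if ∀ t ∈ T, x t = u t then W (T.piecewise v x) else 0 := by
  induction T using Finset.induction_on with
  | empty => exact ⟨1, fun x _ => by simp⟩
  | insert s T hs ih =>
    obtain ⟨Φ, hΦ⟩ := ih
    refine ⟨D (u s) (v s) * Φ, fun x hx => ?_⟩
    have h2 : ∀ t, t ≠ s → T.piecewise v x t ≠ u s := fun t ht => by
      by_cases e : t ∈ T
      · rw [T.piecewise_eq_of_mem _ _ e]
        exact hv s t
      · rw [T.piecewise_eq_of_notMem _ _ e]
        exact fun e' => ht (hx t s e')
    have h3 : T.piecewise v x s = x s := T.piecewise_eq_of_notMem _ _ hs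
    rw [End.mul_apply, hΦ x hx]
    simp only [Finset.forall_mem_insert]
    by_cases e : ∀ t ∈ T, x t = u t
    · rw [if_pos e]
      by_cases e' : x s = u s
      · rw [if_pos ⟨e', e⟩, h1 _ _ _ s (hv s s).symm (h3.trans e') h2, Finset.piecewise_insert]
      · rw [if_neg fun h => e' h.1]
        refine h0 _ _ _ (hv s s).symm fun t => ?_
        by_cases ht : t = s
        · rw [ht, h3]
          exact e'
        · exact h2 t ht
    · rw [if_neg e, if_neg fun h => e h.2, map_zero]

end Comb

theorem comb : CombS := by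
  intro K Q κ _ _ _ _ _ _ c W D hc hd h0 h1 w
  by_contra hw
  obtain ⟨b, hb⟩ := Comb.avoid (α := Fin c) w (by rw [Fintype.card_fin]; omega)
  obtain ⟨a, ha⟩ := Comb.avoid (α := Fin c × Bool) b (by simp; omega)
  have hb0 : W b ≠ 0 := fun e => by
    obtain ⟨Φ, hΦ⟩ := Comb.key W D h0 h1 b w hb Finset.univ
    have h2 := hΦ b fun t r e => b.injective e
    rw [e, map_zero, if_pos fun _ _ => rfl, Finset.piecewise_univ] at h2
    exact hw h2.symm
  have li : LinearIndependent K fun ε : Fin c → Bool => W fun t => a (t, ε t) := by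
    refine Fintype.linearIndependent_iff.2 fun g hg ε => ?_
    obtain ⟨Φ, hΦ⟩ := Comb.key W D h0 h1 (fun t => a (t, ε t)) b (fun s t => ha _ t) Finset.univ
    have h2 := congrArg Φ hg
    rw [map_sum, map_zero, Finset.sum_eq_single ε (fun δ _ hδ => ?_) (by simp), map_smul,
      hΦ _ fun t r e => congrArg Prod.fst (a.injective e), if_pos fun _ _ => rfl,
      Finset.piecewise_univ] at h2
    · exact (smul_eq_zero.1 h2).resolve_right hb0
    · rw [map_smul, hΦ _ fun t r e => congrArg Prod.fst (a.injective e), if_neg, smul_zero]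
      exact fun h => hδ (funext fun t => congrArg Prod.snd (a.injective (h t (Finset.mem_univ t))))
  have h3 := li.fintype_card_le_finrank
  simp only [Fintype.card_fun, Fintype.card_bool, Fintype.card_fin] at h3
  omega

end Pool.Agent.MP_b84581_al.O
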