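import Pool.Agent.MP_b84581_al.h50.SpecA

/-! Every stable letter doubles the dimension. -/

set_option autoImplicit false

namespace Pool.Agent.MP_b84581_al.O

open Module Polynomial

namespace Dbl

variable {K V : Type} [Field K] [IsAlgClosed K] [AddCommGroup V] [Module K V]
  [FiniteDimensional K V]

theorem step {C A T : End K V} {N : ℕ} (hN : (N : K) ≠ 0) (hA : A ^ N = 1) (cm : Commute C A)
    (inj : Function.Injective T) (rel : C * A * T = T * A) {U : Submodule K V}
    (uA : ∀ x ∈ U, A x ∈ U) (uT : ∀ x ∈ U, T x ∈ U) (h : ∃ x ∈ U, C x ≠ x) :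
    ∃ b b', b ≠ b' ∧ (∃ x ∈ U ⊓ A.eigenspace b, C x ≠ x) ∧ ∃ x ∈ U ⊓ A.eigenspace b', C x ≠ x := by
  have N0 : N ≠ 0 := fun e => hN (by rw [e, Nat.cast_zero])
  have ss : A.IsSemisimple :=
    End.isSemisimple_of_squarefree_aeval_eq_zero (p := X ^ N - Polynomial.C 1)
      (separable_X_pow_sub_C 1 hN one_ne_zero).squarefree (by simp [hA])
  have dec : U = ⨆ μ, U ⊓ A.eigenspace μ :=
    Submodule.eq_iSup_inf_genEigenspace 1 uA ss.iSup_eigenspace_eq_top
  have cm' : ∀ x, C (A x) = A (C x) := fun x => LinearMap.congr_fun cm.eq x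
  let F : Submodule K V := LinearMap.eqLocus C LinearMap.id
  have hF : ∀ x, x ∈ F ↔ C x = x := fun x => Iff.rfl
  obtain ⟨b₀, hb₀⟩ : ∃ b, ∃ x ∈ U ⊓ A.eigenspace b, C x ≠ x := by
    by_contra hc
    push Not at hc
    obtain ⟨x, hx, hne⟩ := h
    have : U ≤ F := dec.le.trans (iSup_le fun b y hy => (hF y).2 (hc b y hy))
    exact hne (this hx)
  by_contra hc
  have oth : ∀ b, b ≠ b₀ → ∀ x ∈ U ⊓ A.eigenspace b, C x = x := fun b hb x hx => by
    by_contra hne
    exact hc ⟨b, b₀, hb, ⟨x, hx, hne⟩, hb₀⟩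
  have rng : U ≤ F.comap (A - b₀ • (1 : End K V)) := by
    refine dec.le.trans (iSup_le fun b y hy => ?_)
    have e : (A - b₀ • (1 : End K V)) y = (b - b₀) • y := by
      rw [LinearMap.sub_apply, End.mem_eigenspace_iff.1 hy.2, sub_smul]
      rfl
    rw [Submodule.mem_comap, e]
    by_cases hb : b = b₀
    · rw [hb, sub_self, zero_smul]
      exact F.zero_mem
    · exact F.smul_mem _ (oth b hb y hy)
  have E1 : ∀ x ∈ U, C (A x) = b₀ • x → x ∈ (U ⊓ A.eigenspace b₀) ⊓ F := by
    intro x hx e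
    have h1 : C (A x - b₀ • x) = A x - b₀ • x := rng hx
    have h2 : A (A x - b₀ • x) = b₀ • (A x - b₀ • x) := by
      calc A (A x - b₀ • x) = A (C (A x - b₀ • x)) := by rw [h1]
        _ = A (C (A x)) - b₀ • C (A x) := by rw [map_sub, map_sub, map_smul, map_smul, ← cm' x]
        _ = b₀ • (A x - b₀ • x) := by rw [e, map_smul, smul_sub]
    have h3 : x ∈ A.eigenspace b₀ := by
      rw [← ss.isFinitelySemisimple.genEigenspace_eq_eigenspace b₀ (k := (2 : ℕ)) (by simp),
        End.mem_genEigenspace_nat, LinearMap.mem_ker, pow_two, End.mul_apply]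
      exact sub_eq_zero.2 h2
    refine ⟨⟨hx, h3⟩, ?_⟩
    have h4 := End.mem_eigenspace_iff.1 h3
    by_cases h0 : b₀ = 0
    · have h5 : x = 0 := by
        obtain ⟨n, rfl⟩ := Nat.exists_eq_succ_of_ne_zero N0
        have h6 := LinearMap.congr_fun hA x
        rw [pow_succ, End.mul_apply, h4, h0, zero_smul, map_zero] at h6
        exact h6.symm
      rw [h5]
      exact F.zero_mem
    · rw [h4, map_smul] at e
      exact smul_right_injective V h0 e
  have hm : (U ⊓ A.eigenspace b₀).map T ≤ (U ⊓ A.eigenspace b₀) ⊓ F := by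
    rintro _ ⟨x, hx, rfl⟩
    refine E1 _ (uT x hx.1) ?_
    have h1 : C (A (T x)) = T (A x) := LinearMap.congr_fun rel x
    rw [h1, End.mem_eigenspace_iff.1 hx.2, map_smul]
  have h2 : (U ⊓ A.eigenspace b₀) ⊓ F = U ⊓ A.eigenspace b₀ :=
    Submodule.eq_of_le_of_finrank_le inf_le_left
      ((Submodule.equivMapOfInjective T inj _).finrank_eq.le.trans (Submodule.finrank_mono hm))
  obtain ⟨x, hx, hne⟩ := hb₀
  rw [← h2] at hx
  exact hne hx.2

omit [IsAlgClosed K] [FiniteDimensional K V] in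
theorem inv {A S : End K V} (cm : Commute S A) {U : Submodule K V} (uS : ∀ x ∈ U, S x ∈ U)
    (b : K) : ∀ x ∈ U ⊓ A.eigenspace b, S x ∈ U ⊓ A.eigenspace b := fun x hx =>
  ⟨uS x hx.1, End.mem_eigenspace_iff.2 (by
    have h1 : S (A x) = A (S x) := LinearMap.congr_fun cm.eq x
    rw [← h1, End.mem_eigenspace_iff.1 hx.2, map_smul])⟩

end Dbl

theorem dbl : DblS := by
  intro K V ι _ _ _ _ _ C A T N I hN _ hA cA AA TA inj rel hC
  classical
  have key : ∀ U : Submodule K V, (∀ l, ∀ x ∈ U, A l x ∈ U) → (∀ l ∈ I, ∀ x ∈ U, T l x ∈ U) →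
      (∃ x ∈ U, C x ≠ x) → 2 ^ I.card ≤ finrank K U := by
    induction I using Finset.induction_on with
    | empty =>
      rintro U - - ⟨x, hx, hne⟩
      rw [Finset.card_empty, pow_zero, Submodule.one_le_finrank_iff]
      rintro rfl
      rw [Submodule.mem_bot] at hx
      exact hne (by rw [hx, map_zero])
    | insert m I hm ih =>
      intro U uA uT h
      obtain ⟨b, b', hb, h1, h2⟩ := Dbl.step hN (hA m) (cA m) (inj m) (rel m) (uA m)
        (uT m (Finset.mem_insert_self _ _)) h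
      have k : ∀ c, (∃ x ∈ U ⊓ (A m).eigenspace c, C x ≠ x) →
          2 ^ I.card ≤ finrank K (U ⊓ (A m).eigenspace c : Submodule K V) := fun c hc =>
        ih _ (fun l => Dbl.inv (AA l m) (uA l) c)
          (fun l hl => Dbl.inv (TA l m fun e => hm (e ▸ hl))
            (uT l (Finset.mem_insert_of_mem hl)) c) hc
      have d : (U ⊓ (A m).eigenspace b) ⊓ (U ⊓ (A m).eigenspace b') = ⊥ :=
        disjoint_iff.1 (((End.eigenspaces_iSupIndep (A m)).pairwiseDisjoint hb).mono
          inf_le_right inf_le_right)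
      have e := Submodule.finrank_sup_add_finrank_inf_eq (U ⊓ (A m).eigenspace b)
        (U ⊓ (A m).eigenspace b')
      rw [d, finrank_bot, add_zero] at e
      have le := Submodule.finrank_mono
        (sup_le inf_le_left inf_le_left : (U ⊓ (A m).eigenspace b) ⊔ (U ⊓ (A m).eigenspace b') ≤ U)
      have k1 := k b h1
      have k2 := k b' h2
      rw [Finset.card_insert_of_notMem hm, pow_succ]
      omega
  rw [← finrank_top]
  refine key ⊤ (fun _ _ _ => trivial) (fun _ _ _ _ => trivial) ?_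
  by_contra hc
  push Not at hc
  exact hC (LinearMap.ext fun x => hc x trivial)

end Pool.Agent.MP_b84581_al.O
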