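import Pool.Agent.MP_b84581_al.h50.SpecA

/-! The powers of the augmentation ideal are stationary from the exponent c on. -/

set_option autoImplicit false

namespace Pool.Agent.MP_b84581_al.O

open Module

section
variable {K R : Type} [Field K] [Ring R] [Algebra K R]

theorem fil_pow_mono {A B : Submodule K R} (h : B ≤ A) (n : ℕ) : B ^ n ≤ A ^ n := by
  induction n with
  | zero => simp
  | succ n ih => rw [pow_succ, pow_succ]; exact mul_le_mul' ih h

theorem fil_prod_mem (A : Submodule K R) : ∀ (c : ℕ) (u : Fin c → R), (∀ t, u t ∈ A) →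
    (List.ofFn u).prod ∈ A ^ c := by
  intro c
  induction c with
  | zero => intro u _; simpa using Submodule.one_le.mp (le_refl (1 : Submodule K R))
  | succ c ih =>
    intro u hu
    rw [List.ofFn_succ, List.prod_cons, pow_succ']
    exact Submodule.mul_mem_mul (hu 0) (ih _ fun t => hu _)

theorem fil_prod_sub (A : Submodule K R) : ∀ (c : ℕ) (u v : Fin c → R), (∀ t, u t ∈ A) →
    (∀ t, v t ∈ A) → (∀ t, u t - v t ∈ A * A) →
    (List.ofFn u).prod - (List.ofFn v).prod ∈ A ^ (c + 1) := by
  intro c
  induction c with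
  | zero => intro u v _ _ _; simp
  | succ c ih =>
    intro u v hu hv huv
    rw [List.ofFn_succ, List.ofFn_succ, List.prod_cons, List.prod_cons]
    have e : u 0 * (List.ofFn fun i : Fin c => u i.succ).prod -
        v 0 * (List.ofFn fun i : Fin c => v i.succ).prod =
        (u 0 - v 0) * (List.ofFn fun i : Fin c => v i.succ).prod +
        u 0 * ((List.ofFn fun i : Fin c => u i.succ).prod -
          (List.ofFn fun i : Fin c => v i.succ).prod) := by noncomm_ring
    rw [e]
    refine add_mem ?_ ?_
    · have h := Submodule.mul_mem_mul (huv 0) (fil_prod_mem A c _ fun t => hv t.succ)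
      rwa [mul_assoc, ← pow_succ', ← pow_succ'] at h
    · have h := Submodule.mul_mem_mul (hu 0)
        (ih _ _ (fun t => hu t.succ) (fun t => hv t.succ) fun t => huv t.succ)
      rwa [← pow_succ'] at h

theorem fil_pow_le {A I : Submodule K R} (hI : I ≤ A) (h : A ≤ I ⊔ A * A) (n : ℕ) :
    A ^ n ≤ I ^ n ⊔ A ^ (n + 1) := by
  induction n with
  | zero => simp
  | succ n ih =>
    calc A ^ (n + 1) = A ^ n * A := pow_succ _ _
      _ ≤ (I ^ n ⊔ A ^ (n + 1)) * A := mul_le_mul' ih le_rfl
      _ = I ^ n * A ⊔ A ^ (n + 1) * A := Submodule.sup_mul _ _ _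
      _ ≤ _ := by
        refine sup_le ?_ ?_
        · calc I ^ n * A ≤ I ^ n * (I ⊔ A * A) := mul_le_mul' le_rfl h
            _ = I ^ n * I ⊔ I ^ n * (A * A) := Submodule.mul_sup _ _ _
            _ ≤ _ := by
              refine sup_le_sup (le_of_eq (pow_succ _ _).symm) ?_
              rw [pow_succ, pow_succ, mul_assoc]
              exact mul_le_mul' (fil_pow_mono hI n) le_rfl
        · rw [← pow_succ]; exact le_sup_right

/-- conjugation by the image of a group element -/
def filConj (K : Type) {R G : Type} [Field K] [Ring R] [Algebra K R] [Group G] (π : G →* R)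
    (φ : G) : R →ₐ[K] R where
  toFun x := π φ * x * π φ⁻¹
  map_one' := by rw [mul_one, ← map_mul, mul_inv_cancel, map_one]
  map_mul' x y := by
    have h : π φ⁻¹ * π φ = 1 := by rw [← map_mul, inv_mul_cancel, map_one]
    calc π φ * (x * y) * π φ⁻¹ = π φ * x * (π φ⁻¹ * π φ) * y * π φ⁻¹ := by
          rw [h]; noncomm_ring
      _ = _ := by noncomm_ring
  map_zero' := by simp
  map_add' x y := by noncomm_ring
  commutes' r := by
    rw [← Algebra.commutes, mul_assoc, ← map_mul, mul_inv_cancel, map_one, mul_one]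

theorem filConj_conj {F : Type} [Group F] (π : MulAut F →* R) (φ : MulAut F) (g : F) :
    filConj K π φ (π (MulAut.conj g) - 1) = π (MulAut.conj (φ g)) - 1 := by
  rw [map_sub, map_one]
  congr 1
  show π φ * π (MulAut.conj g) * π φ⁻¹ = _
  rw [← map_mul, ← map_mul]
  congr 1
  ext x
  simp

theorem fil_mem_aug {ι : Type} (π : MulAut (FreeGroup ι) →* R) (J : Finset ι) {g : FreeGroup ι}
    (hg : g ∈ Subgroup.closure (FreeGroup.of '' (J : Set ι))) :
    π (MulAut.conj g) - 1 ∈ aug K π J := Submodule.subset_span ⟨g, hg, rfl⟩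

theorem fil_aug_le {ι : Type} (π : MulAut (FreeGroup ι) →* R) (J : Finset ι) :
    aug K π J ≤ Submodule.span K (Set.range fun j : J => π (MulAut.conj (FreeGroup.of j.1)) - 1)
      ⊔ aug K π J * aug K π J := by
  refine Submodule.span_le.2 ?_
  rintro x ⟨g, hg, rfl⟩
  induction hg using Subgroup.closure_induction with
  | mem y hy =>
    obtain ⟨l, hl, rfl⟩ := hy
    exact Submodule.mem_sup_left (Submodule.subset_span ⟨⟨l, hl⟩, rfl⟩)
  | one => simp
  | mul y z hy hz iy iz =>
    have e : π (MulAut.conj (y * z)) - 1 = (π (MulAut.conj y) - 1) + (π (MulAut.conj z) - 1) +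
        (π (MulAut.conj y) - 1) * (π (MulAut.conj z) - 1) := by
      rw [map_mul, map_mul]; noncomm_ring
    rw [e]
    exact add_mem (add_mem iy iz) (Submodule.mem_sup_right
      (Submodule.mul_mem_mul (fil_mem_aug π J hy) (fil_mem_aug π J hz)))
  | inv y hy iy =>
    have h1 : π (MulAut.conj y) * π (MulAut.conj y⁻¹) = 1 := by
      rw [← map_mul, ← map_mul, mul_inv_cancel, map_one, map_one]
    have e : π (MulAut.conj y⁻¹) - 1 = -(π (MulAut.conj y) - 1) -
        (π (MulAut.conj y) - 1) * (π (MulAut.conj y⁻¹) - 1) := by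
      rw [sub_mul, mul_sub, h1]; noncomm_ring
    rw [e]
    exact sub_mem (neg_mem iy) (Submodule.mem_sup_right
      (Submodule.mul_mem_mul (fil_mem_aug π J hy) (fil_mem_aug π J (inv_mem hy))))

theorem fil_subst {ι : Type} [DecidableEq ι] (π : MulAut (FreeGroup ι) →* R) (J : Finset ι)
    (a b : J) (hab : a ≠ b) :
    ∃ γ : R →ₐ[K] R, (∀ x ∈ aug K π J, γ x ∈ aug K π J) ∧
      γ (π (MulAut.conj (FreeGroup.of a.1)) - 1) =
        π (MulAut.conj (FreeGroup.of a.1 * FreeGroup.of b.1)) - 1 ∧
      ∀ l : J, l ≠ a → γ (π (MulAut.conj (FreeGroup.of l.1)) - 1) =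
        π (MulAut.conj (FreeGroup.of l.1)) - 1 := by
  have hm : ∀ l : ι, l ≠ a.1 →
      FreeGroup.of l ∈ Subgroup.closure (FreeGroup.of '' {l | l ≠ a.1}) :=
    fun l hl => Subgroup.subset_closure ⟨l, hl, rfl⟩
  obtain ⟨φ, h1, h2⟩ := exists_nl a.1 (hm b.1 fun h => hab (Subtype.ext h).symm)
  have hJ : ∀ l : ι, l ∈ J → FreeGroup.of l ∈ Subgroup.closure (FreeGroup.of '' (J : Set ι)) :=
    fun l hl => Subgroup.subset_closure ⟨l, hl, rfl⟩
  have h3 : ∀ g ∈ Subgroup.closure (FreeGroup.of '' (J : Set ι)),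
      φ g ∈ Subgroup.closure (FreeGroup.of '' (J : Set ι)) := by
    intro g hg
    induction hg using Subgroup.closure_induction with
    | mem y hy =>
      obtain ⟨l, hl, rfl⟩ := hy
      by_cases h : l = a.1
      · rw [h, h1]; exact mul_mem (hJ _ a.2) (hJ _ b.2)
      · rw [h2 _ (hm l h)]; exact hJ _ hl
    | one => simp
    | mul y z _ _ iy iz => rw [map_mul]; exact mul_mem iy iz
    | inv y _ iy => rw [map_inv]; exact inv_mem iy
  refine ⟨filConj K π φ, ?_, by rw [filConj_conj, h1], fun l hl => ?_⟩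
  · intro x hx
    have : aug K π J ≤ (aug K π J).comap (filConj K π φ).toLinearMap := by
      refine Submodule.span_le.2 ?_
      rintro x ⟨g, hg, rfl⟩
      show filConj K π φ _ ∈ aug K π J
      rw [filConj_conj]
      exact fil_mem_aug π J (h3 g hg)
    exact this hx
  · rw [filConj_conj, h2 _ (hm l.1 fun h => hl (Subtype.ext h))]

end

theorem fil : FilR := by
  intro comb K R ι _ _ _ _ _ π J c hc hd
  set A := aug K π J with hA
  let X : J → R := fun j => π (MulAut.conj (FreeGroup.of j.1)) - 1
  have hX : ∀ j, X j ∈ A := fun j =>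
    fil_mem_aug π J (Subgroup.subset_closure ⟨j.1, j.2, rfl⟩)
  have hD : ∀ a b : J, ∃ D : End K (R ⧸ A ^ (c + 1)), a ≠ b → ∃ γ : R →ₐ[K] R,
      (∀ x ∈ A, γ x ∈ A) ∧ γ (X a) = X a + X b + X a * X b ∧ (∀ l, l ≠ a → γ (X l) = X l) ∧
      ∀ x, D ((A ^ (c + 1)).mkQ x) = (A ^ (c + 1)).mkQ (γ x - x) := by
    intro a b
    by_cases hab : a = b
    · exact ⟨0, fun h => absurd hab h⟩
    obtain ⟨γ, g1, g2, g3⟩ := fil_subst (K := K) π J a b hab
    have hle : A ^ (c + 1) ≤ (A ^ (c + 1)).comap γ.toLinearMap := by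
      rw [← Submodule.map_le_iff_le_comap, Submodule.map_pow]
      refine fil_pow_mono ?_ _
      rintro _ ⟨x, hx, rfl⟩
      exact g1 x hx
    refine ⟨Submodule.mapQ _ _ γ.toLinearMap hle - 1, fun _ => ⟨γ, g1, ?_, g3, fun x => ?_⟩⟩
    · simp only [X]
      rw [g2, map_mul, map_mul]; noncomm_ring
    · simp
  choose D hD using hD
  have hW := comb K (R ⧸ A ^ (c + 1)) J c
    (fun w => (A ^ (c + 1)).mkQ (List.ofFn fun t => X (w t)).prod) D
    (by rwa [Fintype.card_coe]) (lt_of_le_of_lt (Submodule.finrank_quotient_le _) hd) ?_ ?_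
  · refine le_trans (fil_pow_le (I := Submodule.span K (Set.range X)) ?_ (fil_aug_le π J) c)
      (sup_le ?_ le_rfl)
    · exact Submodule.span_le.2 (by rintro _ ⟨j, rfl⟩; exact hX j)
    · rw [Submodule.span_pow]
      refine Submodule.span_le.2 fun x hx => ?_
      obtain ⟨f, rfl⟩ := Set.mem_pow.1 hx
      choose w hw using fun t => (f t).2
      have h := hW w
      simp only [hw] at h
      exact (Submodule.Quotient.mk_eq_zero _).1 h
  · intro a b w hab hw
    obtain ⟨γ, -, -, g3, g4⟩ := hD a b hab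
    rw [g4, map_list_prod, List.map_ofFn]
    have : (γ ∘ fun t => X (w t)) = fun t => X (w t) := funext fun t => g3 _ (hw t)
    rw [this, sub_self, map_zero]
  · intro a b w t hab ht hw
    obtain ⟨γ, g1, g2, g3, g4⟩ := hD a b hab
    rw [g4, map_list_prod, List.map_ofFn]
    have e1 := (MultilinearMap.mkPiAlgebraFin K c R).map_update_add (fun s => X (w s)) t
      (X a) (X b)
    simp only [MultilinearMap.mkPiAlgebraFin_apply] at e1
    have e2 : Function.update (fun s => X (w s)) t (X a) = fun s => X (w s) := by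
      rw [← ht]; exact Function.update_eq_self t _
    have e3 : Function.update (fun s => X (w s)) t (X b) =
        fun s => X (Function.update w t b s) := by
      funext s
      by_cases h : s = t
      · subst h; simp
      · simp [Function.update_of_ne h]
    rw [e2, e3] at e1
    have e4 := fil_prod_sub A c (γ ∘ fun s => X (w s))
      (Function.update (fun s => X (w s)) t (X a + X b)) (fun s => g1 _ (hX _)) ?_ ?_
    · rw [← sub_eq_zero, ← map_sub]
      refine (Submodule.Quotient.mk_eq_zero _).2 ?_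
      rw [e1] at e4
      rwa [sub_sub]
    · intro s
      by_cases h : s = t
      · subst h; simpa using add_mem (hX a) (hX b)
      · simpa [Function.update_of_ne h] using hX _
    · intro s
      by_cases h : s = t
      · subst h
        simp only [Function.comp, Function.update_self, ht, g2, add_sub_cancel_left]
        exact Submodule.mul_mem_mul (hX a) (hX b)
      · simp [Function.update_of_ne h, g3 _ (hw s h)]

end Pool.Agent.MP_b84581_al.O
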