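import Pool.Agent.MP_b84581_al.h50.SpecA

/-! The module induced over an orbit. -/

set_option autoImplicit false

namespace Pool.Agent.MP_b84581_al.O

open Module

namespace Ind

variable {F G : Type} [Group F] [Group G]

theorem ex_aut {e₁ e₂ : F →* G} (h₁ : Function.Surjective e₁) (h₂ : Function.Surjective e₂)
    (hk : e₁.ker = e₂.ker) : ∃ α : MulAut G, α.toMonoidHom.comp e₁ = e₂ := by
  refine ⟨(QuotientGroup.quotientKerEquivOfSurjective e₁ h₁).symm.trans
    ((QuotientGroup.quotientMulEquivOfEq hk).trans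
      (QuotientGroup.quotientKerEquivOfSurjective e₂ h₂)), MonoidHom.ext fun x => ?_⟩
  have h : (QuotientGroup.quotientKerEquivOfSurjective e₁ h₁).symm (e₁ x) = (x : F ⧸ e₁.ker) :=
    (MulEquiv.symm_apply_eq _).2 rfl
  change QuotientGroup.quotientKerEquivOfSurjective e₂ h₂ (QuotientGroup.quotientMulEquivOfEq hk
    ((QuotientGroup.quotientKerEquivOfSurjective e₁ h₁).symm (e₁ x))) = e₂ x
  rw [h]
  rfl

theorem map_ker (e : F →* G) (φ : F ≃* F) :
    Subgroup.map φ.toMonoidHom e.ker = (e.comp φ.symm.toMonoidHom).ker := by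
  ext x
  constructor
  · rintro ⟨y, hy, rfl⟩
    simpa using hy
  · intro hx
    exact ⟨φ.symm x, hx, by simp⟩

/-- surjections whose kernel lies in the orbit -/
def Good (e e₂ : F →* G) : Prop :=
  Function.Surjective e₂ ∧ ∃ φ : F ≃* F, Subgroup.map φ.toMonoidHom e.ker = e₂.ker

theorem Good.of_comp {e e₂ : F →* G} {φ : F ≃* F} (h : Good e (e₂.comp φ.toMonoidHom)) :
    Good e e₂ := by
  obtain ⟨h1, ψ, h2⟩ := h
  refine ⟨Function.Surjective.of_comp (g := φ) h1, ψ.trans φ, ?_⟩
  rw [map_ker] at h2 ⊢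
  ext x
  have h3 := SetLike.ext_iff.1 h2 (φ.symm x)
  refine Iff.trans h3 ?_
  change e₂ (φ (φ.symm x)) = 1 ↔ e₂ x = 1
  rw [MulEquiv.apply_symm_apply]

variable {K V₀ : Type} [Field K] [AddCommGroup V₀] [Module K V₀] (σ : MulAut G →* End K V₀)
  (e : F →* G)

/-- the induced module -/
def VV : Submodule K ((F →* G) → V₀) where
  carrier := {f | (∀ (α : MulAut G) e₂, f (α.toMonoidHom.comp e₂) = σ α (f e₂)) ∧
    ∀ e₂, ¬ Good e e₂ → f e₂ = 0}
  add_mem' hf hg := ⟨fun α e₂ => by simp only [Pi.add_apply, hf.1, hg.1, map_add],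
    fun e₂ h => by simp only [Pi.add_apply, hf.2 e₂ h, hg.2 e₂ h, add_zero]⟩
  zero_mem' := ⟨fun α e₂ => by simp, fun _ _ => rfl⟩
  smul_mem' c f hf := ⟨fun α e₂ => by simp only [Pi.smul_apply, hf.1, map_smul],
    fun e₂ h => by simp only [Pi.smul_apply, hf.2 e₂ h, smul_zero]⟩

/-- the action -/
def pp : MulAut F →* End K (VV σ e) where
  toFun φ :=
    { toFun := fun f => ⟨fun e₂ => f.1 (e₂.comp φ.toMonoidHom),
        fun α e₂ => f.2.1 α (e₂.comp φ.toMonoidHom), fun _ h => f.2.2 _ fun h' => h h'.of_comp⟩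
      map_add' := fun _ _ => rfl
      map_smul' := fun _ _ => rfl }
  map_one' := rfl
  map_mul' _ _ := rfl

open Classical in
/-- the function supported on the orbit of `e` -/
noncomputable def ff (v : V₀) (e₂ : F →* G) : V₀ :=
  if h : ∃ α : MulAut G, α.toMonoidHom.comp e = e₂ then σ h.choose v else 0

variable {e}

theorem ff_eq (he : Function.Surjective e) (v : V₀) (α : MulAut G) :
    ff σ e v (α.toMonoidHom.comp e) = σ α v := by
  have h : ∃ β : MulAut G, β.toMonoidHom.comp e = α.toMonoidHom.comp e := ⟨α, rfl⟩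
  have h1 : h.choose = α := MulEquiv.ext fun x => by
    obtain ⟨y, rfl⟩ := he x
    exact DFunLike.congr_fun h.choose_spec y
  rw [ff, dif_pos h, h1]

theorem ff_mem (he : Function.Surjective e) (v : V₀) : ff σ e v ∈ VV σ e := by
  refine ⟨fun β e₂ => ?_, fun e₂ h => dif_neg ?_⟩
  · by_cases h : ∃ α : MulAut G, α.toMonoidHom.comp e = e₂
    · obtain ⟨α, rfl⟩ := h
      have h1 := ff_eq σ he v (β * α)
      rw [map_mul] at h1
      rw [ff_eq σ he]
      exact h1
    · rw [ff, ff, dif_neg h, map_zero, dif_neg]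
      rintro ⟨α, hα⟩
      refine h ⟨β⁻¹ * α, MonoidHom.ext fun x => ?_⟩
      have h1 : α (e x) = β (e₂ x) := DFunLike.congr_fun hα x
      change β.symm (α (e x)) = e₂ x
      rw [h1, MulEquiv.symm_apply_apply]
  · rintro ⟨α, rfl⟩
    refine h ⟨α.surjective.comp he, MulEquiv.refl F, ?_⟩
    ext x
    simp

end Ind

open Ind

theorem ind : IndS := by
  intro K V₀ ι G _ _ _ _ _ _ _ σ e he
  have : Finite (FreeGroup ι →* G) := Finite.of_equiv _ FreeGroup.lift
  refine ⟨VV σ e, pp σ e, ?_, ?_, fun g hg => ?_⟩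
  · have h : (pp σ e : MulAut (FreeGroup ι) → _).FactorsThrough
        fun φ (e₂ : FreeGroup ι →* G) => e₂.comp φ.toMonoidHom := fun φ ψ h =>
      LinearMap.ext fun f => Subtype.ext (funext fun e₂ => congrArg f.1 (congrFun h e₂))
    rw [← h.extend_comp fun _ => 0]
    exact (Set.finite_range _).subset (Set.range_comp_subset_range _ _)
  · have hf : {M : Subgroup (FreeGroup ι) |
        ∃ φ : FreeGroup ι ≃* FreeGroup ι, Subgroup.map φ.toMonoidHom e.ker = M}.Finite :=
      (Set.finite_range fun e₂ : FreeGroup ι →* G => e₂.ker).subset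
        fun M ⟨φ, h⟩ => ⟨_, (map_ker e φ).symm.trans h⟩
    let _ := hf.fintype
    let L : VV σ e →ₗ[K] ({M : Subgroup (FreeGroup ι) |
        ∃ φ : FreeGroup ι ≃* FreeGroup ι, Subgroup.map φ.toMonoidHom e.ker = M} → V₀) :=
      { toFun := fun f M => f.1 (e.comp M.2.choose.symm.toMonoidHom)
        map_add' := fun _ _ => rfl
        map_smul' := fun _ _ => rfl }
    have hL : Function.Injective L := (injective_iff_map_eq_zero L).2 fun f h =>
      Subtype.ext (funext fun e₂ => by
        by_cases h1 : Good e e₂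
        · obtain ⟨α, hα⟩ := ex_aut (e₁ := e.comp h1.2.choose.symm.toMonoidHom)
            (he.comp h1.2.choose.symm.surjective) h1.1
            ((map_ker e _).symm.trans h1.2.choose_spec)
          have h2 : f.1 (e.comp h1.2.choose.symm.toMonoidHom) = 0 := congrFun h ⟨_, h1.2⟩
          have h3 := f.2.1 α (e.comp h1.2.choose.symm.toMonoidHom)
          rw [hα, h2, map_zero] at h3
          exact h3
        · exact f.2.2 e₂ h1)
    refine (LinearMap.finrank_le_finrank_of_injective hL).trans (le_of_eq ?_)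
    rw [finrank_pi_fintype, Finset.sum_const, Finset.card_univ, smul_eq_mul, mul_comm,
      ← Nat.card_coe_set_eq, Nat.card_eq_fintype_card]
  · refine LinearMap.ext fun v => ?_
    have h1 : ff σ e v (e.comp (MulAut.conj g).toMonoidHom) = ff σ e v e :=
      congrFun (congrArg Subtype.val (LinearMap.congr_fun hg ⟨_, ff_mem σ he v⟩)) e
    have h2 : e.comp (MulAut.conj g).toMonoidHom = (MulAut.conj (e g)).toMonoidHom.comp e :=
      MonoidHom.ext fun x => by simp
    have h3 := ff_eq σ he v 1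
    rw [map_one] at h3
    rw [h2, ff_eq σ he] at h1
    exact h1.trans h3

end Pool.Agent.MP_b84581_al.O
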