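import Pool.Agent.MP_b84581_al.h50.SpecA

/-! Finite unipotent groups act nilpotently. -/

set_option autoImplicit false

namespace Pool.Agent.MP_b84581_al.O

open Submodule

theorem kol : KolS := by
  intro K R P _ _ _ _ _ _ r U hn hU h
  have le : ∀ (X : Set R) (S : Submodule K R), (∀ a ∈ X, ∀ u ∈ U, a * u ∈ S) →
      span K X * U ≤ S := fun X S hX => mul_le.2 fun a ha u hu => by
    induction ha using span_induction with
    | mem x hx => exact hX x hx u hu
    | zero => simp
    | add x y _ _ hx hy => exact add_mul x y u ▸ S.add_mem hx hy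
    | smul c x _ hx => exact smul_mul_assoc c x u ▸ S.smul_mem c hx
  have key : ∀ M : Subgroup P, U ≤ span K ((fun z => r z - 1) '' M) * U := fun M => by
    induction M using WellFoundedGT.induction with
    | ind M ih =>
      rcases eq_or_ne M ⊤ with rfl | hM
      · simpa using h
      obtain ⟨z, hz, hz'⟩ :=
        SetLike.exists_of_lt (Group.normalizerCondition_of_isNilpotent M hM.lt_top)
      set J := span K ((fun z => r z - 1) '' M) * U with hJ
      have mJ : ∀ m ∈ M, ∀ u ∈ U, (r m - 1) * u ∈ J := fun m hm u hu =>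
        mul_mem_mul (subset_span ⟨m, hm, rfl⟩) hu
      set S := J ⊔ U.map (LinearMap.mulLeft K (r z - 1)) with hS
      let T : Subgroup P :=
        { carrier := {g | ∀ u ∈ U, (r g - 1) * u ∈ S}
          one_mem' := fun u _ => by simp
          mul_mem' := fun {a b} ha hb u hu => by
            convert S.add_mem (ha _ (hU b u hu)) (hb u hu) using 1
            rw [map_mul]
            noncomm_ring
          inv_mem' := fun {a} ha u hu => by
            convert S.neg_mem (ha _ (hU a⁻¹ u hu)) using 1
            rw [sub_mul, sub_mul, ← mul_assoc, ← map_mul, mul_inv_cancel, map_one, one_mul, one_mul,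
              neg_sub] }
      have hT : M < T := SetLike.lt_iff_le_and_exists.2
        ⟨fun m hm u hu => mem_sup_left (mJ m hm u hu), z,
          fun u hu => mem_sup_right (mem_map_of_mem hu), hz'⟩
      have h1 : U ≤ S := (ih T hT).trans (le _ _ (by
        rintro _ ⟨g, hg, rfl⟩
        exact hg))
      have h2 : J ≤ J.comap (LinearMap.mulLeft K (r z)) := le _ _ (by
        rintro _ ⟨m, hm, rfl⟩ u hu
        have h3 := mJ _ ((Subgroup.mem_normalizer_iff.1 hz m).1 hm) _ (hU z u hu)
        rw [sub_mul, ← mul_assoc, ← map_mul, inv_mul_cancel_right, map_mul, one_mul] at h3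
        simpa [mul_sub, sub_mul, mul_assoc] using h3)
      have h3 : ∀ i : ℕ, ∀ u ∈ U, ∃ v ∈ U, u - (r z - 1) ^ i * v ∈ J := fun i => by
        induction i with
        | zero => exact fun u hu => ⟨u, hu, by simp⟩
        | succ i ih =>
          intro u hu
          obtain ⟨x, hx, _, ⟨w, hw, rfl⟩, rfl⟩ := mem_sup.1 (h1 hu)
          obtain ⟨v, hv, h4⟩ := ih w hw
          refine ⟨v, hv, ?_⟩
          convert J.add_mem hx (J.sub_mem (h2 h4) h4) using 1
          simp only [LinearMap.mulLeft_apply, pow_succ']
          noncomm_ring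
      intro u hu
      obtain ⟨i, hi⟩ := hn z
      obtain ⟨v, -, h4⟩ := h3 i u hu
      simpa [hi] using h4
  exact le_bot_iff.1 ((key ⊥).trans (le _ _ (by
    rintro _ ⟨g, hg, rfl⟩ u _
    simp [Subgroup.mem_bot.1 hg])))

end Pool.Agent.MP_b84581_al.O
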