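import Pool.Agent.MP_b84581_al.h50.SpecA

/-! If all long words vanish then perfect quotients are covered by the kernel. -/

set_option autoImplicit false

namespace Pool.Agent.MP_b84581_al.O

open scoped commutatorElement

namespace TopA

variable {R ι : Type} [Ring R] (ρ : FreeGroup ι →* R)

/-- the span of the words of length at least `s` -/
def T (s : ℕ) : Submodule ℤ R := Submodule.span ℤ
  {x | ∃ l : List ι, s ≤ l.length ∧ x = (l.map fun i => ρ (FreeGroup.of i) - 1).prod}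

variable {ρ}

theorem mul {s t : ℕ} {x y : R} (hx : x ∈ T ρ s) (hy : y ∈ T ρ t) : x * y ∈ T ρ (s + t) := by
  have h := Submodule.mul_mem_mul hx hy
  rw [T, T, Submodule.span_mul_span] at h
  refine Submodule.span_mono ?_ h
  rintro _ ⟨_, ⟨l, hl, rfl⟩, _, ⟨l', hl', rfl⟩, rfl⟩
  exact ⟨l ++ l', by rw [List.length_append]; omega, by rw [List.map_append, List.prod_append]⟩

theorem mul0 {s : ℕ} {x y : R} (hx : x ∈ T ρ s) (hy : y ∈ T ρ 0) : x * y ∈ T ρ s := by
  have h := mul hx hy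
  rwa [add_zero] at h

theorem one : (1 : R) ∈ T ρ 0 := Submodule.subset_span ⟨[], le_rfl, rfl⟩

theorem zero (h : ∀ g, ∃ L : ℕ, 0 < L ∧ ρ g ^ L = 1) (g : FreeGroup ι) : ρ g ∈ T ρ 0 := by
  have h1 : ∀ i, ρ (FreeGroup.of i) ∈ T ρ 0 := fun i => by
    have h2 : ρ (FreeGroup.of i) - 1 ∈ T ρ 0 := Submodule.subset_span ⟨[i], by simp, by simp⟩
    simpa using add_mem h2 one
  induction g using FreeGroup.induction_on with
  | C1 => rw [map_one]; exact one
  | of i => exact h1 i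
  | inv_of i _ =>
    obtain ⟨L, hL, e⟩ := h (FreeGroup.of i)
    obtain ⟨n, rfl⟩ := Nat.exists_eq_succ_of_ne_zero hL.ne'
    have h2 : ρ (FreeGroup.of i)⁻¹ = ρ (FreeGroup.of i) ^ n := by
      rw [← one_mul (ρ (FreeGroup.of i)⁻¹), ← e, pow_succ, mul_assoc, ← map_mul, mul_inv_cancel,
        map_one, mul_one]
    rw [h2]
    clear h2 e hL
    induction n with
    | zero => rw [pow_zero]; exact one
    | succ n ih => rw [pow_succ]; exact mul0 ih (h1 i)
  | mul x y hx hy => rw [map_mul]; exact mul0 hx hy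

/-- the elements that are trivial up to order `s` -/
def S (h : ∀ g, ρ g ∈ T ρ 0) (s : ℕ) : Subgroup (FreeGroup ι) where
  carrier := {g | ρ g - 1 ∈ T ρ s}
  one_mem' := by simp
  mul_mem' := fun {a b} ha hb => by
    have e : ρ (a * b) - 1 = (ρ a - 1) * ρ b + (ρ b - 1) := by rw [map_mul]; noncomm_ring
    change ρ (a * b) - 1 ∈ T ρ s
    rw [e]
    exact add_mem (mul0 ha (h b)) hb
  inv_mem' := fun {a} ha => by
    have e : ρ a⁻¹ - 1 = -((ρ a - 1) * ρ a⁻¹) := by
      rw [sub_mul, ← map_mul, mul_inv_cancel, map_one, one_mul, neg_sub]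
    change ρ a⁻¹ - 1 ∈ T ρ s
    rw [e]
    exact neg_mem (mul0 ha (h a⁻¹))

theorem top1 (h : ∀ g, ρ g ∈ T ρ 0) : S h 1 = ⊤ := by
  rw [eq_top_iff, ← FreeGroup.closure_range_of, Subgroup.closure_le]
  rintro _ ⟨i, rfl⟩
  exact Submodule.subset_span ⟨[i], le_rfl, by simp⟩

theorem comm (h : ∀ g, ρ g ∈ T ρ 0) (s : ℕ) : ⁅S h s, S h 1⁆ ≤ S h (s + 1) := by
  refine Subgroup.commutator_le.2 fun x hx y hy => ?_
  have e : ρ ⁅x, y⁆ - 1 = ((ρ x - 1) * (ρ y - 1) - (ρ y - 1) * (ρ x - 1)) * ρ (x⁻¹ * y⁻¹) := by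
    have e1 : ρ y * ρ x * ρ (x⁻¹ * y⁻¹) = 1 := by
      rw [← map_mul, ← map_mul, ← map_one ρ]; congr 1; group
    have e2 : ρ x * ρ y * ρ (x⁻¹ * y⁻¹) = ρ ⁅x, y⁆ := by
      rw [← map_mul, ← map_mul, commutatorElement_def, mul_assoc (x * y)]
    rw [← e2]
    nth_rewrite 1 [← e1]
    noncomm_ring
  change ρ ⁅x, y⁆ - 1 ∈ T ρ (s + 1)
  rw [e]
  have h1 : (ρ x - 1) * (ρ y - 1) ∈ T ρ (s + 1) := mul hx hy
  have h2 : (ρ y - 1) * (ρ x - 1) ∈ T ρ (1 + s) := mul hy hx
  rw [add_comm 1 s] at h2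
  exact mul0 (sub_mem h1 h2) (h _)

end TopA

open TopA in
theorem top : TopS := by
  intro R ι G _ _ ρ c e hL hw he hG γ
  have h := zero hL
  have h1 : (S h 1).map e = ⊤ := by rw [top1, Subgroup.map_top_of_surjective e he]
  have h2 : ∀ s, (S h (s + 1)).map e = ⊤ := fun s => by
    induction s with
    | zero => exact h1
    | succ s ih =>
      rw [eq_top_iff, ← hG, commutator_def]
      refine le_trans ?_ (Subgroup.map_mono (comm h (s + 1)))
      rw [Subgroup.map_commutator, ih, h1]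
  obtain ⟨g, hg, rfl⟩ : γ ∈ (S h (c + 1)).map e := by rw [h2]; trivial
  refine ⟨g, rfl, sub_eq_zero.1 ((Submodule.mem_bot ℤ).1 (Submodule.span_le.2 ?_ hg))⟩
  rintro _ ⟨l, hl, rfl⟩
  have h3 : (l.take c).length = c := List.length_take_of_le (by omega)
  have h4 : ((l.take c).map fun i => ρ (FreeGroup.of i) - 1).prod = 0 := by
    generalize l.take c = l' at h3
    subst h3
    rw [← hw l'.get]
    congr 1
    exact (List.ofFn_comp' l'.get _).trans (by rw [List.ofFn_get]) |>.symm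
  rw [← List.take_append_drop c l, List.map_append, List.prod_append, h4, zero_mul]
  exact Submodule.zero_mem _

end Pool.Agent.MP_b84581_al.O
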