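import Pool.Agent.MP_b84581_al.h50.Dbl
import Pool.Agent.MP_b84581_al.h50.Comb
import Pool.Agent.MP_b84581_al.h50.Kol
import Pool.Agent.MP_b84581_al.h50.Fil
import Pool.Agent.MP_b84581_al.h50.Ind
import Pool.Agent.MP_b84581_al.h50.Top

/-! Small representations with finite image of the automorphism group of a free group are
nilpotent on inner automorphisms; a lower bound for orbits of kernels follows. -/

set_option autoImplicit false

namespace Pool.Agent.MP_b84581_al.O

open Module

theorem mul_conj {G : Type} [Group G] (φ : MulAut G) (g : G) :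
    φ * MulAut.conj g = MulAut.conj (φ g) * φ := by
  ext x
  simp

theorem split_order (K : Type) [Field K] {L : ℕ} (hL : 0 < L) : ∃ Q N : ℕ, L = Q * N ∧
    (N : K) ≠ 0 ∧ (∀ (V : Type) [AddCommGroup V] [Module K V] (x : End K V), x ^ Q = 1 →
      IsNilpotent (x - 1)) ∧
    ∀ (P : Type) [Group P] [Finite P], (∀ z : P, z ^ Q = 1) → Group.IsNilpotent P := by
  obtain ⟨p, hp⟩ := ExpChar.exists K
  cases hp with
  | zero =>
    refine ⟨1, L, (one_mul L).symm, Nat.cast_ne_zero.2 hL.ne', fun V _ _ x hx => ?_,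
      fun P _ _ h => ?_⟩
    · rw [pow_one] at hx
      simp [hx]
    · have : Subsingleton P := ⟨fun a b => by
        rw [← pow_one a, ← pow_one b, h, h]⟩
      infer_instance
  | prime hp =>
    obtain ⟨e, N, hN, rfl⟩ := Nat.exists_eq_pow_mul_and_not_dvd hL.ne' p hp.ne_one
    have := Fact.mk hp
    refine ⟨p ^ e, N, rfl, fun h => hN ((CharP.cast_eq_zero_iff K p N).1 h),
      fun V _ _ x hx => ?_, fun P _ _ h => IsPGroup.isNilpotent (p := p) fun z => ⟨e, h z⟩⟩
    rcases subsingleton_or_nontrivial V with hV | hV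
    · exact ⟨0, Subsingleton.elim _ _⟩
    · have : CharP (End K V) p := charP_of_injective_algebraMap (algebraMap K _).injective p
      exact ⟨p ^ e, by rw [sub_pow_char_pow_of_commute p e (Commute.one_right x), hx]; simp⟩

section
variable {K V ι : Type} [Field K] [AddCommGroup V] [Module K V]
  (π : MulAut (FreeGroup ι) →* End K V)

theorem fin_range (hπ : (Set.range π).Finite) : Finite π.toHomUnits.range := by
  have := hπ.to_subtype
  refine Finite.of_injective (fun z : π.toHomUnits.range =>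
    (⟨z.1.1, by obtain ⟨φ, h⟩ := z.2; exact ⟨φ, by rw [← h]; rfl⟩⟩ : Set.range π)) ?_
  intro a b h
  exact Subtype.ext (Units.ext (congrArg Subtype.val h))

theorem exists_exp (hπ : (Set.range π).Finite) : ∃ L : ℕ, 0 < L ∧ ∀ φ, π φ ^ L = 1 := by
  have := fin_range π hπ
  refine ⟨Nat.card π.toHomUnits.range, Nat.card_pos, fun φ => ?_⟩
  have h := pow_card_eq_one' (x := π.toHomUnits.rangeRestrict φ)
  have h2 := congrArg (fun z : π.toHomUnits.range => (z.1 : End K V)) h
  simpa using h2

variable [IsAlgClosed K] [FiniteDimensional K V] [Fintype ι] [DecidableEq ι]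

/-- inner automorphisms of a small free factor have order a power of the characteristic -/
theorem inner_pow {Q N m : ℕ} (hL : ∀ φ, π φ ^ (Q * N) = 1) (hN : (N : K) ≠ 0) (J : Finset ι)
    (hJ : J.card + m ≤ Fintype.card ι) (hV : finrank K V < 2 ^ m) {h : FreeGroup ι}
    (hh : h ∈ Subgroup.closure (FreeGroup.of '' (J : Set ι))) :
    π (MulAut.conj h) ^ Q = 1 := by
  by_contra hne
  have hi : ∀ i : {i // i ∉ J}, h ∈ Subgroup.closure (FreeGroup.of '' {l | l ≠ i.1}) := fun i =>
    Subgroup.closure_mono (Set.image_mono fun l hl (e : l = i.1) => i.2 (e ▸ hl)) hh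
  choose φ h1 h2 using fun i : {i // i ∉ J} => exists_nl i.1 (hi i)
  have h3 : ∀ (i : {i // i ∉ J}) (l : ι), l ≠ i.1 → φ i (FreeGroup.of l) = FreeGroup.of l :=
    fun i l hl => h2 i _ (Subgroup.subset_closure ⟨l, hl, rfl⟩)
  have c1 : ∀ i, Commute (MulAut.conj h) (φ i) := fun i => by
    have := mul_conj (φ i) h
    rw [h2 i h (hi i)] at this
    exact this.symm
  have c2 : ∀ i l, Commute (φ i) (φ l) := fun i l => by
    by_cases hil : i = l
    · rw [hil]
    have hil' : i.1 ≠ l.1 := fun e => hil (Subtype.ext e)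
    refine MulEquiv.toMonoidHom_injective (FreeGroup.ext_hom _ _ fun a => ?_)
    show φ i (φ l (FreeGroup.of a)) = φ l (φ i (FreeGroup.of a))
    by_cases ha : a = i.1
    · rw [ha, h3 l _ hil', h1, map_mul, h3 l _ hil', h2 l h (hi l)]
    by_cases hb : a = l.1
    · rw [hb, h3 i _ hil'.symm, h1, map_mul, h3 i _ hil'.symm, h2 i h (hi i)]
    rw [h3 l a hb, h3 i a ha, h3 l a hb]
  have c3 : ∀ i l : {i // i ∉ J}, i ≠ l →
      Commute (MulAut.conj (FreeGroup.of i.1))⁻¹ (φ l) := fun i l hil => by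
    have := mul_conj (φ l) (FreeGroup.of i.1)
    rw [h3 l _ fun e => hil (Subtype.ext e)] at this
    exact (Commute.symm this).inv_left
  have c4 : ∀ i : {i // i ∉ J}, MulAut.conj h ^ Q * φ i ^ Q * (MulAut.conj (FreeGroup.of i.1))⁻¹ =
      (MulAut.conj (FreeGroup.of i.1))⁻¹ * φ i ^ Q := fun i => by
    have e := mul_conj (φ i) (FreeGroup.of i.1)
    rw [h1, map_mul] at e
    have e2 : MulAut.conj h * φ i = (MulAut.conj (FreeGroup.of i.1))⁻¹ * φ i *
        (MulAut.conj (FreeGroup.of i.1))⁻¹⁻¹ := by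
      rw [inv_inv, mul_assoc, e]
      group
    rw [← (c1 i).mul_pow, e2, conj_pow]
    group
  have := dbl K V {i // i ∉ J} (π (MulAut.conj h) ^ Q) (fun i => π (φ i) ^ Q)
    (fun i => π (MulAut.conj (FreeGroup.of i.1))⁻¹) N Finset.univ hN
    (by rw [← pow_mul, hL]) (fun i => by rw [← pow_mul, hL])
    (fun i => ((c1 i).map π).pow_pow Q Q) (fun i l => ((c2 i l).map π).pow_pow Q Q)
    (fun i l hil => ((c3 i l hil).map π).pow_right Q)
    (fun i => ((Module.End.isUnit_iff _).1 ((Group.isUnit _).map π)).1)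
    (fun i => by simpa only [map_mul π, map_pow π] using congrArg π (c4 i)) hne
  have h5 : m ≤ (Finset.univ : Finset {i // i ∉ J}).card := by
    rw [Finset.card_univ, Fintype.card_subtype_compl, Fintype.card_coe]
    omega
  exact absurd ((Nat.pow_le_pow_right (by norm_num) h5).trans this) (by omega)

omit [IsAlgClosed K] in
theorem prod_mem {R : Type} [Ring R] [Algebra K R] (A : Submodule K R) (c : ℕ) (x : Fin c → R)
    (hx : ∀ t, x t ∈ A) : (List.ofFn x).prod ∈ A ^ c := by
  induction c with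
  | zero => simp [Submodule.one_le.1 le_rfl]
  | succ c ih =>
    rw [List.ofFn_succ, List.prod_cons, pow_succ']
    exact Submodule.mul_mem_mul (hx 0) (ih _ fun t => hx _)

theorem words_zero (hπ : (Set.range π).Finite) {m : ℕ} (hm : 7 * m ≤ Fintype.card ι)
    (hV : finrank K V < 2 ^ m) (w : Fin (2 * m) → ι) :
    (List.ofFn fun t => π (MulAut.conj (FreeGroup.of (w t))) - 1).prod = 0 := by
  rcases Nat.eq_zero_or_pos m with rfl | hm0
  · have : Subsingleton V := finrank_zero_iff.1 (by omega : finrank K V = 0)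
    exact Subsingleton.elim _ _
  obtain ⟨L, hL, hp⟩ := exists_exp π hπ
  obtain ⟨Q, N, rfl, hN, hnil, hP⟩ := split_order K hL
  obtain ⟨J, hJ, -, hc⟩ := Finset.exists_subsuperset_card_eq (n := 6 * m)
    (Finset.subset_univ (Finset.univ.image w))
    (Finset.card_image_le.trans (by simp; omega)) (by rw [Finset.card_univ]; omega)
  have hf := fil comb K (End K V) ι π J (2 * m) (by omega) (by
    rw [finrank_linearMap, two_mul, pow_add]
    exact Nat.mul_lt_mul'' hV hV)
  let P : Subgroup (End K V)ˣ := (Subgroup.closure (FreeGroup.of '' (J : Set ι))).map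
    (π.toHomUnits.comp MulAut.conj)
  have := fin_range π hπ
  have : Finite P := Finite.of_injective _ (Subgroup.inclusion_injective
    (show P ≤ π.toHomUnits.range by rintro _ ⟨g, -, rfl⟩; exact ⟨_, rfl⟩))
  let r : P →* End K V := (Units.coeHom _).comp P.subtype
  have hr : ∀ z : P, ∃ g ∈ Subgroup.closure (FreeGroup.of '' (J : Set ι)),
      r z = π (MulAut.conj g) := by
    rintro ⟨_, g, hg, rfl⟩
    exact ⟨g, hg, rfl⟩
  have hQ : ∀ z : P, r z ^ Q = 1 := fun z => by
    obtain ⟨g, hg, e⟩ := hr z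
    rw [e]
    exact inner_pow π hp hN J (by omega) hV hg
  have := hP P fun z => Subtype.ext (Units.ext (by simpa [r] using hQ z))
  have hA : Submodule.span K (Set.range fun z => r z - 1) = aug K π J := by
    unfold aug
    congr 1
    ext x
    constructor
    · rintro ⟨z, rfl⟩
      obtain ⟨g, hg, e⟩ := hr z
      exact ⟨g, hg, by rw [← e]⟩
    · rintro ⟨g, hg, rfl⟩
      exact ⟨⟨_, g, hg, rfl⟩, rfl⟩
  have hl : ∀ z, ∀ a ∈ aug K π J, r z * a ∈ aug K π J := fun z a ha => by
    rw [← hA] at ha ⊢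
    induction ha using Submodule.span_induction with
    | mem x hx =>
      obtain ⟨y, rfl⟩ := hx
      have : r z * (r y - 1) = (r (z * y) - 1) - (r z - 1) := by
        rw [map_mul]
        noncomm_ring
      rw [this]
      exact sub_mem (Submodule.subset_span ⟨_, rfl⟩) (Submodule.subset_span ⟨_, rfl⟩)
    | zero => simp
    | add x y _ _ hx hy => rw [mul_add]; exact add_mem hx hy
    | smul a x _ hx => rw [mul_smul_comm]; exact Submodule.smul_mem _ _ hx
  have hU := kol K (End K V) P r (aug K π J ^ (2 * m)) (fun z => hnil V _ (hQ z))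
    (fun z x hx => by
      obtain ⟨c, hc⟩ : ∃ c, 2 * m = c + 1 := ⟨2 * m - 1, by omega⟩
      rw [hc, pow_succ'] at hx ⊢
      refine Submodule.mul_induction_on hx (fun a ha b hb => ?_) fun a b ha hb => ?_
      · rw [← mul_assoc]
        exact Submodule.mul_mem_mul (hl z a ha) hb
      · rw [mul_add]
        exact add_mem ha hb)
    (by rw [hA, ← pow_succ']; exact hf)
  rw [← Submodule.mem_bot K, ← hU]
  exact prod_mem _ _ _ fun t => Submodule.subset_span
    ⟨_, Subgroup.subset_closure ⟨w t, hJ (by simp), rfl⟩, rfl⟩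

end

theorem orbit_closed {K V₀ G : Type} [Field K] [IsAlgClosed K] [AddCommGroup V₀]
    [Module K V₀] [FiniteDimensional K V₀] [Group G] [Finite G] (hG : commutator G = ⊤)
    (σ : MulAut G →* End K V₀) (hσ : ∃ g, σ (MulAut.conj g) ≠ 1) {k : ℕ}
    (e : FreeGroup (Fin k) →* G) (he : Function.Surjective e) :
    2 ^ (k / 7) ≤ finrank K V₀ * Set.ncard {M : Subgroup (FreeGroup (Fin k)) |
      ∃ φ : FreeGroup (Fin k) ≃* FreeGroup (Fin k), Subgroup.map φ.toMonoidHom e.ker = M} := by
  by_contra hlt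
  obtain ⟨V, π, h1, h2, h3⟩ := ind K V₀ (Fin k) G σ e he
  have : Finite (FreeGroup (Fin k) →* G) := Finite.of_equiv _ FreeGroup.lift
  obtain ⟨L, hL, hp⟩ := exists_exp π h1
  obtain ⟨γ, hγ⟩ := hσ
  obtain ⟨g, rfl, hg⟩ := top (End K V) (Fin k) G (π.comp MulAut.conj) (2 * (k / 7)) e
    (fun g => ⟨L, hL, hp _⟩)
    (words_zero π h1 (m := k / 7) (by rw [Fintype.card_fin]; omega) (by omega)) he hG γ
  exact hγ (h3 g hg)

theorem orbit_large {K G : Type} [Field K] [Group G] [Finite G]
    (hG : commutator G = ⊤) {d : ℕ} (σ : MulAut G →* GL (Fin d) K)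
    (hσ : ∃ g, σ (MulAut.conj g) ≠ 1) {k : ℕ}
    (e : FreeGroup (Fin k) →* G) (he : Function.Surjective e) :
    2 ^ (k / 7) ≤ d * Set.ncard {M : Subgroup (FreeGroup (Fin k)) |
      ∃ φ : FreeGroup (Fin k) ≃* FreeGroup (Fin k), Subgroup.map φ.toMonoidHom e.ker = M} := by
  let A := AlgebraicClosure K
  let τ : GL (Fin d) K →* End A (Fin d → A) :=
    (Matrix.toLinAlgEquiv' : Matrix (Fin d) (Fin d) A ≃ₐ[A] End A (Fin d → A)).toMonoidHom.comp
      (((algebraMap K A).mapMatrix.toMonoidHom).comp (Units.coeHom _))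
  have hτ : Function.Injective τ := fun a b h =>
    Units.ext (Matrix.map_injective (algebraMap K A).injective
      (Matrix.toLinAlgEquiv'.injective h))
  obtain ⟨g, hg⟩ := hσ
  have := orbit_closed hG (τ.comp σ) ⟨g, fun h => hg (hτ (h.trans (map_one τ).symm))⟩ e he
  rwa [finrank_fin_fun] at this

end Pool.Agent.MP_b84581_al.O
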