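import Pool.Agent.MP_b84581_al.h50.SpecB

/-! Elements of prime order: central elements of Sylow subgroups, orbits and fixed spaces. -/

set_option autoImplicit false

namespace Pool.Agent.MP_b84581_al.L

open Module

theorem fr : FrS := by
  intro K _ _ r hr hd
  have := Fact.mk hr
  obtain ⟨P⟩ : Nonempty (Sylow r K) := inferInstance
  have : Nontrivial P := (Subgroup.nontrivial_iff_ne_bot _).2 (P.ne_bot_of_dvd_card hd)
  have := P.isPGroup'.center_nontrivial
  obtain ⟨n, hn, hc⟩ := (P.isPGroup'.to_subgroup (Subgroup.center P)).nontrivial_iff_card.1 this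
  obtain ⟨x, hx⟩ := exists_prime_orderOf_dvd_card' (G := Subgroup.center P) r
    (hc ▸ dvd_pow_self r hn.ne')
  refine ⟨(x.1 : K), fun h => ?_, ?_, fun y hy => ?_⟩
  · have : x = 1 := Subtype.ext (Subtype.ext h)
    rw [this, orderOf_one] at hx
    exact hr.one_lt.ne hx
  · have := pow_orderOf_eq_one x
    rw [hx] at this
    exact_mod_cast congrArg (fun z : Subgroup.center P => (z.1 : K)) this
  · have hp : IsPGroup r (Subgroup.zpowers y) := by
      rintro ⟨_, i, rfl⟩
      refine ⟨1, Subtype.ext ?_⟩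
      change (y ^ i) ^ r ^ 1 = 1
      rw [pow_one, ← zpow_natCast, ← zpow_mul, mul_comm, zpow_mul, zpow_natCast, hy, one_zpow]
    obtain ⟨Q, hQ⟩ := hp.exists_le_sylow
    obtain ⟨k, rfl⟩ := MulAction.exists_smul_eq K Q P
    have h1 : k * y * k⁻¹ ∈ (k • Q : Sylow r K) :=
      Subgroup.smul_mem_pointwise_smul y (MulAut.conj k) _ (hQ (Subgroup.mem_zpowers y))
    exact ⟨k, (congrArg Subtype.val (Subgroup.mem_center_iff.1 x.2 ⟨_, h1⟩)).symm⟩

theorem fix : FixS := by
  intro F V _ _ _ _ _ y r U hr hy hU h0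
  classical
  have := Fact.mk hr
  have : Finite U := Module.finite_of_finite F
  have := Fintype.ofFinite U
  let f : Function.End U := fun u => ⟨y u, hU u u.2⟩
  have h1 : ∀ (n : ℕ) (u : U), ((f ^ n) u : V) = (y ^ n) u := fun n => by
    induction n with
    | zero => exact fun _ => rfl
    | succ n ih => exact fun u => by rw [pow_succ, pow_succ]; exact ih (f u)
  have h2 := Equiv.Perm.card_fixedPoints_modEq (f := f) (p := r) (n := 1)
    (funext fun u => Subtype.ext (by rw [pow_one, h1, hy]; rfl))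
  have h3 : Fintype.card f.fixedPoints = 1 := Fintype.card_eq_one_iff.2
    ⟨⟨0, Subtype.ext (map_zero y)⟩, fun u =>
      Subtype.ext (Subtype.ext (h0 _ u.1.2 (congrArg Subtype.val u.2)))⟩
  rw [h3, ← Nat.card_eq_fintype_card, Module.natCard_eq_pow_finrank (K := F)] at h2
  exact (Nat.modEq_iff_dvd' (Nat.one_le_pow _ _ Nat.card_pos)).1 h2.symm

theorem split : SplitS := by
  intro F V _ _ _ y r hr hy
  have h1 : (y - 1) * ∑ i ∈ Finset.range r, y ^ i = 0 := by rw [mul_geom_sum, hy, sub_self]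
  have h2 : (∑ i ∈ Finset.range r, y ^ i) * (y - 1) = 0 := by rw [geom_sum_mul, hy, sub_self]
  have h3 : ∀ v, (∑ i ∈ Finset.range r, y ^ i) v - (r : F) • v =
      (y - 1) ((∑ i ∈ Finset.range r, ∑ j ∈ Finset.range i, y ^ j) v) := fun v => by
    rw [← Module.End.mul_apply, Finset.mul_sum]
    simp [mul_geom_sum, Finset.sum_sub_distrib, Nat.cast_smul_eq_nsmul]
  refine ⟨Submodule.disjoint_def.2 fun v hv ⟨w, hw⟩ => ?_, codisjoint_iff_le_sup.2 fun v _ => ?_⟩
  · have h4 : ∀ i, (y ^ i) v = v := fun i => by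
      induction i with
      | zero => rfl
      | succ i ih =>
        rw [pow_succ, Module.End.mul_apply, show y v = v from sub_eq_zero.1 hv, ih]
    have h5 : (∑ i ∈ Finset.range r, y ^ i) v = 0 := by
      rw [← hw, ← Module.End.mul_apply, h2, LinearMap.zero_apply]
    simp only [LinearMap.sum_apply, h4, Finset.sum_const, Finset.card_range,
      ← Nat.cast_smul_eq_nsmul F] at h5
    exact (smul_eq_zero.1 h5).resolve_left hr
  · rw [← Submodule.smul_mem_iff _ hr, ← sub_sub_cancel ((∑ i ∈ Finset.range r, y ^ i) v) (_ • v),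
      h3]
    refine sub_mem (Submodule.mem_sup_left ?_) (Submodule.mem_sup_right ⟨_, rfl⟩)
    rw [LinearMap.mem_ker, ← Module.End.mul_apply, h1, LinearMap.zero_apply]

end Pool.Agent.MP_b84581_al.L
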