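import Pool.Agent.MP_b84581_al.h50.SpecB

/-! A finite linear group that is transitive on independent quadruples contains a full group of
transvections. -/

set_option autoImplicit false

namespace Pool.Agent.MP_b84581_al.L

open Module Matrix

section
variable {F V H : Type} [Field F] [AddCommGroup V] [Module F V] [Group H]

/-- `ν` acts on the image of `L` by the matrix `A` -/
def Rep (ρ : H →* End F V) (L : (Fin 3 → F) →ₗ[F] V) (ν : H) (A : Matrix (Fin 3) (Fin 3) F) :
    Prop := ∀ w, ρ ν (L w) = L (A *ᵥ w)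

variable {ρ : H →* End F V} {L : (Fin 3 → F) →ₗ[F] V}

theorem Rep.mul {ν μ : H} {A B : Matrix (Fin 3) (Fin 3) F} (h1 : Rep ρ L ν A) (h2 : Rep ρ L μ B) :
    Rep ρ L (ν * μ) (A * B) := fun w => by
  rw [map_mul, Module.End.mul_apply, h2, h1, mulVec_mulVec]

theorem inv_app (ν : H) (v : V) : ρ ν⁻¹ (ρ ν v) = v := by
  rw [← Module.End.mul_apply, ← map_mul, inv_mul_cancel, map_one]
  rfl

theorem Rep.inv {ν : H} {A B : Matrix (Fin 3) (Fin 3) F} (h1 : Rep ρ L ν A) (h : A * B = 1) :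
    Rep ρ L ν⁻¹ B := fun w => by
  have := h1 (B *ᵥ w)
  rw [mulVec_mulVec, h, one_mulVec] at this
  rw [← this, inv_app]

theorem tv_inv {i j : Fin 3} (h : i ≠ j) (c : F) :
    transvection i j c * transvection i j (-c) = 1 := by
  rw [transvection_mul_transvection_same _ _ h, add_neg_cancel, transvection_zero]

/-- commutators of normalising elements centralise -/
theorem comm_of_norm {x a b : H} (ha : ∃ i : ℕ, a * x * a⁻¹ = x ^ i)
    (hb : ∃ i : ℕ, b * x * b⁻¹ = x ^ i) : Commute x (a⁻¹ * b⁻¹ * a * b) := by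
  obtain ⟨i, hi⟩ := ha
  obtain ⟨j, hj⟩ := hb
  have h1 : a * (b * x * b⁻¹) * a⁻¹ = b * (a * x * a⁻¹) * b⁻¹ := by
    rw [hi, hj, ← conj_pow, ← conj_pow, hi, hj, ← pow_mul, ← pow_mul, mul_comm]
  have h2 : x = a⁻¹ * b⁻¹ * (a * (b * x * b⁻¹) * a⁻¹) * (b * a) := by
    rw [h1]
    group
  show x * _ = _ * x
  conv_lhs => rw [h2]
  group

/-- the last step -/
theorem second {x : H} {U : Submodule F V}
    (hN : ∀ A B : Matrix (Fin 3) (Fin 3) F, A * B = 1 →
      ∃ ν, (∃ i : ℕ, ν * x * ν⁻¹ = x ^ i) ∧ Rep ρ L ν A)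
    (hC : ∀ a b : H, Commute x a → Commute x b → ∀ u ∈ U, ρ a (ρ b u) = ρ b (ρ a u)) (c : F) :
    ∃ h, Rep ρ L h (transvection 0 2 c) ∧ ∀ u ∈ U, ρ h u = u := by
  have key : ∀ (i l j : Fin 3) (s t : F), i ≠ l → l ≠ j → ∃ a, Commute x a ∧
      Rep ρ L a (transvection i l (-s) * transvection l j (-t) * transvection i l s *
        transvection l j t) := by
    intro i l j s t h1 h2
    obtain ⟨a, ha, ra⟩ := hN _ _ (tv_inv h1 s)
    obtain ⟨b, hb, rb⟩ := hN _ _ (tv_inv h2 t)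
    exact ⟨_, comm_of_norm ha hb,
      (((ra.inv (tv_inv h1 s)).mul (rb.inv (tv_inv h2 t))).mul ra).mul rb⟩
  obtain ⟨a, ha, ra⟩ := key 0 2 1 c 1 (by decide) (by decide)
  obtain ⟨b, hb, rb⟩ := key 1 0 2 1 1 (by decide) (by decide)
  have e1 : transvection (0 : Fin 3) 2 (-c) * transvection 2 1 (-1) * transvection 0 2 c *
      transvection 2 1 1 = transvection 0 1 c := by
    ext i j
    fin_cases i <;> fin_cases j <;>
      simp [mul_apply, Fin.sum_univ_three, transvection, single_apply, one_apply]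
  have e2 : transvection (1 : Fin 3) 0 (-1 : F) * transvection 0 2 (-1) * transvection 1 0 1 *
      transvection 0 2 1 = transvection 1 2 1 := by
    ext i j
    fin_cases i <;> fin_cases j <;>
      simp [mul_apply, Fin.sum_univ_three, transvection, single_apply, one_apply]
  have e3 : transvection (0 : Fin 3) 1 (-c) * transvection 1 2 (-1) * transvection 0 1 c *
      transvection 1 2 1 = transvection 0 2 c := by
    ext i j
    fin_cases i <;> fin_cases j <;>
      simp [mul_apply, Fin.sum_univ_three, transvection, single_apply, one_apply]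
  rw [e1] at ra
  rw [e2] at rb
  refine ⟨a⁻¹ * b⁻¹ * a * b, ?_, fun u hu => ?_⟩
  · rw [← e3]
    exact (((ra.inv (tv_inv (by decide) c)).mul (rb.inv (tv_inv (by decide) 1))).mul ra).mul rb
  · simp only [map_mul, Module.End.mul_apply]
    rw [hC a b ha hb u hu, inv_app, inv_app]

theorem has_of {U : Submodule F V} (hL : Function.Injective L) (hc : IsCompl (LinearMap.range L) U)
    (h : ∀ c : F, ∃ h, Rep ρ L h (transvection 0 2 c) ∧ ∀ u ∈ U, ρ h u = u) :
    ∃ (φ₀ : Dual F V) (v₀ : V), φ₀ ≠ 0 ∧ v₀ ≠ 0 ∧ φ₀ v₀ = 0 ∧ Has ρ φ₀ v₀ := by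
  let φ : Dual F V := LinearMap.ofIsCompl hc
    ((LinearMap.proj 2 : (Fin 3 → F) →ₗ[F] F) ∘ₗ (LinearEquiv.ofInjective L hL).symm.toLinearMap) 0
  have h1 : ∀ w, φ (L w) = w 2 := fun w => by
    have := LinearMap.ofIsCompl_apply_left hc
      (φ := (LinearMap.proj 2 : (Fin 3 → F) →ₗ[F] F) ∘ₗ
        (LinearEquiv.ofInjective L hL).symm.toLinearMap) (ψ := 0) (LinearEquiv.ofInjective L hL w)
    simpa using this
  have h2 : ∀ u ∈ U, φ u = 0 := fun u hu =>
    LinearMap.ofIsCompl_apply_right hc (ψ := 0) ⟨u, hu⟩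
  refine ⟨φ, L (Pi.single 0 1), fun h0 => ?_, fun h0 => ?_, by simp [h1], fun c => ?_⟩
  · have := h1 (Pi.single 2 1)
    simp [h0] at this
  · have := congrFun (hL (h0.trans (map_zero L).symm)) 0
    simp at this
  · obtain ⟨g, rg, hg⟩ := h c
    refine ⟨g, fun y => ?_⟩
    obtain ⟨_, ⟨w, rfl⟩, u, hu, rfl⟩ := Submodule.mem_sup.1
      (hc.sup_eq_top ▸ Submodule.mem_top : y ∈ LinearMap.range L ⊔ U)
    have : transvection 0 2 c *ᵥ w = w + (c * w 2) • Pi.single 0 1 := by
      ext i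
      fin_cases i <;>
        simp [transvection, mulVec, dotProduct, single_apply, Fin.sum_univ_three, one_apply]
    rw [map_add, rg, hg u hu, map_add, h1, h2 u hu, add_zero, this, map_add, map_smul]
    abel

end

theorem m1 (hz : ZsS) (hd : DownS) (hfr : FrS) (hfix : FixS) (hsp : SplitS) (hsch : SchS)
    (horb : OrbS) {F V H : Type} [Field F] [Finite F] [AddCommGroup V] [Module F V]
    [FiniteDimensional F V] [Group H] [Finite H] (ρ : H →* End F V) (hρ : Function.Injective ρ)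
    {m : ℕ} (hm : 7 ≤ m) (hV : finrank F V = m + 3) (ht : Tr ρ 4) :
    ∃ (φ₀ : Dual F V) (v₀ : V), φ₀ ≠ 0 ∧ v₀ ≠ 0 ∧ φ₀ v₀ = 0 ∧ Has ρ φ₀ v₀ := by
  have hq : 2 ≤ Nat.card F := Finite.one_lt_card
  obtain ⟨r, hr, hrm, hrd⟩ := hz _ m hq hm
  have ht3 : Tr ρ 3 := hd F V H ρ 3 (by omega) ht
  obtain ⟨e, he⟩ : ∃ e : Fin 3 → V, LinearIndependent F e :=
    exists_linearIndependent_of_le_finrank (by omega)
  have hK : r ∣ Nat.card (stab ρ e) := by
    refine Dvd.dvd.trans ?_ (horb F V H ρ 3 e (by omega) he ht)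
    rw [hV, pow_add, ← Nat.sub_one_mul]
    exact hrm.mul_right _
  obtain ⟨x, hx1, hxr, hx⟩ := hfr _ r hr hK
  have hrF : (r : F) ≠ 0 := fun h0 => by
    obtain ⟨t, ht⟩ := hrm
    have h1 : ((Nat.card F ^ m - 1 : ℕ) : F) = 0 := by rw [ht, Nat.cast_mul, h0, zero_mul]
    have := Fintype.ofFinite F
    rw [Nat.cast_sub (Nat.one_le_pow _ _ (by omega)), Nat.cast_pow, Nat.card_eq_fintype_card,
      FiniteField.cast_card_eq_zero, zero_pow (by omega)] at h1
    simp at h1
  set L := Fintype.linearCombination F e with hLd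
  have hL : Function.Injective L := linearIndependent_iff_injective_fintypeLinearCombination.1 he
  have hLe : ∀ i, L (Pi.single i 1) = e i := fun i => by simp [hLd]
  have rep : ∀ (ν : H) (A : Matrix (Fin 3) (Fin 3) F),
      (∀ i, ρ ν (e i) = L (A *ᵥ Pi.single i 1)) → Rep ρ L ν A := fun ν A h w => by
    have : ρ ν ∘ₗ L = L ∘ₗ A.mulVecLin := by
      ext i
      simpa [hLe] using h i
    exact DFunLike.congr_fun this w
  have rep1 : ∀ ν : H, ν ∈ stab ρ e ↔ Rep ρ L ν 1 := fun ν =>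
    ⟨fun h => rep ν 1 fun i => by rw [one_mulVec, hLe, h i],
      fun h i => by rw [← hLe, h, one_mulVec]⟩
  set X := ρ x.1 with hX
  have hXr : X ^ r = 1 := by
    rw [hX, ← map_pow, ← Subgroup.coe_pow, hxr, Subgroup.coe_one, map_one]
  have hX1 : X ≠ 1 := fun h => hx1 (Subtype.ext (hρ (h.trans (map_one ρ).symm)))
  have hc := hsp F V X r hrF hXr
  set U := LinearMap.range (X - 1) with hU
  have pres : ∀ a : End F V, Commute X a → ∀ u ∈ U, a u ∈ U := by
    rintro a ha _ ⟨v, rfl⟩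
    exact ⟨a v, DFunLike.congr_fun (ha.sub_left (Commute.one_left a)).eq v⟩
  have small : ∀ U' : Submodule F V, U' ≤ U → (∀ u ∈ U', X u ∈ U') →
      U' = ⊥ ∨ m ≤ finrank F U' := fun U' h1 h2 => by
    have := hfix F V X r U' hr hXr h2 fun u hu h0 =>
      (Submodule.disjoint_def.1 hc.disjoint) u (by simp [h0]) (h1 hu)
    by_contra hcon
    push Not at hcon
    exact hrd _ (Nat.pos_of_ne_zero fun h0 => hcon.1 (Submodule.finrank_eq_zero.1 h0)) hcon.2 this
  have hUb : U ≠ ⊥ := fun h => hX1 (sub_eq_zero.1 (LinearMap.range_eq_bot.1 h))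
  have hUm : m ≤ finrank F U := (small U le_rfl (pres X (Commute.refl X))).resolve_left hUb
  have hWle : LinearMap.range L ≤ LinearMap.ker (X - 1) := by
    rintro _ ⟨w, rfl⟩
    have := (rep1 x.1).1 x.2 w
    rw [one_mulVec] at this
    simp [hX, this]
  have hW3 : finrank F (LinearMap.range L) = 3 := by
    rw [LinearMap.finrank_range_of_inj hL]
    simp
  have hsum := LinearMap.finrank_range_add_finrank_ker (X - 1)
  have hmono := Submodule.finrank_mono hWle
  rw [← hU] at hsum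
  have hW : LinearMap.range L = LinearMap.ker (X - 1) :=
    Submodule.eq_of_le_of_finrank_le hWle (by omega)
  rw [← hW] at hc
  obtain ⟨s1, s2⟩ := hsch F V X U (pres X (Commute.refl X)) fun U' h1 h2 =>
    (small U' h1 h2).imp id fun h => Submodule.eq_of_le_of_finrank_le h1 (by omega)
  have hne : ∃ u ∈ U, X u ≠ u := by
    obtain ⟨u, hu, h0⟩ := (Submodule.ne_bot_iff U).1 hUb
    refine ⟨u, hu, fun h => h0 ?_⟩
    exact (Submodule.disjoint_def.1 hc.disjoint) u (by rw [hW]; simp [h]) hu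
  refine has_of hL hc (second (x := x.1) (fun A B hAB => ?_) fun a b ha hb =>
    s1 _ _ (pres _ (ha.map ρ)) (pres _ (hb.map ρ)) (ha.map ρ) (hb.map ρ))
  have hb : LinearIndependent F fun i => L (A *ᵥ Pi.single i 1) := by
    have hA : Function.Injective A.mulVecLin := fun v w h => by
      have := congrArg (B *ᵥ ·) h
      simpa [mulVec_mulVec, mul_eq_one_comm.1 hAB] using this
    have := (Pi.basisFun F (Fin 3)).linearIndependent.map' (L ∘ₗ A.mulVecLin)
      (LinearMap.ker_eq_bot.2 (hL.comp hA))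
    have e0 : (fun i => L (A *ᵥ Pi.single i 1)) =
        (L ∘ₗ A.mulVecLin) ∘ (Pi.basisFun F (Fin 3)) := by
      ext i
      simp
    rwa [e0]
  obtain ⟨ν, hν⟩ := ht3 e _ he hb
  have rν := rep ν A hν
  have hy : ν * x.1 * ν⁻¹ ∈ stab ρ e := by
    have := (rν.mul ((rep1 x.1).1 x.2)).mul (rν.inv hAB)
    rw [mul_one, hAB] at this
    exact (rep1 _).2 this
  obtain ⟨k, hk⟩ := hx ⟨_, hy⟩ (Subtype.ext (by
    rw [Subgroup.coe_pow, conj_pow, ← Subgroup.coe_pow, hxr]
    simp))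
  set y := k * ⟨_, hy⟩ * k⁻¹ with hyd
  have hyr : y ^ r = 1 := by
    rw [hyd, conj_pow, conj_eq_one_iff]
    exact Subtype.ext (by
      rw [Subgroup.coe_pow, conj_pow, ← Subgroup.coe_pow, hxr]
      simp)
  have hcm : Commute X (ρ y.1) := (hk.map (stab ρ e).subtype).map ρ
  obtain ⟨i, hi⟩ := s2 r (ρ y.1) hr hXr hne (pres _ hcm) hcm (by
    rw [← map_pow, ← Subgroup.coe_pow, hyr, Subgroup.coe_one, map_one])
  refine ⟨k.1 * ν, ⟨i, hρ ?_⟩, ?_⟩
  · have e0 : k.1 * ν * x.1 * (k.1 * ν)⁻¹ = y.1 := by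
      simp only [hyd, Subgroup.coe_mul, Subgroup.coe_inv]
      group
    rw [e0]
    ext v
    obtain ⟨_, ⟨w, rfl⟩, u, hu, rfl⟩ := Submodule.mem_sup.1
      (hc.sup_eq_top ▸ Submodule.mem_top : v ∈ LinearMap.range L ⊔ U)
    rw [map_add, map_add, (rep1 _).1 y.2, (rep1 _).1 (pow_mem x.2 i), hi u hu, map_pow]
  · have := ((rep1 k.1).1 k.2).mul rν
    rwa [one_mul] at this

end Pool.Agent.MP_b84581_al.L
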