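import Pool.Agent.MP_b84581_al.h50.SpecB

/-! The pointwise stabiliser of a tuple is transitive outside its span. -/

set_option autoImplicit false

namespace Pool.Agent.MP_b84581_al.L

open Module Submodule

theorem orb : OrbS := by
  intro F V H _ _ _ _ _ _ _ ρ j e hj he hT
  have : Finite V := Module.finite_of_finite F
  let _ : MulAction (stab ρ e) V := MulAction.compHom V (ρ.comp (stab ρ e).subtype)
  set W := span F (Set.range e) with hW
  have hd : finrank F W = j := by rw [hW, finrank_span_eq_card he, Fintype.card_fin]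
  obtain ⟨u, hu⟩ : ∃ u, u ∉ W := by
    by_contra h
    push Not at h
    rw [eq_top_iff'.2 h, finrank_top] at hd
    omega
  have fix : ∀ h : stab ρ e, ∀ w ∈ W, ρ h w = w := fun h w hw =>
    LinearMap.eqOn_span (f := ρ h) (g := LinearMap.id) (by
      rintro _ ⟨i, rfl⟩
      exact h.2 i) hw
  have ho : MulAction.orbit (stab ρ e) u = (W : Set V)ᶜ := by
    ext v
    constructor
    · rintro ⟨h, rfl⟩ hv
      have h1 := fix h⁻¹ _ hv
      change h⁻¹ • h • u = h • u at h1
      rw [inv_smul_smul] at h1
      exact hu (h1 ▸ hv)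
    · intro hv
      obtain ⟨h, hh⟩ := hT _ _ (linearIndependent_finCons.2 ⟨he, hu⟩)
        (linearIndependent_finCons.2 ⟨he, hv⟩)
      exact ⟨⟨h, fun i => hh i.succ⟩, hh 0⟩
  have h1 := (MulAction.stabilizer (stab ρ e) u).index_dvd_card
  have h2 := Set.ncard_add_ncard_compl (W : Set V)
  rw [← Nat.card_coe_set_eq, Module.natCard_eq_pow_finrank (K := F) (V := V),
    show Nat.card (W : Set V) = Nat.card F ^ j from hd ▸ Module.natCard_eq_pow_finrank] at h2
  rwa [MulAction.index_stabilizer, ho, Nat.eq_sub_of_add_eq' h2] at h1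

end Pool.Agent.MP_b84581_al.L
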