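import Pool.Agent.MP_b84581_al.h50.SpecB

/-! The commutant of an irreducible map on a finite space. -/

set_option autoImplicit false

namespace Pool.Agent.MP_b84581_al.L

open Module

namespace SchAux

variable {F U : Type} [Field F] [Finite F] [AddCommGroup U] [Module F U] [FiniteDimensional F U]

theorem isField [Nontrivial U] (x : End F U)
    (h : ∀ W : Submodule F U, (∀ u ∈ W, x u ∈ W) → W = ⊥ ∨ W = ⊤) :
    IsField (Subring.centralizer ({x} : Set (End F U))) := by
  have : Finite U := Module.finite_of_finite F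
  have : Finite (End F U) := Finite.of_injective _ DFunLike.coe_injective
  have : NoZeroDivisors (Subring.centralizer ({x} : Set (End F U))) := ⟨fun {a b} hab => by
    have ha : x * a.1 = a.1 * x := a.2 x rfl
    rcases h (LinearMap.ker a.1) (fun u hu => by
      rw [LinearMap.mem_ker] at hu ⊢
      rw [← End.mul_apply, ← ha, End.mul_apply, hu, map_zero]) with h1 | h1
    · refine Or.inr (Subtype.ext (LinearMap.ext fun u => LinearMap.ker_eq_bot.1 h1 ?_))
      have := congrArg (fun z : Subring.centralizer ({x} : Set (End F U)) => z.1 u) hab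
      simpa using this
    · exact Or.inl (Subtype.ext (LinearMap.ker_eq_top.1 h1))⟩
  have : IsDomain (Subring.centralizer ({x} : Set (End F U))) := NoZeroDivisors.to_isDomain _
  exact Finite.isDomain_to_isField _

theorem pow [Nontrivial U] (x y : End F U)
    (h : ∀ W : Submodule F U, (∀ u ∈ W, x u ∈ W) → W = ⊥ ∨ W = ⊤) {r : ℕ} (hr : r.Prime)
    (hx : x ^ r = 1) (hx1 : x ≠ 1) (hc : x * y = y * x) (hy : y ^ r = 1) : ∃ i : ℕ, y = x ^ i := by
  have := Fact.mk hr
  let _ := (isField x h).toField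
  let X : Subring.centralizer ({x} : Set (End F U)) := ⟨x, fun z hz => by rw [hz]⟩
  let Y : Subring.centralizer ({x} : Set (End F U)) := ⟨y, fun z hz => by rw [hz, hc]⟩
  have h1 : orderOf X = r := orderOf_eq_prime (Subtype.ext hx) fun e => hx1 (congrArg Subtype.val e)
  have h2 : IsPrimitiveRoot X r := h1 ▸ IsPrimitiveRoot.orderOf X
  obtain ⟨i, -, hi⟩ := h2.eq_pow_of_pow_eq_one (ξ := Y) (Subtype.ext hy)
  exact ⟨i, (congrArg Subtype.val hi).symm⟩

end SchAux

theorem sch : SchS := by
  intro F V _ _ _ _ _ x U hx hU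
  have hirr : ∀ W : Submodule F U, (∀ u ∈ W, x.restrict hx u ∈ W) → W = ⊥ ∨ W = ⊤ := by
    intro W hW
    rcases hU (W.map U.subtype) (U.map_subtype_le W) (by
      rintro _ ⟨u, hu, rfl⟩
      exact ⟨_, hW u hu, rfl⟩) with h | h
    · exact Or.inl (Submodule.map_injective_of_injective U.injective_subtype (by simpa using h))
    · exact Or.inr (Submodule.map_injective_of_injective U.injective_subtype (by simpa using h))
  have hcm : ∀ (a : End F V) (ha : ∀ u ∈ U, a u ∈ U), Commute x a →
      x.restrict hx * a.restrict ha = a.restrict ha * x.restrict hx := fun a ha hc =>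
    LinearMap.ext fun u => Subtype.ext (LinearMap.congr_fun hc.eq u)
  have hpw : ∀ (a : End F V) (ha : ∀ u ∈ U, a u ∈ U) (n : ℕ) (u : U),
      ((a.restrict ha ^ n) u : V) = (a ^ n) u := fun a ha n u => by
    rw [End.pow_restrict n ha]
    rfl
  rcases subsingleton_or_nontrivial U with h0 | h0
  · have hz : ∀ u ∈ U, u = 0 := fun u hu => congrArg Subtype.val (Subsingleton.elim ⟨u, hu⟩ (0 : U))
    exact ⟨fun a b _ _ _ _ u hu => by simp [hz u hu],
      fun r y _ _ _ _ _ _ => ⟨0, fun u hu => by simp [hz u hu]⟩⟩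
  refine ⟨fun a b ha hb ca cb u hu => ?_, fun r y hr hxr ⟨u, hu, hne⟩ hy hc hyr => ?_⟩
  · have := (SchAux.isField _ hirr).mul_comm ⟨a.restrict ha, fun z hz => by rw [hz, hcm a ha ca]⟩
      ⟨b.restrict hb, fun z hz => by rw [hz, hcm b hb cb]⟩
    exact congrArg (fun z : Subring.centralizer ({x.restrict hx} : Set (End F U)) =>
      (z.1 ⟨u, hu⟩ : V)) this
  · obtain ⟨i, hi⟩ := SchAux.pow (x.restrict hx) (y.restrict hy) hirr hr
      (LinearMap.ext fun v => Subtype.ext (by rw [hpw, hxr]; rfl))
      (fun e => hne (congrArg (fun z : End F U => (z ⟨u, hu⟩ : V)) e)) (hcm y hy hc)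
      (LinearMap.ext fun v => Subtype.ext (by rw [hpw, hyr]; rfl))
    refine ⟨i, fun v hv => ?_⟩
    rw [← hpw x hx i ⟨v, hv⟩, ← hi]
    rfl

end Pool.Agent.MP_b84581_al.L
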