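import Pool.Agent.MP_b84581_al.Giant
import Pool.Agent.MP_b84581_al.h50.Zs
import Pool.Agent.MP_b84581_al.h50.All
import Pool.Agent.MP_b84581_al.h50.Sl
import Pool.Agent.MP_b84581_al.h50.Fr
import Pool.Agent.MP_b84581_al.h50.Orb
import Pool.Agent.MP_b84581_al.h50.Sch
import Pool.Agent.MP_b84581_al.h50.M1

/-! Nielsen equivalence in special linear groups. -/

set_option autoImplicit false

namespace Pool.Agent.MP_b84581_al.L

open Module Matrix

variable {F : Type} [Field F] {n : ℕ}

/-- the natural module of a subgroup -/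
noncomputable def nat (H : Subgroup (SpecialLinearGroup (Fin n) F)) : H →* End F (Fin n → F) :=
  (toLinAlgEquiv' : Matrix (Fin n) (Fin n) F ≃ₐ[F] End F (Fin n → F)).toMonoidHom.comp
    (SpecialLinearGroup.coeMonoidHom.comp H.subtype)

theorem nat_apply (H : Subgroup (SpecialLinearGroup (Fin n) F)) (h : H) (v : Fin n → F) :
    nat H h v = h.1.1 *ᵥ v := rfl

theorem nat_inj (H : Subgroup (SpecialLinearGroup (Fin n) F)) : Function.Injective (nat H) :=
  fun _ _ h => Subtype.ext (Subtype.ext (toLinAlgEquiv'.injective h))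

/-- only the whole group is transitive on independent quadruples -/
theorem eq_top_of_tr [Finite F] (hn : 10 ≤ n)
    (H : Subgroup (SpecialLinearGroup (Fin n) F)) (ht : Tr (nat H) 4) : H = ⊤ := by
  have hV : finrank F (Fin n → F) = n - 3 + 3 := by
    rw [finrank_fin_fun]
    omega
  obtain ⟨φ₀, v₀, h1, h2, h3, h4⟩ :=
    m1 zs down fr fix split sch orb (nat H) (nat_inj H) (by omega) hV ht
  have t2 : Tr (nat H) 2 := down _ _ _ _ 2 (by omega) (down _ _ _ _ 3 (by omega) ht)
  refine slGen F n H fun i j hij c => ?_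
  obtain ⟨h, hh⟩ := allS _ _ _ _ t2 φ₀ v₀ h1 h2 h3 h4 (LinearMap.proj j) (Pi.single i 1)
    (by simp [hij.symm]) c
  have : h.1 = SpecialLinearGroup.transvection hij c := by
    refine Subtype.ext (toLin'.injective (LinearMap.ext fun y => ?_))
    rw [toLin'_apply, ← nat_apply, hh, toLin'_apply, SpecialLinearGroup.transvection_coe,
      add_mulVec, one_mulVec, single_mulVec]
    ext a
    by_cases ha : a = i
    · simp [ha]
    · simp [ha]
  exact this ▸ h.2

/-- independent quadruples -/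
def quad (F : Type) [Field F] (n : ℕ) :
    SubMulAction (SpecialLinearGroup (Fin n) F) (Fin 4 → Fin n → F) where
  carrier := {a | LinearIndependent F a}
  smul_mem' := fun g _ ha =>
    ha.map' (SpecialLinearGroup.toLin' g).toLinearMap (LinearEquiv.ker _)

theorem ne_sl [Finite F] (hn : 10 ≤ n) {k : ℕ}
    (hk : 24 * n * Nat.clog 2 (Nat.card F) ≤ k) {g h : Fin k → SpecialLinearGroup (Fin n) F}
    (hg : Subgroup.closure (Set.range g) = ⊤) (hh : Subgroup.closure (Set.range h) = ⊤) :
    NE g h := by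
  have : MulAction.IsPretransitive (SpecialLinearGroup (Fin n) F) (quad F n) := ⟨fun a b => by
    obtain ⟨g, hg⟩ := slTr F n 4 (by omega) a.1 b.1 a.2 b.2
    exact ⟨g, Subtype.ext (funext hg)⟩⟩
  refine ne_of_action (Ω := quad F n) (e := Nat.clog 2 (Nat.card F) * (n * 4))
    (fun H hH => eq_top_of_tr hn H fun a b ha hb => ?_) ?_ ?_ hg hh
  · obtain ⟨h, e⟩ := hH.exists_smul_eq ⟨a, ha⟩ ⟨b, hb⟩
    exact ⟨h, fun i => congrFun (congrArg Subtype.val e) i⟩
  · refine (Nat.card_le_card_of_injective _ Subtype.val_injective).trans ?_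
    rw [Nat.card_fun, Nat.card_fun, pow_mul, pow_mul]
    simp only [Nat.card_eq_fintype_card, Fintype.card_fin]
    gcongr
    exact Nat.le_pow_clog (by norm_num) _
  · rw [Fintype.card_fin]
    nlinarith

theorem lift_gen (hn : 3 ≤ n) {k : ℕ}
    (f : FreeGroup (Fin k) →* ProjectiveSpecialLinearGroup (Fin n) F)
    (hf : Function.Surjective f) : ∃ g : Fin k → SpecialLinearGroup (Fin n) F,
      Subgroup.closure (Set.range g) = ⊤ ∧
      ∀ w, f w = QuotientGroup.mk' _ (FreeGroup.lift g w) := by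
  choose g hg using fun i => QuotientGroup.mk'_surjective
    (Subgroup.center (SpecialLinearGroup (Fin n) F)) (f (FreeGroup.of i))
  have e : f = (QuotientGroup.mk' _).comp (FreeGroup.lift g) := by
    ext i
    simp only [MonoidHom.comp_apply, FreeGroup.lift_apply_of, hg]
  refine ⟨g, slPer F n hn _ ?_, fun w => by rw [e]; rfl⟩
  rw [eq_top_iff]
  intro y _
  obtain ⟨w, hw⟩ := hf (QuotientGroup.mk' _ y)
  rw [e] at hw
  obtain ⟨z, hz, rfl⟩ := (QuotientGroup.mk'_eq_mk' _).1 hw
  refine mul_mem (Subgroup.mem_sup_left ?_) (Subgroup.mem_sup_right hz)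
  rw [← FreeGroup.range_lift_eq_closure]
  exact ⟨w, rfl⟩

theorem psl [Finite F] (hn : 10 ≤ n) {k : ℕ}
    (hk : 24 * n * Nat.clog 2 (Nat.card F) ≤ k)
    (f g : FreeGroup (Fin k) →* ProjectiveSpecialLinearGroup (Fin n) F)
    (hf : Function.Surjective f) (hg : Function.Surjective g) :
    ∃ φ : FreeGroup (Fin k) ≃* FreeGroup (Fin k), ∀ w, f w = g (φ w) := by
  obtain ⟨a, ha, ea⟩ := lift_gen (by omega) f hf
  obtain ⟨b, hb, eb⟩ := lift_gen (by omega) g hg
  obtain ⟨φ, hφ⟩ := ne_sl hn hk hb ha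
  exact ⟨φ, fun w => by rw [ea, eb, hφ]⟩

end Pool.Agent.MP_b84581_al.L
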