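import Pool.Agent.MP_b84581_al.h50.M1
import Pool.Agent.MP_b84581_al.h50.Fr
import Pool.Agent.MP_b84581_al.h50.Sch

/-! The Frattini argument in a linear group with a distinguished splitting. -/

set_option autoImplicit false

namespace Pool.Agent.MP_b84581_al.L

open Module
open scoped commutatorElement

/-- an element of prime order without fixed points on an orbit -/
theorem dvd_card_of_free {G X : Type} [Group G] [Finite G] [MulAction G X] {K L : Subgroup G}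
    (hKL : K ≤ L) (u : X) (ht : ∀ g ∈ L, ∃ h ∈ K, h • u = g • u) {x : G} (hx : x ∈ L) {r : ℕ}
    (hr : r.Prime) (hxr : x ^ r = 1) (hf : ∀ g ∈ L, x • g • u ≠ g • u) : r ∣ Nat.card K := by
  have := Fact.mk hr
  have : Finite (MulAction.orbit K u) := (Set.finite_range _).to_subtype
  have := Fintype.ofFinite (MulAction.orbit K u)
  have hm : ∀ v ∈ MulAction.orbit K u, x • v ∈ MulAction.orbit K u := by
    rintro _ ⟨k, rfl⟩
    obtain ⟨h, hh, e⟩ := ht (x * k.1) (mul_mem hx (hKL k.2))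
    exact ⟨⟨h, hh⟩, e.trans (mul_smul _ _ _)⟩
  let f : Function.End (MulAction.orbit K u) := fun v => ⟨x • v.1, hm _ v.2⟩
  have hp : ∀ (n : ℕ) v, ((f ^ n) v).1 = x ^ n • v.1 := by
    intro n
    induction n with
    | zero => intro v; simp [Function.End.one_def]
    | succ n ih =>
      intro v
      rw [pow_succ, pow_succ, mul_smul]
      exact ih (f v)
  classical
  have h1 := Equiv.Perm.card_fixedPoints_modEq (f := f) (p := r) (n := 1) (by
    funext v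
    exact Subtype.ext (by rw [pow_one, hp, hxr, one_smul]; rfl))
  have h2 : Fintype.card f.fixedPoints = 0 := Fintype.card_eq_zero_iff.2 ⟨by
    rintro ⟨⟨_, k, rfl⟩, hv⟩
    exact hf k.1 (hKL k.2) (congrArg Subtype.val hv)⟩
  rw [h2] at h1
  refine ((Nat.modEq_zero_iff_dvd.1 h1).trans ?_)
  rw [← Nat.card_eq_fintype_card, Nat.card_coe_set_eq, ← MulAction.index_stabilizer]
  exact Subgroup.index_dvd_card _

theorem m2 {F V G : Type} [Field F] [Finite F] [AddCommGroup V] [Module F V]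
    [FiniteDimensional F V] [Group G] [Finite G] (ρ : G →* End F V) (hρ : Function.Injective ρ)
    {W U : Submodule F V} (hc : IsCompl W U) {r : ℕ} (hr : r.Prime)
    (hrd : ∀ d : ℕ, 0 < d → d < finrank F U → ¬ r ∣ Nat.card F ^ d - 1) (hrF : (r : F) ≠ 0)
    {x₀ : G} (h01 : x₀ ≠ 1) (h0r : x₀ ^ r = 1) (h0W : ∀ w ∈ W, ρ x₀ w = w)
    (hP : ∀ g, (∀ w ∈ W, ρ g w = w) → ∀ v, ρ g v - v ∈ U) {R : Subgroup G} (hR : ⁅R, R⁆ = R)
    (hRW : ∀ p ∈ R, ∀ w ∈ W, ρ p w ∈ W) (hRU : ∀ p ∈ R, ∀ u ∈ U, ρ p u = u) {u₀ : V}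
    (hu₀ : u₀ ∉ W) {H : Subgroup G}
    (hH : ∀ g, ∃ h ∈ H, (∀ w ∈ W, ρ h w = ρ g w) ∧ ρ h u₀ = ρ g u₀) :
    ∀ p ∈ R, ∀ g, g * p * g⁻¹ ∈ H := by
  have dec : ∀ v, ∃ w ∈ W, ∃ u ∈ U, w + u = v := fun v =>
    Submodule.mem_sup.1 (hc.sup_eq_top ▸ Submodule.mem_top : v ∈ W ⊔ U)
  have ext2 : ∀ a b : G, (∀ w ∈ W, ρ a w = ρ b w) → (∀ u ∈ U, ρ a u = ρ b u) → a = b :=
    fun a b h1 h2 => hρ (LinearMap.ext fun v => by
      obtain ⟨w, hw, u, hu, rfl⟩ := dec v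
      rw [map_add, map_add, h1 w hw, h2 u hu])
  let L : Subgroup G :=
    { carrier := {g | ∀ w ∈ W, ρ g w = w}
      one_mem' := fun w _ => by simp
      mul_mem' := fun {a b} ha hb w hw => by
        rw [map_mul, Module.End.mul_apply, hb w hw, ha w hw]
      inv_mem' := fun {a} ha w hw => by
        conv_lhs => rw [← ha w hw, inv_app] }
  have presL : ∀ g ∈ L, ∀ u ∈ U, ρ g u ∈ U := fun g hg u hu => by
    simpa using add_mem (hP g hg u) hu
  have small : ∀ x ∈ L, x ^ r = 1 → ∀ U' : Submodule F V, U' ≤ LinearMap.range (ρ x - 1) →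
      (∀ u ∈ U', ρ x u ∈ U') → U' = ⊥ ∨ finrank F U ≤ finrank F U' := fun x _ hx U' h1 h2 => by
    have hX : ρ x ^ r = 1 := by rw [← map_pow, hx, map_one]
    have := fix F V (ρ x) r U' hr hX h2 fun u hu h0 =>
      (Submodule.disjoint_def.1 (split F V _ r hrF hX).disjoint) u (by simp [h0]) (h1 hu)
    by_contra hcon
    push Not at hcon
    exact hrd _ (Nat.pos_of_ne_zero fun h0 => hcon.1 (Submodule.finrank_eq_zero.1 h0)) hcon.2 this
  have hrange : ∀ x ∈ L, x ≠ 1 → x ^ r = 1 → LinearMap.range (ρ x - 1) = U := by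
    intro x hx h1 hxr
    refine Submodule.eq_of_le_of_finrank_le (by rintro _ ⟨v, rfl⟩; exact hP x hx v)
      ((small x hx hxr _ le_rfl ?_).resolve_left fun h =>
        h1 (hρ ((sub_eq_zero.1 (LinearMap.range_eq_bot.1 h)).trans (map_one ρ).symm)))
    rintro _ ⟨v, rfl⟩
    exact ⟨ρ x v, by simp⟩
  have hfix : ∀ x ∈ L, x ≠ 1 → x ^ r = 1 → ∀ v, ρ x v = v → v ∈ W := by
    intro x hx h1 hxr v hv
    obtain ⟨w, hw, u, hu, rfl⟩ := dec v
    rw [map_add, hx w hw, add_right_inj] at hv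
    have hd := (split F V (ρ x) r hrF (by rw [← map_pow, hxr, map_one])).disjoint
    rw [hrange x hx h1 hxr] at hd
    rw [Submodule.disjoint_def.1 hd u (by simp [hv]) hu, add_zero]
    exact hw
  have hK : r ∣ Nat.card (H ⊓ L : Subgroup G) := by
    let : MulAction G V := MulAction.compHom V ρ
    refine dvd_card_of_free (L := L) inf_le_right u₀ (fun g hg => ?_) h0W hr h0r fun g hg e => ?_
    · obtain ⟨h, hh, e1, e2⟩ := hH g
      exact ⟨h, ⟨hh, fun w hw => (e1 w hw).trans (hg w hw)⟩, e2⟩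
    · have h1 := hfix x₀ h0W h01 h0r (ρ g u₀) e
      have h2 := L.inv_mem hg _ h1
      rw [inv_app] at h2
      exact hu₀ (h2 ▸ h1)
  obtain ⟨x', hx1', hxr', hx⟩ := fr _ r hr hK
  obtain ⟨x, hxH, hxL⟩ := x'
  have hx1 : x ≠ 1 := fun h => hx1' (Subtype.ext h)
  replace hxH : x ∈ H := hxH
  replace hxL : x ∈ L := hxL
  have hxr : x ^ r = 1 := congrArg Subtype.val hxr'
  have hU := hrange x hxL hx1 hxr
  have pres : ∀ a : G, Commute x a → ∀ u ∈ U, ρ a u ∈ U := by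
    rw [← hU]
    rintro a ha _ ⟨v, rfl⟩
    exact ⟨ρ a v, DFunLike.congr_fun ((ha.map ρ).sub_left (Commute.one_left _)).eq v⟩
  obtain ⟨s1, s2⟩ := sch F V (ρ x) U (presL x hxL) fun U' h1 h2 =>
    (small x hxL hxr U' (hU ▸ h1) h2).imp id fun h => Submodule.eq_of_le_of_finrank_le h1 h
  have hne : ∃ u ∈ U, ρ x u ≠ u := by
    by_contra hcon
    push Not at hcon
    exact hx1 (ext2 x 1 (fun w hw => by rw [hxL w hw]; simp) fun u hu => by rw [hcon u hu]; simp)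
  have agi : ∀ a, ∀ p ∈ R, (∀ w ∈ W, ρ a w = ρ p w) → ∀ w ∈ W, ρ a⁻¹ w = ρ p⁻¹ w := by
    intro a p hp h w hw
    have := h _ (hRW _ (inv_mem hp) w hw)
    rw [← Module.End.mul_apply (ρ p), ← map_mul, mul_inv_cancel, map_one,
      Module.End.one_apply] at this
    conv_lhs => rw [← this, inv_app]
  have agm : ∀ a b p, ∀ q ∈ R, (∀ w ∈ W, ρ a w = ρ p w) → (∀ w ∈ W, ρ b w = ρ q w) →
      ∀ w ∈ W, ρ (a * b) w = ρ (p * q) w := fun a b p q hq h1 h2 w hw => by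
    rw [map_mul, map_mul, Module.End.mul_apply, Module.End.mul_apply, h2 w hw,
      h1 _ (hRW q hq w hw)]
  have agc : ∀ a b, ∀ p ∈ R, ∀ q ∈ R, (∀ w ∈ W, ρ a w = ρ p⁻¹ w) → (∀ w ∈ W, ρ b w = ρ q⁻¹ w) →
      ∀ w ∈ W, ρ (a⁻¹ * b⁻¹ * a * b) w = ρ ⁅p, q⁆ w := fun a b p hp q hq h1 h2 => by
    have h3 := agi a _ (inv_mem hp) h1
    have h4 := agi b _ (inv_mem hq) h2
    rw [inv_inv] at h3 h4
    exact agm _ _ _ _ (inv_mem hq) (agm _ _ _ _ (inv_mem hp) (agm _ _ _ _ hq h3 h4) h1) h2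
  have hN : ∀ p ∈ R, ∃ ν ∈ H, (∃ i : ℕ, ν * x * ν⁻¹ = x ^ i) ∧ ∀ w ∈ W, ρ ν w = ρ p w := by
    intro p hp
    obtain ⟨h, hh, e, -⟩ := hH p
    have hy : h * x * h⁻¹ ∈ H ⊓ L :=
      ⟨H.mul_mem (H.mul_mem hh hxH) (H.inv_mem hh), fun w hw => by
      rw [map_mul, map_mul, Module.End.mul_apply, Module.End.mul_apply, agi h p hp e w hw,
        hxL _ (hRW _ (inv_mem hp) w hw), ← agi h p hp e w hw, ← Module.End.mul_apply, ← map_mul]
      simp⟩
    have hyr : (h * x * h⁻¹) ^ r = 1 := by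
      rw [conj_pow, hxr]
      simp
    obtain ⟨⟨k, hkH, hkL⟩, hk⟩ := hx ⟨_, hy⟩ (Subtype.ext hyr)
    have hk' : Commute x (k * (h * x * h⁻¹) * k⁻¹) := hk.map (H ⊓ L).subtype
    replace hkH : k ∈ H := hkH
    replace hkL : k ∈ L := hkL
    have hzL : k * (h * x * h⁻¹) * k⁻¹ ∈ L := mul_mem (mul_mem hkL hy.2) (inv_mem hkL)
    obtain ⟨i, hi⟩ := s2 r _ hr (by rw [← map_pow, hxr, map_one]) hne (presL _ hzL) (hk'.map ρ)
      (by rw [← map_pow, conj_pow, hyr]; simp)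
    refine ⟨k * h, mul_mem hkH hh, ⟨i, ?_⟩, fun w hw => ?_⟩
    · have e0 : k * h * x * (k * h)⁻¹ = k * (h * x * h⁻¹) * k⁻¹ := by group
      rw [e0]
      exact ext2 _ _ (fun w hw => by rw [hzL w hw, pow_mem hxL i w hw])
        fun u hu => by rw [hi u hu, map_pow]
    · rw [map_mul, Module.End.mul_apply, e w hw, hkL _ (hRW p hp w hw)]
  let T : Subgroup G :=
    { carrier := {p | p ∈ R ∧ ∃ c ∈ H, Commute x c ∧ ∀ w ∈ W, ρ c w = ρ p w}
      one_mem' := ⟨one_mem _, 1, one_mem _, Commute.one_right _, fun _ _ => rfl⟩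
      mul_mem' := fun {a b} ⟨ha, c, hc, h1, h2⟩ ⟨hb, d, hd, h3, h4⟩ =>
        ⟨mul_mem ha hb, c * d, mul_mem hc hd, h1.mul_right h3, agm _ _ _ _ hb h2 h4⟩
      inv_mem' := fun {a} ⟨ha, c, hc, h1, h2⟩ =>
        ⟨inv_mem ha, c⁻¹, inv_mem hc, h1.inv_right, agi _ _ ha h2⟩ }
  have hcm : ∀ p ∈ R, ∀ q ∈ R, ⁅p, q⁆ ∈ R := fun p hp q hq =>
    hR ▸ Subgroup.commutator_mem_commutator hp hq
  have hT : R ≤ T := by
    refine hR.ge.trans (Subgroup.commutator_le.2 fun p hp q hq => ?_)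
    obtain ⟨a, ha, na, ea⟩ := hN _ (inv_mem hp)
    obtain ⟨b, hb, nb, eb⟩ := hN _ (inv_mem hq)
    exact ⟨hcm p hp q hq, _, mul_mem (mul_mem (mul_mem (inv_mem ha) (inv_mem hb)) ha) hb,
      comm_of_norm na nb, agc a b p hp q hq ea eb⟩
  have hRH : R ≤ H := by
    refine hR.ge.trans (Subgroup.commutator_le.2 fun p hp q hq => ?_)
    obtain ⟨-, a, ha, na, ea⟩ := hT (inv_mem hp)
    obtain ⟨-, b, hb, nb, eb⟩ := hT (inv_mem hq)
    rw [← ext2 _ _ (agc a b p hp q hq ea eb) fun u hu => ?_]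
    · exact mul_mem (mul_mem (mul_mem (inv_mem ha) (inv_mem hb)) ha) hb
    · rw [hRU _ (hcm p hp q hq) u hu]
      simp only [map_mul, Module.End.mul_apply]
      rw [s1 _ _ (pres a na) (pres b nb) (na.map ρ) (nb.map ρ) u hu, inv_app, inv_app]
  intro p hp g
  obtain ⟨h, hh, e, -⟩ := hH g
  have ht : h⁻¹ * g ∈ L := fun w hw => by
    rw [map_mul, Module.End.mul_apply, ← e w hw, inv_app]
  have hcom : (h⁻¹ * g) * p = p * (h⁻¹ * g) := ext2 _ _
    (fun w hw => by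
      rw [map_mul, map_mul ρ p, Module.End.mul_apply, Module.End.mul_apply, ht w hw,
        ht _ (hRW p hp w hw)])
    fun u hu => by
      rw [map_mul, map_mul ρ p, Module.End.mul_apply, Module.End.mul_apply, hRU p hp u hu,
        hRU p hp _ (presL _ ht u hu)]
  have e1 : g * p * g⁻¹ = h * p * h⁻¹ := by
    calc g * p * g⁻¹ = h * (h⁻¹ * g * p) * g⁻¹ := by group
      _ = h * p * h⁻¹ := by rw [hcom]; group
  rw [e1]
  exact mul_mem (mul_mem hh (hRH hp)) (inv_mem hh)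

end Pool.Agent.MP_b84581_al.L
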