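import Pool.Agent.MP_b84581_al.Giant
import Pool.Agent.MP_b84581_al.h50.Zs
import Pool.Agent.MP_b84581_al.h50.All
import Pool.Agent.MP_b84581_al.h50.Orb
import Pool.Agent.MP_b84581_al.h50.M2
import Pool.Agent.MP_b84581_al.h50.CPerp
import Pool.Agent.MP_b84581_al.h50.CHyp
import Pool.Agent.MP_b84581_al.h50.CEmb
import Pool.Agent.MP_b84581_al.h50.CExt
import Pool.Agent.MP_b84581_al.h50.CMod
import Pool.Agent.MP_b84581_al.h50.CInv
import Pool.Agent.MP_b84581_al.h50.CUni
import Pool.Agent.MP_b84581_al.h50.CAlt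
import Pool.Agent.MP_b84581_al.h50.CTr
import Pool.Agent.MP_b84581_al.h50.CLin

/-! Nielsen equivalence in the simple classical groups. -/

set_option autoImplicit false

namespace Pool.Agent.MP_b84581_al.C

open Module Pool.Agent.MP_b84581_al.L

/-- all surjections from the free group of rank `k` are equivalent -/
def One (S : Type) [Group S] (k : ℕ) : Prop := ∀ f g : FreeGroup (Fin k) →* S,
  Function.Surjective f → Function.Surjective g →
  ∃ φ : FreeGroup (Fin k) ≃* FreeGroup (Fin k), ∀ w, f w = g (φ w)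

section
variable {G S : Type} [Group G] [Group S] (π : G →* S)

theorem of_index [Finite G] (hπ : Function.Surjective π) (A : Subgroup G)
    (hA : ∀ H : Subgroup G, π.ker ≤ H → (∀ g, ∃ h ∈ H, h⁻¹ * g ∈ A) → H = ⊤) {e k : ℕ}
    (he : A.index ≤ 2 ^ e) (hk : 6 * e ≤ k) : One S k := by
  intro f g hf hg
  have := Finite.of_surjective π hπ
  have key : ∀ f : FreeGroup (Fin k) →* S, FreeGroup.lift (fun i => f (FreeGroup.of i)) = f :=
    fun f => by ext; simp
  have gen : ∀ f : FreeGroup (Fin k) →* S, Function.Surjective f →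
      Subgroup.closure (Set.range fun i => f (FreeGroup.of i)) = ⊤ := fun f hf => by
    rw [← FreeGroup.range_lift_eq_closure, key, MonoidHom.range_eq_top.2 hf]
  have := ne_of_action (Ω := S ⧸ A.map π) (e := e) (fun H hH => ?_)
    ((Nat.le_of_dvd (Nat.pos_of_ne_zero Subgroup.index_ne_zero_of_finite)
      (A.index_map_dvd hπ)).trans he) (by simpa using hk) (gen g hg) (gen f hf)
  · obtain ⟨φ, h⟩ := this
    rw [key, key] at h
    exact ⟨φ, h⟩
  · refine Subgroup.comap_injective hπ (hA _ (Subgroup.ker_le_comap _ _) fun g => ?_)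
    obtain ⟨h, e⟩ := hH.exists_smul_eq ((1 : S) : S ⧸ A.map π) ((π g : S) : S ⧸ A.map π)
    obtain ⟨a, ha, ea⟩ := QuotientGroup.eq.1 (show ((h.1 * 1 : S) : S ⧸ A.map π) = _ from e)
    refine ⟨g * a⁻¹, ?_, by simpa using ha⟩
    rw [Subgroup.mem_comap, map_mul, map_inv, ea]
    simp

theorem top_of_conj [IsSimpleGroup S] (hπ : Function.Surjective π) {H : Subgroup G}
    (hH : π.ker ≤ H) {p : G} (hp : p ∉ π.ker) (h : ∀ g, g * p * g⁻¹ ∈ H) : H = ⊤ := by
  rcases (H.normalCore_normal.map π hπ).eq_bot_or_eq_top with h1 | h1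
  · exact absurd ((Subgroup.map_eq_bot_iff _).1 h1 (show p ∈ H.normalCore from h)) hp
  · rw [eq_top_iff]
    intro g _
    obtain ⟨a, ha, e⟩ : π g ∈ H.normalCore.map π := h1 ▸ Subgroup.mem_top _
    have : a⁻¹ * g ∈ H := hH (by simp [MonoidHom.mem_ker, e])
    simpa using mul_mem (H.normalCore_le ha) this

variable {F V : Type} [Field F] [Finite F] [AddCommGroup V] [Module F V] [FiniteDimensional F V]

theorem of_tuple [Finite G] (hπ : Function.Surjective π) (ρ : G →* End F V) {j : ℕ}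
    (e : Fin j → V) (hA : ∀ H : Subgroup G, π.ker ≤ H →
      (∀ g, ∃ h ∈ H, ∀ i, ρ h (e i) = ρ g (e i)) → H = ⊤) {k : ℕ}
    (hk : 6 * j * finrank F V * Nat.clog 2 (Nat.card F) ≤ k) : One S k := by
  have := Module.finite_of_finite F (M := V)
  let : MulAction G V := MulAction.compHom V ρ
  refine of_index π hπ (MulAction.stabilizer G e) (fun H h1 h2 => hA H h1 fun g => ?_)
    (e := Nat.clog 2 (Nat.card F) * finrank F V * j) ?_ (by nlinarith)
  · obtain ⟨h, hh, e1⟩ := h2 g
    refine ⟨h, hh, fun i => ?_⟩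
    have e2 : ρ (h⁻¹ * g) (e i) = e i := congrFun e1 i
    conv_lhs => rw [← e2, ← Module.End.mul_apply, ← map_mul, mul_inv_cancel_left]
  · rw [MulAction.index_stabilizer]
    refine (Set.ncard_le_card _).trans ?_
    rw [Nat.card_fun, Module.natCard_eq_pow_finrank (K := F), pow_mul, pow_mul]
    simp only [Nat.card_eq_fintype_card, Fintype.card_fin]
    gcongr
    exact Nat.le_pow_clog (by norm_num) _

theorem of_small [Finite G] (hπ : Function.Surjective π) (ρ : G →* End F V)
    (hρ : Function.Injective ρ) {k : ℕ}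
    (hk : 6 * finrank F V * finrank F V * Nat.clog 2 (Nat.card F) ≤ k) : One S k := by
  refine of_tuple π hπ ρ (Module.finBasis F V) (fun H _ h => ?_) hk
  rw [eq_top_iff]
  intro g _
  obtain ⟨h, hh, e⟩ := h g
  exact hρ ((Module.finBasis F V).ext e) ▸ hh

end

section
variable {F V : Type} [Field F] [AddCommGroup V] [Module F V]

/-- the natural module of the derived group -/
def der (Γ : Subgroup (V ≃ₗ[F] V)) : commutator Γ →* End F V :=
  LinearEquiv.automorphismGroup.toLinearMapMonoidHom.comp (Γ.subtype.comp (commutator Γ).subtype)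

theorem der_inj (Γ : Subgroup (V ≃ₗ[F] V)) : Function.Injective (der Γ) :=
  fun _ _ h => Subtype.ext (Subtype.ext (LinearEquiv.toLinearMap_injective h))

theorem map_der {A B : Type} [Group A] [Group B] (j : A →* B) {x : A} (hx : x ∈ commutator A) :
    j x ∈ commutator B := by
  have : j x ∈ (commutator A).map j := ⟨x, hx, rfl⟩
  rw [commutator, Subgroup.map_commutator] at this
  exact Subgroup.commutator_mono le_top le_top this

variable [Finite F] [FiniteDimensional F V] {S : Type} [Group S] [IsSimpleGroup S]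

theorem fin_der (Γ : Subgroup (V ≃ₗ[F] V)) : Finite (commutator Γ) := by
  have := Module.finite_of_finite F (M := V)
  have : Finite (V ≃ₗ[F] V) := Finite.of_injective _ DFunLike.coe_injective
  infer_instance

theorem form_case {P : Par F}
    (hU : Uni P) (hM : ∀ N, 8 ≤ N → Mod P N ∨ Mod P (N + 1)) (f : Form P V) (hf : ND f)
    (hn : 23 ≤ finrank F V) (π : commutator (isom f) →* S) (hπ : Function.Surjective π)
    (hker : π.ker ≤ Subgroup.center _) {k : ℕ}
    (hk : 96 * finrank F V * Nat.clog 2 (Nat.card F) ≤ k) : One S k := by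
  have := fin_der (isom f)
  have embS := emb perpS (hyp perpS)
  have extS := ext perpS
  obtain ⟨m, hm1, hm2, E, _, _, _, fE, r, x, hE, nE, hr, hrF, hrd, hx1, hxr, hxc⟩ :
      ∃ m, finrank F V ≤ m + 15 ∧ m + 14 ≤ finrank F V ∧ Mod P m := by
    rcases hM (finrank F V - 15) (by omega) with h | h
    · exact ⟨_, by omega, by omega, h⟩
    · exact ⟨_, by omega, by omega, h⟩
  obtain ⟨g₁, i₁⟩ := embS F E V P fE f hU nE hf (by omega)
  obtain ⟨inj₁, n₁, j₁, ij₁, -, fj₁⟩ := extS F E V P fE f g₁ nE hf i₁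
  set U := LinearMap.range g₁ with hUd
  have dU : finrank F U = m := by rw [LinearMap.finrank_range_of_inj inj₁, hE]
  obtain ⟨hc, nW, pp⟩ := perpS F V P f U hf n₁
  set W := perp f U with hWd
  have dW := Submodule.finrank_add_eq_of_isCompl hc
  obtain ⟨fY, R, nY, hR1, hR⟩ := altS F P
  obtain ⟨g₂, i₂⟩ := embS F _ W P fY (res f W) hU nY nW (by simp; omega)
  obtain ⟨-, -, j₂, ij₂, -, fj₂⟩ := extS F _ V P fY f (W.subtype ∘ₗ g₂) nY hf i₂
  have hR' : ⁅R.map j₂, R.map j₂⁆ = R.map j₂ := by rw [← Subgroup.map_commutator, hR]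
  have hle : R.map j₂ ≤ commutator (isom f) :=
    hR'.ge.trans (Subgroup.commutator_mono le_top le_top)
  have hR'' : ⁅(R.map j₂).subgroupOf (commutator (isom f)),
      (R.map j₂).subgroupOf (commutator (isom f))⁆ = (R.map j₂).subgroupOf _ := by
    refine Subgroup.map_injective (commutator (isom f)).subtype_injective ?_
    rw [Subgroup.map_commutator, Subgroup.map_subgroupOf_eq_of_le hle, hR']
  obtain ⟨p, hp, hpk⟩ : ∃ p ∈ (R.map j₂).subgroupOf (commutator (isom f)), p ∉ π.ker := by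
    by_contra hcon
    push Not at hcon
    have h1 : (R.map j₂).subgroupOf (commutator (isom f)) = ⊥ := by
      rw [← hR'', Subgroup.commutator_eq_bot_iff_le_centralizer]
      exact fun a ha => Subgroup.center_le_centralizer _ (hker (hcon a ha))
    have h2 := Subgroup.map_subgroupOf_eq_of_le hle
    rw [h1, Subgroup.map_bot, eq_comm, Subgroup.map_eq_bot_iff_of_injective _ ij₂] at h2
    exact hR1 h2
  have hRU : ∀ p ∈ (R.map j₂).subgroupOf (commutator (isom f)), ∀ u ∈ U, der _ p u = u := by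
    rintro ⟨_, hc⟩ ⟨a, -, rfl⟩ u hu
    refine fj₂ a u ?_
    rintro _ ⟨y, rfl⟩
    have : herm f u (g₂ y).1 = 0 := (g₂ y).2 u hu
    rw [herm_swap]
    simp [this]
  have iso : ∀ (g : commutator (isom f)) (a b : V),
      herm f (der _ g a) (der _ g b) = herm f a b := fun g => g.1.2.1
  obtain ⟨u₀, hu₀, h0⟩ := (Submodule.ne_bot_iff U).1 fun h => by
    rw [h, finrank_bot] at dU
    omega
  refine of_tuple π hπ (der _) (Fin.cons u₀ fun i => (Module.finBasis F W i).1)
    (fun H h1 h2 => top_of_conj π hπ h1 hpk (m2 (der _) (der_inj _) hc.symm hr (dU ▸ hrd) hrF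
      (x₀ := ⟨j₁ x, map_der j₁ hxc⟩) (fun h => hx1 (ij₁ ((congrArg Subtype.val h).trans
        (map_one j₁).symm))) (Subtype.ext (by simp [← map_pow, hxr])) (fj₁ x)
      (fun g hg v => ?_) hR'' (fun p hp w hw u hu => ?_) hRU (u₀ := u₀)
      (fun h => h0 (Submodule.disjoint_def.1 hc.disjoint u₀ hu₀ h)) (fun g => ?_) p hp))
    (le_trans ?_ hk)
  · rw [← pp]
    intro w hw
    rw [map_sub, sub_eq_zero]
    conv_lhs => rw [← hg w hw, iso]
  · conv_lhs => rw [← hRU p hp u hu, iso]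
    exact hw u hu
  · obtain ⟨h, hh, e⟩ := h2 g
    refine ⟨h, hh, fun w hw => ?_, e 0⟩
    have : der _ h ∘ₗ W.subtype = der _ g ∘ₗ W.subtype :=
      (Module.finBasis F W).ext fun i => e i.succ
    exact DFunLike.congr_fun this ⟨w, hw⟩
  · gcongr
    omega

end

theorem lin_case {F S : Type} [Field F] [Finite F] [Group S] [IsSimpleGroup S]
    {n : ℕ} (hn : 10 ≤ n)
    (π : commutator (⊤ : Subgroup ((Fin n → F) ≃ₗ[F] (Fin n → F))) →* S)
    (hπ : Function.Surjective π) (hker : π.ker ≤ Subgroup.center _) {k : ℕ}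
    (hk : 24 * n * Nat.clog 2 (Nat.card F) ≤ k) : One S k := by
  have := fin_der (⊤ : Subgroup ((Fin n → F) ≃ₗ[F] (Fin n → F)))
  have hV : finrank F (Fin n → F) = n - 3 + 3 := by
    rw [finrank_fin_fun]
    omega
  obtain ⟨e, he⟩ : ∃ e : Fin 4 → Fin n → F, LinearIndependent F e :=
    exists_linearIndependent_of_le_finrank (by omega)
  refine of_tuple π hπ (der _) e (fun H h1 h2 => ?_) (by rw [finrank_fin_fun]; exact hk)
  have h3 : ∀ a : Fin 4 → Fin n → F, LinearIndependent F a → ∃ h : H,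
      ∀ i, (der _).comp H.subtype h (e i) = a i := fun a ha => by
    obtain ⟨g, hg, e1⟩ := linS F n 4 (by omega) (by omega) e a he ha
    obtain ⟨h, hh, e2⟩ := h2 ⟨g, hg⟩
    exact ⟨⟨h, hh⟩, fun i => (e2 i).trans (e1 i)⟩
  have ht : Tr ((der _).comp H.subtype) 4 := fun a b ha hb => by
    obtain ⟨x, hx⟩ := h3 a ha
    obtain ⟨y, hy⟩ := h3 b hb
    exact ⟨y * x⁻¹, fun i => by rw [map_mul, Module.End.mul_apply, ← hx, inv_app, hy]⟩
  obtain ⟨φ₀, v₀, a1, a2, a3, a4⟩ := m1 zs down fr fix split sch orb ((der _).comp H.subtype)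
    ((der_inj _).comp H.subtype_injective) (by omega) hV ht
  have t2 := down _ _ _ _ 2 (by omega) (down _ _ _ _ 3 (by omega) ht)
  have all := fun φ v h => allS _ _ _ _ t2 φ₀ v₀ a1 a2 a3 a4 φ v h 1
  let i : Fin n := ⟨0, by omega⟩
  let j : Fin n := ⟨1, by omega⟩
  have hij : i ≠ j := by simp [i, j]
  obtain ⟨s, hs⟩ := all (LinearMap.proj j) (Pi.single i 1) (by simp [hij.symm])
  obtain ⟨t, ht⟩ := all (LinearMap.proj i) (Pi.single j 1) (by simp [hij])
  refine top_of_conj π hπ h1 (p := s.1) (fun h => ?_) fun g => ?_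
  · have h4 := congrArg (fun z => der _ z (Pi.single i 1) i)
      (Subgroup.mem_center_iff.1 (hker h) t.1)
    simp only [map_mul, Module.End.mul_apply] at h4
    have hs' : ∀ y, der _ s.1 y = _ := hs
    have ht' : ∀ y, der _ t.1 y = _ := ht
    simp [hs', ht', hij, hij.symm] at h4
  · obtain ⟨u, hu⟩ := all (LinearMap.proj j ∘ₗ der _ g⁻¹) (der _ g (Pi.single i 1))
      (by rw [LinearMap.comp_apply, inv_app]; simp [hij.symm])
    have : g * s.1 * g⁻¹ = u.1 := der_inj _ (LinearMap.ext fun y => by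
      have hs' : ∀ y, der _ s.1 y = _ := hs
      have hu' : der _ u.1 y = _ := hu y
      rw [hu', map_mul, map_mul, Module.End.mul_apply, Module.End.mul_apply, hs', map_add,
        map_smul, ← Module.End.mul_apply (der _ g), ← map_mul]
      simp)
    exact this ▸ u.2

theorem mod_id {F : Type} [Field F] [Finite F] (P : Par F) (h : ∀ a, P.σ a = a)
    (N : ℕ) (hN : 8 ≤ N) : Mod P N ∨ Mod P (N + 1) := by
  have := Fintype.ofFinite F
  obtain ⟨p, hp, e, hpp, he⟩ := FiniteField.card' F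
  have := Fact.mk hpp
  have key : ∀ t, 4 ≤ t → Mod P (2 * t) := fun t ht =>
    modS F P p e 1 t _ (by rw [pow_one, Nat.card_eq_fintype_card, he])
      (fun a => by rw [h, ← he, FiniteField.pow_card_pow]) (one_mul _) ht (by omega)
  rcases Nat.even_or_odd' N with ⟨t, rfl | rfl⟩
  · exact Or.inl (key t (by omega))
  · exact Or.inr (key (t + 1) (by omega))

theorem mod_inv {F : Type} [Field F] [Finite F] (σ : F →+* F)
    (h : ∀ a, σ (σ a) = a) (h1 : σ ≠ RingHom.id F) (N : ℕ) (hN : 8 ≤ N) :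
    Mod (pU σ h) N ∨ Mod (pU σ h) (N + 1) := by
  have := Fintype.ofFinite F
  obtain ⟨p, hp, -, hpp, -⟩ := FiniteField.card' F
  have := Fact.mk hpp
  obtain ⟨e, he, hσ⟩ := invS F σ p h1 h
  have key : ∀ t, 4 ≤ t → Mod (pU σ h) (2 * t + 1) := fun t ht =>
    modS F _ p e 2 (2 * t + 1) _ he (fun a => by
      rw [pow_succ, pow_mul a, pow_mul (p ^ e), ← he, Nat.card_eq_fintype_card,
        FiniteField.pow_card_pow]
      exact hσ a) rfl (by omega) (by omega)
  rcases Nat.even_or_odd' N with ⟨t, rfl | rfl⟩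
  · exact Or.inr (key t (by omega))
  · exact Or.inl (key t (by omega))

theorem classical_one
    {F : Type} [Field F] [Finite F] {n : ℕ} (Γ : Subgroup ((Fin n → F) ≃ₗ[F] (Fin n → F)))
    (hΓ : Γ = ⊤ ∨
      (∃ B : LinearMap.BilinForm F (Fin n → F), B.IsAlt ∧ B.Nondegenerate ∧
        ∀ g, g ∈ Γ ↔ ∀ x y, B (g x) (g y) = B x y) ∨
      (∃ Q : QuadraticForm F (Fin n → F), (QuadraticMap.polarBilin Q).Nondegenerate ∧
        ∀ g, g ∈ Γ ↔ ∀ x, Q (g x) = Q x) ∨
      ∃ (σ : F →+* F) (B : (Fin n → F) →ₛₗ[σ] (Fin n → F) →ₗ[F] F), σ ≠ RingHom.id F ∧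
        (∀ a, σ (σ a) = a) ∧ (∀ x y, B y x = σ (B x y)) ∧ B.Nondegenerate ∧
        ∀ g, g ∈ Γ ↔ ∀ x y, B (g x) (g y) = B x y)
    {S : Type} [Group S] [IsSimpleGroup S] (π : commutator Γ →* S) (hπ : Function.Surjective π)
    (hker : π.ker ≤ Subgroup.center _) {k : ℕ}
    (hk : 132 * n * Nat.clog 2 (Nat.card F) ≤ k) : One S k := by
  have hV : finrank F (Fin n → F) = n := finrank_fin_fun F
  rcases lt_or_ge n 23 with hn | hn
  · have := fin_der Γ
    refine of_small π hπ (der Γ) (der_inj Γ) (le_trans ?_ hk)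
    rw [hV]
    gcongr
    omega
  have hk' : 96 * finrank F (Fin n → F) * Nat.clog 2 (Nat.card F) ≤ k := by
    refine le_trans ?_ hk
    rw [hV]
    gcongr
    norm_num
  obtain ⟨t1, t2, t3⟩ := trS F (Fin n → F)
  rcases hΓ with rfl | ⟨B, h1, h2, h3⟩ | ⟨Q, h1, h2⟩ | ⟨σ, B, h1, h2, h3, h4, h5⟩
  · refine lin_case (by omega) π hπ hker (le_trans ?_ hk)
    gcongr
    norm_num
  · obtain ⟨f, hf, e⟩ := t1 B h1 h2
    obtain rfl : Γ = isom f := Subgroup.ext fun g => (h3 g).trans (e g).symm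
    exact form_case (uniS F).1 (mod_id _ fun _ => rfl) f hf (by omega)
      π hπ hker hk'
  · obtain ⟨f, hf, e⟩ := t2 Q h1
    obtain rfl : Γ = isom f := Subgroup.ext fun g => (h2 g).trans (e g).symm
    exact form_case (uniS F).2 (mod_id _ fun _ => rfl) f hf (by omega)
      π hπ hker hk'
  · obtain ⟨f, hf, e⟩ := t3 σ h2 B h1 h3 h4
    obtain rfl : Γ = isom f := Subgroup.ext fun g => (h5 g).trans (e g).symm
    exact form_case (uniU F σ h2 h1) (mod_inv σ h2 h1) f hf
      (by omega) π hπ hker hk'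

end Pool.Agent.MP_b84581_al.C
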