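import Mathlib

/-! Linear groups that are transitive on independent quadruples: statements of the rows. -/

set_option autoImplicit false

namespace Pool.Agent.MP_b84581_al.L

open Matrix

/-- primitive prime divisors -/
def ZsS : Prop := ∀ q m : ℕ, 2 ≤ q → 7 ≤ m →
  ∃ r : ℕ, r.Prime ∧ r ∣ q ^ m - 1 ∧ ∀ d : ℕ, 0 < d → d < m → ¬ r ∣ q ^ d - 1

/-- transitive on independent `j`-tuples -/
def Tr {F V H : Type} [Field F] [AddCommGroup V] [Module F V] [Group H]
    (ρ : H →* Module.End F V) (j : ℕ) : Prop :=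
  ∀ a b : Fin j → V, LinearIndependent F a → LinearIndependent F b → ∃ h, ∀ i, ρ h (a i) = b i

/-- the group contains the transvections with data `c • φ`, `v` -/
def Has {F V H : Type} [Field F] [AddCommGroup V] [Module F V] [Group H]
    (ρ : H →* Module.End F V) (φ : Module.Dual F V) (v : V) : Prop :=
  ∀ c : F, ∃ h, ∀ y, ρ h y = y + (c * φ y) • v

def DownS : Prop := ∀ (F V H : Type) [Field F] [AddCommGroup V] [Module F V]
  [FiniteDimensional F V] [Group H] (ρ : H →* Module.End F V) (j : ℕ),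
  j < Module.finrank F V → Tr ρ (j + 1) → Tr ρ j

/-- one group of transvections gives all of them -/
def AllS : Prop := ∀ (F V H : Type) [Field F] [AddCommGroup V] [Module F V]
  [FiniteDimensional F V] [Group H] (ρ : H →* Module.End F V), Tr ρ 2 →
  ∀ (φ₀ : Module.Dual F V) (v₀ : V), φ₀ ≠ 0 → v₀ ≠ 0 → φ₀ v₀ = 0 → Has ρ φ₀ v₀ →
  ∀ (φ : Module.Dual F V) (v : V), φ v = 0 → Has ρ φ v

/-- the special linear group is transitive on short independent tuples -/
def SlTrS : Prop := ∀ (F : Type) [Field F] (n j : ℕ), j < n → ∀ a b : Fin j → Fin n → F,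
  LinearIndependent F a → LinearIndependent F b →
  ∃ g : SpecialLinearGroup (Fin n) F, ∀ i, g.1 *ᵥ a i = b i

/-- elementary matrices generate -/
def SlGenS : Prop := ∀ (F : Type) [Field F] (n : ℕ) (H : Subgroup (SpecialLinearGroup (Fin n) F)),
  (∀ (i j : Fin n) (hij : i ≠ j) (c : F), SpecialLinearGroup.transvection hij c ∈ H) → H = ⊤

/-- a subgroup that generates modulo the centre is everything -/
def SlPerS : Prop := ∀ (F : Type) [Field F] (n : ℕ), 3 ≤ n →
  ∀ H : Subgroup (SpecialLinearGroup (Fin n) F),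
  H ⊔ Subgroup.center (SpecialLinearGroup (Fin n) F) = ⊤ → H = ⊤

end Pool.Agent.MP_b84581_al.L
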