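import Mathlib

/-! Small representations of the automorphism group of a free group: statements of the rows. -/

set_option autoImplicit false

namespace Pool.Agent.MP_b84581_al.O

open Module

/-- a Nielsen move -/
theorem exists_nl {ι : Type} [DecidableEq ι] (i : ι) {h : FreeGroup ι}
    (hh : h ∈ Subgroup.closure (FreeGroup.of '' {l | l ≠ i})) :
    ∃ φ : MulAut (FreeGroup ι), φ (FreeGroup.of i) = FreeGroup.of i * h ∧
      ∀ g ∈ Subgroup.closure (FreeGroup.of '' {l | l ≠ i}), φ g = g := by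
  let e : FreeGroup ι → FreeGroup ι →* FreeGroup ι := fun u =>
    FreeGroup.lift (Function.update FreeGroup.of i (FreeGroup.of i * u))
  have h1 : ∀ u, e u (FreeGroup.of i) = FreeGroup.of i * u := fun u => by simp [e]
  have h2 : ∀ u, ∀ g ∈ Subgroup.closure (FreeGroup.of '' {l | l ≠ i}), e u g = g := by
    intro u g hg
    induction hg using Subgroup.closure_induction with
    | mem x hx =>
      obtain ⟨l, hl, rfl⟩ := hx
      simp [e, Function.update_of_ne hl]
    | one => simp
    | mul x y _ _ hx hy => rw [map_mul, hx, hy]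
    | inv x _ hx => rw [map_inv, hx]
  have h3 : ∀ u v, v ∈ Subgroup.closure (FreeGroup.of '' {l | l ≠ i}) → u * v = 1 →
      (e u).comp (e v) = MonoidHom.id _ := by
    intro u v hv huv
    ext l
    by_cases hl : l = i
    · subst hl
      rw [MonoidHom.comp_apply, h1, map_mul, h1, h2 u v hv, mul_assoc, huv, mul_one]
      rfl
    · have : FreeGroup.of l ∈ Subgroup.closure (FreeGroup.of '' {l | l ≠ i}) :=
        Subgroup.subset_closure ⟨l, hl, rfl⟩
      rw [MonoidHom.comp_apply, h2 v _ this, h2 u _ this]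
      rfl
  exact ⟨MonoidHom.toMulEquiv (e h) (e h⁻¹) (h3 _ _ hh (inv_mul_cancel h))
    (h3 _ _ (inv_mem hh) (mul_inv_cancel h)), h1 h, h2 h⟩

/-- every stable letter doubles the dimension -/
def DblS : Prop := ∀ (K V ι : Type) [Field K] [IsAlgClosed K] [AddCommGroup V] [Module K V]
  [FiniteDimensional K V] (C : End K V) (A T : ι → End K V) (N : ℕ) (I : Finset ι),
  (N : K) ≠ 0 → C ^ N = 1 → (∀ i, A i ^ N = 1) → (∀ i, Commute C (A i)) →
  (∀ i l, Commute (A i) (A l)) → (∀ i l, i ≠ l → Commute (T i) (A l)) →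
  (∀ i, Function.Injective (T i)) → (∀ i, C * A i * T i = T i * A i) → C ≠ 1 →
  2 ^ I.card ≤ finrank K V

/-- words with substitution operators -/
def CombS : Prop := ∀ (K Q κ : Type) [Field K] [AddCommGroup Q] [Module K Q]
  [FiniteDimensional K Q] [Fintype κ] [DecidableEq κ] (c : ℕ) (W : (Fin c → κ) → Q)
  (D : κ → κ → End K Q), 3 * c ≤ Fintype.card κ → finrank K Q < 2 ^ c →
  (∀ a b w, a ≠ b → (∀ t, w t ≠ a) → D a b (W w) = 0) →
  (∀ a b w t, a ≠ b → w t = a → (∀ s, s ≠ t → w s ≠ a) →
    D a b (W w) = W (Function.update w t b)) → ∀ w, W w = 0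

/-- finite unipotent groups act nilpotently -/
def KolS : Prop := ∀ (K R P : Type) [Field K] [Ring R] [Algebra K R] [Group P] [Finite P]
  [Group.IsNilpotent P] (r : P →* R) (U : Submodule K R), (∀ z, IsNilpotent (r z - 1)) →
  (∀ z, ∀ x ∈ U, r z * x ∈ U) → U ≤ Submodule.span K (Set.range fun z => r z - 1) * U → U = ⊥

/-- the augmentation ideal of the inner automorphisms of a free factor -/
def aug (K : Type) {R ι : Type} [Field K] [Ring R] [Algebra K R]
    (π : MulAut (FreeGroup ι) →* R) (J : Finset ι) : Submodule K R :=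
  Submodule.span K {x | ∃ g ∈ Subgroup.closure (FreeGroup.of '' (J : Set ι)),
    x = π (MulAut.conj g) - 1}

def FilS : Prop := ∀ (K R ι : Type) [Field K] [Ring R] [Algebra K R] [FiniteDimensional K R]
  [DecidableEq ι] (π : MulAut (FreeGroup ι) →* R) (J : Finset ι) (c : ℕ), 3 * c ≤ J.card →
  finrank K R < 2 ^ c → aug K π J ^ c ≤ aug K π J ^ (c + 1)

def FilR : Prop := CombS → FilS

/-- if all long words vanish then perfect quotients are covered by the kernel -/
def TopS : Prop := ∀ (R ι G : Type) [Ring R] [Group G] (ρ : FreeGroup ι →* R) (c : ℕ)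
  (e : FreeGroup ι →* G), (∀ g, ∃ L : ℕ, 0 < L ∧ ρ g ^ L = 1) →
  (∀ w : Fin c → ι, (List.ofFn fun t => ρ (FreeGroup.of (w t)) - 1).prod = 0) →
  Function.Surjective e → commutator G = ⊤ → ∀ γ, ∃ g, e g = γ ∧ ρ g = 1

/-- the module induced over an orbit -/
def IndS : Prop := ∀ (K V₀ ι G : Type) [Field K] [AddCommGroup V₀] [Module K V₀]
  [FiniteDimensional K V₀] [Finite ι] [Group G] [Finite G] (σ : MulAut G →* End K V₀)
  (e : FreeGroup ι →* G), Function.Surjective e →
  ∃ (V : Submodule K ((FreeGroup ι →* G) → V₀)) (π : MulAut (FreeGroup ι) →* End K V),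
    (Set.range π).Finite ∧
    finrank K V ≤ finrank K V₀ * Set.ncard {M : Subgroup (FreeGroup ι) |
      ∃ φ : FreeGroup ι ≃* FreeGroup ι, Subgroup.map φ.toMonoidHom e.ker = M} ∧
    ∀ g, π (MulAut.conj g) = 1 → σ (MulAut.conj (e g)) = 1

end Pool.Agent.MP_b84581_al.O
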