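import Pool.Agent.MP_b84581_al.h50.Spec

/-! Elements of primitive prime order: statements of the rows. -/

set_option autoImplicit false

namespace Pool.Agent.MP_b84581_al.L

open Module

/-- a central element of a Sylow subgroup -/
def FrS : Prop := ∀ (K : Type) [Group K] [Finite K] (r : ℕ), r.Prime → r ∣ Nat.card K →
  ∃ x : K, x ≠ 1 ∧ x ^ r = 1 ∧ ∀ y : K, y ^ r = 1 → ∃ k : K, Commute x (k * y * k⁻¹)

/-- counting orbits of an element of prime order -/
def FixS : Prop := ∀ (F V : Type) [Field F] [Finite F] [AddCommGroup V] [Module F V]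
  [FiniteDimensional F V] (y : End F V) (r : ℕ) (U : Submodule F V), r.Prime → y ^ r = 1 →
  (∀ u ∈ U, y u ∈ U) → (∀ u ∈ U, y u = u → u = 0) → r ∣ Nat.card F ^ finrank F U - 1

/-- the fixed space has an invariant complement -/
def SplitS : Prop := ∀ (F V : Type) [Field F] [AddCommGroup V] [Module F V]
  (y : End F V) (r : ℕ), (r : F) ≠ 0 → y ^ r = 1 →
  IsCompl (LinearMap.ker (y - 1)) (LinearMap.range (y - 1))

/-- the commutant of an irreducible map on a finite space is a field -/
def SchS : Prop := ∀ (F V : Type) [Field F] [Finite F] [AddCommGroup V] [Module F V]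
  [FiniteDimensional F V] (x : End F V) (U : Submodule F V), (∀ u ∈ U, x u ∈ U) →
  (∀ U' : Submodule F V, U' ≤ U → (∀ u ∈ U', x u ∈ U') → U' = ⊥ ∨ U' = U) →
  (∀ a b : End F V, (∀ u ∈ U, a u ∈ U) → (∀ u ∈ U, b u ∈ U) → Commute x a → Commute x b →
    ∀ u ∈ U, a (b u) = b (a u)) ∧
  ∀ (r : ℕ) (y : End F V), r.Prime → x ^ r = 1 → (∃ u ∈ U, x u ≠ u) → (∀ u ∈ U, y u ∈ U) →
    Commute x y → y ^ r = 1 → ∃ i : ℕ, ∀ u ∈ U, y u = (x ^ i) u

/-- the pointwise stabiliser of a tuple -/
def stab {F V H : Type} [Field F] [AddCommGroup V] [Module F V] [Group H]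
    (ρ : H →* End F V) {j : ℕ} (e : Fin j → V) : Subgroup H where
  carrier := {h | ∀ i, ρ h (e i) = e i}
  one_mem' := fun i => by simp
  mul_mem' := fun {a b} ha hb i => by rw [map_mul, Module.End.mul_apply, hb i, ha i]
  inv_mem' := fun {a} ha i => by
    conv_lhs => rw [← ha i, ← Module.End.mul_apply, ← map_mul, inv_mul_cancel, map_one]
    rfl

/-- the stabiliser is transitive outside the span -/
def OrbS : Prop := ∀ (F V H : Type) [Field F] [Finite F] [AddCommGroup V] [Module F V]
  [FiniteDimensional F V] [Group H] [Finite H] (ρ : H →* End F V) (j : ℕ) (e : Fin j → V),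
  j < finrank F V → LinearIndependent F e → Tr ρ (j + 1) →
  Nat.card F ^ finrank F V - Nat.card F ^ j ∣ Nat.card (stab ρ e)

end Pool.Agent.MP_b84581_al.L
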