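import Mathlib

/-! Forms over finite fields, treated uniformly: statements of the rows. -/

set_option autoImplicit false

namespace Pool.Agent.MP_b84581_al.C

open Module

/-- a form parameter -/
structure Par (F : Type) [Field F] where
  σ : F →+* F
  ε : F
  Λ : AddSubgroup F
  inv : ∀ a, σ (σ a) = a
  eps : ε * ε = 1
  seps : σ ε = ε
  lo : ∀ a, a - ε * σ a ∈ Λ
  hi : ∀ a ∈ Λ, a + ε * σ a = 0
  cl : ∀ a ∈ Λ, ∀ c, σ c * a * c ∈ Λ

/-- symplectic -/
def pSp (F : Type) [Field F] : Par F where
  σ := RingHom.id F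
  ε := -1
  Λ := ⊤
  inv := fun _ => rfl
  eps := by simp
  seps := rfl
  lo := fun _ => trivial
  hi := fun a _ => by simp
  cl := fun _ _ _ => trivial

/-- orthogonal -/
def pO (F : Type) [Field F] : Par F where
  σ := RingHom.id F
  ε := 1
  Λ := ⊥
  inv := fun _ => rfl
  eps := by simp
  seps := rfl
  lo := fun a => by simp
  hi := fun a ha => by simp [AddSubgroup.mem_bot.1 ha]
  cl := fun a ha c => by simp [AddSubgroup.mem_bot.1 ha]

/-- unitary -/
def pU {F : Type} [Field F] (σ : F →+* F) (h : ∀ a, σ (σ a) = a) : Par F where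
  σ := σ
  ε := 1
  Λ := (AddMonoidHom.id F + σ.toAddMonoidHom).ker
  inv := h
  eps := by simp
  seps := map_one σ
  lo := fun a => by simp [h]
  hi := fun a ha => by simpa using ha
  cl := fun a ha c => by
    have ha' : a + σ a = 0 := by simpa using ha
    have : σ c * a * c + σ (σ c * a * c) = 0 := by
      rw [map_mul, map_mul, h]
      linear_combination (σ c * c) * ha'
    simpa using this

section
variable {F U V : Type} [Field F] [AddCommGroup U] [Module F U] [AddCommGroup V] [Module F V]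

/-- sesquilinear forms -/
abbrev Form (P : Par F) (V : Type) [AddCommGroup V] [Module F V] : Type :=
  V →ₛₗ[P.σ] V →ₗ[F] F

/-- the associated reflexive form -/
def herm {P : Par F} (f : Form P V) : Form P V :=
  LinearMap.mk₂'ₛₗ P.σ (RingHom.id F) (fun x y => f x y + P.ε * P.σ (f y x))
    (fun a b y => by simp only [map_add, LinearMap.add_apply]; ring)
    (fun c a y => by
      simp only [LinearMap.map_smulₛₗ, LinearMap.smul_apply, smul_eq_mul, map_mul,
        RingHom.id_apply]
      ring)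
    (fun a y z => by simp only [map_add, LinearMap.add_apply]; ring)
    (fun c a y => by
      simp only [LinearMap.map_smulₛₗ, LinearMap.smul_apply, smul_eq_mul, map_mul,
        RingHom.id_apply, P.inv]
      ring)

theorem herm_apply {P : Par F} (f : Form P V) (x y : V) :
    herm f x y = f x y + P.ε * P.σ (f y x) := rfl

theorem herm_swap {P : Par F} (f : Form P V) (x y : V) :
    herm f y x = P.ε * P.σ (herm f x y) := by
  rw [herm_apply, herm_apply, map_add, map_mul, P.inv, P.seps]
  linear_combination (-f y x) * P.eps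

/-- nondegenerate -/
def ND {P : Par F} (f : Form P V) : Prop := ∀ x, (∀ y, herm f x y = 0) → x = 0

/-- isometric linear maps -/
def Iso {P : Par F} (f : Form P U) (f' : Form P V) (g : U →ₗ[F] V) : Prop :=
  (∀ x y, herm f' (g x) (g y) = herm f x y) ∧ ∀ x, f' (g x) (g x) - f x x ∈ P.Λ

/-- the isometry group -/
def isom {P : Par F} (f : Form P V) : Subgroup (V ≃ₗ[F] V) where
  carrier := {g | Iso f f g.toLinearMap}
  one_mem' := ⟨fun _ _ => rfl, fun x => by simp⟩
  mul_mem' := fun {a b} ha hb => ⟨fun x y => (ha.1 (b x) (b y)).trans (hb.1 x y), fun x => by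
    simpa using add_mem (ha.2 (b x)) (hb.2 x)⟩
  inv_mem' := fun {a} ha => ⟨fun x y => by simpa using (ha.1 (a.symm x) (a.symm y)).symm,
    fun x => by simpa using neg_mem (ha.2 (a.symm x))⟩

/-- the orthogonal complement -/
def perp {P : Par F} (f : Form P V) (A : Submodule F V) : Submodule F V where
  carrier := {v | ∀ u ∈ A, herm f u v = 0}
  zero_mem' := fun _ _ => map_zero _
  add_mem' := fun {a b} ha hb u hu => by rw [map_add, ha u hu, hb u hu, add_zero]
  smul_mem' := fun c a ha u hu => by rw [map_smul, ha u hu, smul_zero]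

/-- restriction to a subspace -/
def res {P : Par F} (f : Form P V) (A : Submodule F V) : Form P A := f.domRestrict₁₂ A A

end

/-- singular vectors exist in dimension three -/
def Uni {F : Type} [Field F] (P : Par F) : Prop := ∀ (V : Type) [AddCommGroup V] [Module F V]
  [FiniteDimensional F V] (f : Form P V), 3 ≤ finrank F V → ∃ v, v ≠ 0 ∧ f v v ∈ P.Λ

/-- a space of dimension `m` with an isometry of primitive prime order -/
def Mod {F : Type} [Field F] (P : Par F) (m : ℕ) : Prop :=
  ∃ (E : Type) (_ : AddCommGroup E) (_ : Module F E) (_ : FiniteDimensional F E) (f : Form P E)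
    (r : ℕ) (x : isom f), finrank F E = m ∧ ND f ∧ r.Prime ∧ (r : F) ≠ 0 ∧
    (∀ d : ℕ, 0 < d → d < m → ¬ r ∣ Nat.card F ^ d - 1) ∧ x ≠ 1 ∧ x ^ r = 1 ∧
    x ∈ commutator (isom f)

def PerpS : Prop := ∀ (F V : Type) [Field F] [Finite F] [AddCommGroup V] [Module F V]
  [FiniteDimensional F V] (P : Par F) (f : Form P V) (A : Submodule F V), ND f → ND (res f A) →
  IsCompl A (perp f A) ∧ ND (res f (perp f A)) ∧ perp f (perp f A) = A

/-- small spaces embed -/
def HypS : Prop := ∀ (F Y V : Type) [Field F] [Finite F] [AddCommGroup Y] [Module F Y]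
  [FiniteDimensional F Y] [AddCommGroup V] [Module F V] [FiniteDimensional F V] (P : Par F)
  (fY : Form P Y) (f : Form P V), Uni P → ND f → finrank F Y ≤ 2 → 5 ≤ finrank F V →
  ∃ g : Y →ₗ[F] V, Iso fY f g

def HypR : Prop := PerpS → HypS

/-- every space embeds in every space of dimension larger by four -/
def EmbS : Prop := ∀ (F U V : Type) [Field F] [Finite F] [AddCommGroup U] [Module F U]
  [FiniteDimensional F U] [AddCommGroup V] [Module F V] [FiniteDimensional F V] (P : Par F)
  (fU : Form P U) (f : Form P V), Uni P → ND fU → ND f → finrank F U + 4 ≤ finrank F V →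
  ∃ g : U →ₗ[F] V, Iso fU f g

def EmbR : Prop := PerpS → HypS → EmbS

/-- isometries extend by the identity on the orthogonal complement -/
def ExtS : Prop := ∀ (F U V : Type) [Field F] [Finite F] [AddCommGroup U] [Module F U]
  [FiniteDimensional F U] [AddCommGroup V] [Module F V] [FiniteDimensional F V] (P : Par F)
  (fU : Form P U) (f : Form P V) (g : U →ₗ[F] V), ND fU → ND f → Iso fU f g →
  Function.Injective g ∧ ND (res f (LinearMap.range g)) ∧
  ∃ j : isom fU →* isom f, Function.Injective j ∧ (∀ a u, (j a).1 (g u) = g (a.1 u)) ∧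
    ∀ a, ∀ v ∈ perp f (LinearMap.range g), (j a).1 v = v

def ExtR : Prop := PerpS → ExtS

/-- trace forms -/
def ModS : Prop := ∀ (F : Type) [Field F] [Finite F] (P : Par F) (p e s t m : ℕ) [Fact p.Prime]
  [CharP F p], Nat.card F = (p ^ e) ^ s → (∀ a, P.σ a = a ^ (p ^ e) ^ t) → s * m = 2 * t →
  4 ≤ t → 2 ≤ m → Mod P m

/-- involutions of finite fields -/
def InvS : Prop := ∀ (F : Type) [Field F] [Finite F] (σ : F →+* F) (p : ℕ) [Fact p.Prime]
  [CharP F p], σ ≠ RingHom.id F → (∀ a, σ (σ a) = a) →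
  ∃ e, Nat.card F = (p ^ e) ^ 2 ∧ ∀ a, σ a = a ^ p ^ e

def UniS : Prop := ∀ (F : Type) [Field F] [Finite F], Uni (pSp F) ∧ Uni (pO F)

def UniU : Prop := ∀ (F : Type) [Field F] [Finite F] (σ : F →+* F) (h : ∀ a, σ (σ a) = a),
  σ ≠ RingHom.id F → Uni (pU σ h)

/-- a perfect group of isometries in dimension ten -/
def AltS : Prop := ∀ (F : Type) [Field F] (P : Par F),
  ∃ (f : Form P ((Fin 5 → F) × (Fin 5 → F))) (R : Subgroup (isom f)), ND f ∧ R ≠ ⊥ ∧ ⁅R, R⁆ = R

/-- the usual forms -/
def TrS : Prop := ∀ (F V : Type) [Field F] [AddCommGroup V] [Module F V] [FiniteDimensional F V],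
  (∀ B : LinearMap.BilinForm F V, B.IsAlt → B.Nondegenerate → ∃ f : Form (pSp F) V, ND f ∧
    ∀ g, g ∈ isom f ↔ ∀ x y, B (g x) (g y) = B x y) ∧
  (∀ Q : QuadraticForm F V, (QuadraticMap.polarBilin Q).Nondegenerate →
    ∃ f : Form (pO F) V, ND f ∧ ∀ g, g ∈ isom f ↔ ∀ x, Q (g x) = Q x) ∧
  ∀ (σ : F →+* F) (h : ∀ a, σ (σ a) = a) (B : V →ₛₗ[σ] V →ₗ[F] F), σ ≠ RingHom.id F →
    (∀ x y, B y x = σ (B x y)) → B.Nondegenerate → ∃ f : Form (pU σ h) V, ND f ∧
    ∀ g, g ∈ isom f ↔ ∀ x y, B (g x) (g y) = B x y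

/-- the derived group of the general linear group is transitive on short independent tuples -/
def LinS : Prop := ∀ (F : Type) [Field F] (n j : ℕ), 3 ≤ n → j < n →
  ∀ a b : Fin j → Fin n → F, LinearIndependent F a → LinearIndependent F b →
  ∃ g ∈ commutator (⊤ : Subgroup ((Fin n → F) ≃ₗ[F] (Fin n → F))), ∀ i, g.1 (a i) = b i

end Pool.Agent.MP_b84581_al.C
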